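import Pool.Agent.LibPcn.CDefs
import Pool.Agent.LibPcg.PB1

set_option autoImplicit false

/-!
Row PCN1. Splits: symmetry, origin, transitivity, chains.
Sketch. `split_of_sum`: four point condition for the three sums `uv + u'v'`, `uv' + u'v`,
`uu' + vv'`: the first is smaller than the second, so (`four u u' v v'` and `four u v' v u'` with
suitable orders) the third equals the second. `Split.trans`: with the similarity
`g x y = (d x p + d y p - d x y) / 2` (`ult_of_fourPt h p`; or directly from `four`), `Split p q x y`
iff `g q x < g x y` and `g q y < g x y`. From `g q r, g q s < g r s`, `g q s, g q t < g s t` and the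
ultrametric inequalities get `g q r, g q t < g r t`. (Instances of `four` among `p q r s t`, then
case distinction on the maxima and `linarith` should also do.) `chain`: first fix `j` and use
`Split.trans` (in the form: first pair varies) for `i`, then induction on `m`.
-/

namespace Pool.Agent.LibPcn

open SimpleGraph Pool.Agent.LibPcg Pool.Agent.LibOpc

theorem Split.swap {V : Type} {d : V → V → ℝ} (h : FourPt d) {p q r s : V}
    (hs : Split d p q r s) : Split d r s p q := by
  obtain ⟨h1, h2⟩ := hs
  refine ⟨?_, ?_⟩
  · rw [h.symm r p, h.symm s q]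
    linarith
  · rw [h.symm r q, h.symm s p]
    linarith

theorem Split.left {V : Type} {d : V → V → ℝ} (h : FourPt d) {p q r s : V}
    (hs : Split d p q r s) : Split d q p r s := by
  obtain ⟨h1, h2⟩ := hs
  refine ⟨?_, ?_⟩
  · rw [h.symm q p]
    linarith
  · rw [h.symm q p]
    linarith

theorem Split.right {V : Type} {d : V → V → ℝ} (h : FourPt d) {p q r s : V}
    (hs : Split d p q r s) : Split d p q s r := by
  obtain ⟨h1, h2⟩ := hs
  refine ⟨?_, ?_⟩
  · rw [h.symm s r]
    linarith
  · rw [h.symm s r]
    linarith

theorem split_of_sum {V : Type} {d : V → V → ℝ} (h : FourPt d) {u v u' v' : V}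
    (hs : d u v + d u' v' < d u v' + d u' v) : Split d u v u' v' := by
  have h1 := h.four u v' u' v
  have h2 := h.symm v' v
  have h3 := h.symm v' u'
  have h4 := h.symm u' v
  refine ⟨?_, ?_⟩
  · rcases le_max_iff.1 h1 with h5 | h5
    · linarith
    · exfalso
      linarith
  · linarith

theorem Split.trans {V : Type} {d : V → V → ℝ} (h : FourPt d) {p q r s t : V}
    (h1 : Split d p q r s) (h2 : Split d p q s t) : Split d p q r t := by
  have hu := ult_of_fourPt h p
  set g : V → V → ℝ := fun x y => (d x p + d y p - d x y) / 2 with hg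
  have key : ∀ x y, Split d p q x y ↔ g q x < g x y ∧ g q y < g x y := by
    intro x y
    simp only [hg, Split]
    rw [h.symm p q, h.symm p x, h.symm p y]
    constructor
    · rintro ⟨h3, h4⟩
      constructor <;> linarith
    · rintro ⟨h3, h4⟩
      constructor <;> linarith
  rw [key] at h1 h2 ⊢
  obtain ⟨a1, a2⟩ := h1
  obtain ⟨b1, b2⟩ := h2
  have u1 : min (g q r) (g r s) ≤ g q s := hu.ult q r s
  have u2 : min (g q s) (g s r) ≤ g q r := hu.ult q s r
  have u3 : min (g q s) (g s t) ≤ g q t := hu.ult q s t
  have u4 : min (g q t) (g t s) ≤ g q s := hu.ult q t s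
  have u5 : min (g r s) (g s t) ≤ g r t := hu.ult r s t
  have s1 : g s r = g r s := hu.symm s r
  have s2 : g t s = g s t := hu.symm t s
  rw [s1] at u2
  rw [s2] at u4
  rw [min_eq_left a1.le] at u1
  rw [min_eq_left a2.le] at u2
  rw [min_eq_left b1.le] at u3
  rw [min_eq_left b2.le] at u4
  have c1 : g q s < min (g r s) (g s t) := lt_min a2 b1
  constructor <;> linarith

theorem Split.trans_left {V : Type} {d : V → V → ℝ} (h : FourPt d) {p q r s t : V}
    (h1 : Split d p q s t) (h2 : Split d q r s t) : Split d p r s t := by
  exact Split.swap h (Split.trans h (Split.swap h h1) (Split.swap h h2))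

theorem chain {V : Type} {d : V → V → ℝ} (h : FourPt d) (n m : ℕ) (hn : 1 ≤ n) (hm : 1 ≤ m)
    (p q : ℕ → V) (hpq : ∀ i < n, ∀ j < m, Split d (p i) (p (i + 1)) (q j) (q (j + 1))) :
    Split d (p 0) (p n) (q 0) (q m) := by
  have hp : ∀ j < m, ∀ n', 1 ≤ n' → n' ≤ n → Split d (p 0) (p n') (q j) (q (j + 1)) := by
    intro j hj n' h1
    induction n', h1 using Nat.le_induction with
    | base =>
      intro h2
      exact hpq 0 (by omega) j hj
    | succ n' h1 ih =>
      intro h2
      exact Split.trans_left h (ih (by omega)) (hpq n' (by omega) j hj)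
  have hq : ∀ m', 1 ≤ m' → m' ≤ m → Split d (p 0) (p n) (q 0) (q m') := by
    intro m' h1
    induction m', h1 using Nat.le_induction with
    | base =>
      intro h2
      exact hp 0 (by omega) n hn le_rfl
    | succ m' h1 ih =>
      intro h2
      exact Split.trans h (ih (by omega)) (hp m' (by omega) n hn le_rfl)
  exact hq m hm le_rfl

end Pool.Agent.LibPcn
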