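import Pool.Agent.LibPcn.CDefs

set_option autoImplicit false

/-!
Row PCN10. Side conditions: kinds of the elements of the triples, elements of the quartets.
Sketch. `triples_ok`: `List.mem_append`, `List.mem_flatMap`, ...; the three kinds of triples. For
`(eW j i, eW j (i + 1), eL j i)`: `eW j (i + 1) = (5, j, i + 1)`, and `eW j i` is `eF = (3, 0, 0)` or
`(5, j, i)`. `quarts_ok`: every `q ∈ quarts TL` is one of the four quartets `quart1 TL r`,
`r < TL.length`; `tr TL r ∈ TL`; memberships in `bases TL` by definition; the elements are different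
since their kinds are: `eA` 0, `eB` 1, elements of the triples 2 to 5, `eP` 6, `eQ` 7, and by the
last two conditions in `TOk`.
-/

namespace Pool.Agent.LibPcn

open SimpleGraph Pool.Agent.LibPcg Pool.Agent.LibOpc

private theorem c10_eW_kind (j i : ℕ) : (eW j i).1 = 3 ∨ (eW j i).1 = 5 := by
  unfold eW eF
  split_ifs
  · exact Or.inl rfl
  · exact Or.inr rfl

private theorem c10_ne {a b : Ba} (h : a.1 ≠ b.1) : a ≠ b := fun h' => h (congrArg Prod.fst h')

private theorem c10_eW_ne (j i : ℕ) : eW j i ≠ eW j (i + 1) := by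
  intro h
  have h1 : eW j (i + 1) = (5, j, i + 1) := by
    unfold eW
    rw [if_neg (Nat.succ_ne_zero i)]
  rw [h1] at h
  unfold eW eF at h
  split_ifs at h with h0
  · simp at h
  · simp at h

theorem triples_ok {V : Type} [DecidableEq V] (φ : List (List (V × Bool))) :
    ∀ T ∈ triples φ, TOk T := by
  intro T hT
  unfold triples at hT
  rw [List.mem_append, List.mem_append] at hT
  rcases hT with hT | hT | hT
  · rw [List.mem_flatMap] at hT
    obtain ⟨j, -, hT⟩ := hT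
    rw [List.mem_flatMap] at hT
    obtain ⟨i, -, hT⟩ := hT
    rw [List.mem_flatMap] at hT
    obtain ⟨j', -, hT⟩ := hT
    rw [List.mem_flatMap] at hT
    obtain ⟨i', -, hT⟩ := hT
    split_ifs at hT
    · rw [List.mem_singleton] at hT
      subst hT
      refine ⟨⟨?_, ?_⟩, ⟨?_, ?_⟩, ⟨?_, ?_⟩, c10_ne ?_, c10_ne ?_⟩ <;> simp [eL, eM]
    · simp at hT
  · rw [List.mem_flatMap] at hT
    obtain ⟨j, -, hT⟩ := hT
    rw [List.mem_map] at hT
    obtain ⟨i, -, rfl⟩ := hT
    have h1 := c10_eW_kind j i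
    have h2 := c10_eW_kind j (i + 1)
    have h3 : (eL j i).1 = 4 := rfl
    refine ⟨⟨?_, ?_⟩, ⟨?_, ?_⟩, ⟨?_, ?_⟩, c10_eW_ne j i, c10_ne ?_⟩
    · show 2 ≤ (eW j i).1
      omega
    · show (eW j i).1 ≤ 5
      omega
    · show 2 ≤ (eW j (i + 1)).1
      omega
    · show (eW j (i + 1)).1 ≤ 5
      omega
    · show 2 ≤ (eL j i).1
      omega
    · show (eL j i).1 ≤ 5
      omega
    · show (eW j (i + 1)).1 ≠ (eL j i).1
      omega
  · rw [List.mem_map] at hT
    obtain ⟨j, -, rfl⟩ := hT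
    have h1 := c10_eW_kind j (φ.getD j []).length
    have h2 : (eM).1 = 2 := rfl
    have h3 : (eF).1 = 3 := rfl
    refine ⟨⟨?_, ?_⟩, ⟨?_, ?_⟩, ⟨?_, ?_⟩, c10_ne ?_, c10_ne ?_⟩
    · show 2 ≤ (eW j (φ.getD j []).length).1
      omega
    · show (eW j (φ.getD j []).length).1 ≤ 5
      omega
    · show 2 ≤ (eM).1
      omega
    · show (eM).1 ≤ 5
      omega
    · show 2 ≤ (eF).1
      omega
    · show (eF).1 ≤ 5
      omega
    · show (eW j (φ.getD j []).length).1 ≠ (eM).1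
      omega
    · show (eM).1 ≠ (eF).1
      omega

theorem tr_mem (TL : List Tr) (r : ℕ) (hr : r < TL.length) : tr TL r ∈ TL := by
  unfold tr
  rw [List.getD_eq_getElem _ _ hr]
  exact List.getElem_mem hr

theorem exists_tr (TL : List Tr) (T : Tr) (hT : T ∈ TL) : ∃ r < TL.length, tr TL r = T := by
  obtain ⟨r, hr, h⟩ := List.mem_iff_getElem.1 hT
  refine ⟨r, hr, ?_⟩
  unfold tr
  rw [List.getD_eq_getElem _ _ hr]
  exact h

theorem mem_quarts (TL : List Tr) (q : Qt) :
    q ∈ quarts TL ↔ ∃ r < TL.length, q ∈ quart1 TL r := by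
  unfold quarts
  rw [List.mem_flatMap]
  simp only [List.mem_range]

theorem quarts_ok (TL : List Tr) (h : ∀ T ∈ TL, TOk T) : ∀ q ∈ quarts TL, QOk (bases TL) q := by
  intro q hq
  rw [mem_quarts] at hq
  obtain ⟨r, hr, hq⟩ := hq
  obtain ⟨⟨h1, h1'⟩, ⟨h2, h2'⟩, ⟨h3, h3'⟩, h4, h5⟩ := h _ (tr_mem TL r hr)
  have hb : ∀ b, b ∈ [(tr TL r).1, (tr TL r).2.1, (tr TL r).2.2, eP r, eQ r] → b ∈ bases TL := by
    intro b hb
    unfold bases
    rw [List.mem_append, List.mem_flatMap]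
    exact Or.inr ⟨r, List.mem_range.2 hr, hb⟩
  have mA : eA ∈ bases TL := by unfold bases; simp
  have mB : eB ∈ bases TL := by unfold bases; simp
  have m1 : (tr TL r).1 ∈ bases TL := hb _ (by simp)
  have m2 : (tr TL r).2.1 ∈ bases TL := hb _ (by simp)
  have m3 : (tr TL r).2.2 ∈ bases TL := hb _ (by simp)
  have mP : eP r ∈ bases TL := hb _ (by simp)
  have mQ : eQ r ∈ bases TL := hb _ (by simp)
  have kA : (eA).1 = 0 := rfl
  have kB : (eB).1 = 1 := rfl
  have kP : (eP r).1 = 6 := rfl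
  have kQ : (eQ r).1 = 7 := rfl
  unfold quart1 at hq
  simp only [List.mem_cons, List.not_mem_nil, or_false] at hq
  rcases hq with rfl | rfl | rfl | rfl
  · refine ⟨⟨mA, mP, mB, m1⟩, c10_ne ?_, c10_ne ?_, c10_ne ?_, c10_ne ?_, c10_ne ?_, c10_ne ?_⟩ <;>
      dsimp only <;> omega
  · refine ⟨⟨mA, m3, mB, mQ⟩, c10_ne ?_, c10_ne ?_, c10_ne ?_, c10_ne ?_, c10_ne ?_, c10_ne ?_⟩ <;>
      dsimp only <;> omega
  · refine ⟨⟨mA, m1, m2, mQ⟩, c10_ne ?_, c10_ne ?_, c10_ne ?_, h4, c10_ne ?_, c10_ne ?_⟩ <;>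
      dsimp only <;> omega
  · refine ⟨⟨mB, m3, m2, mP⟩, c10_ne ?_, c10_ne ?_, c10_ne ?_, h5.symm, c10_ne ?_, c10_ne ?_⟩ <;>
      dsimp only <;> omega

theorem outV_pos (B : List Ba) (Q : List Qt) (hB : B ≠ []) : 0 < (outV B Q).length := by
  obtain ⟨b, B', rfl⟩ := List.exists_cons_of_ne_nil hB
  have h0 : 0 < numR Q.length := by unfold numR; omega
  have h1 : (b, 0, 0) ∈ itX (b :: B') Q := by
    unfold itX
    rw [List.mem_append]
    left
    unfold plain
    rw [List.mem_flatMap]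
    refine ⟨b, List.mem_cons_self, ?_⟩
    rw [List.mem_map]
    exact ⟨0, List.mem_range.2 h0, rfl⟩
  have h2 : (true, 0, (b, 0, 0)) ∈ outV (b :: B') Q := by
    unfold outV
    rw [List.mem_flatMap]
    refine ⟨0, List.mem_range.2 (by norm_num), ?_⟩
    rw [List.mem_append]
    left
    rw [List.mem_map]
    exact ⟨_, h1, rfl⟩
  exact List.length_pos_of_mem h2

end Pool.Agent.LibPcn
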