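import Pool.Agent.LibPcn.CDefs
import Pool.Agent.LibPcg.PA7

set_option autoImplicit false

/-!
Row PCN11. Four point conditions.
`fourPt_pendant`: cases on the equalities among `x y z u` as in LibPcg/PC6.lean, LibOpc/OA3.lean (if
two points on different sides coincide it is an equality or the triangle inequality
`FourPt.triangle` (PA7); if all four are different the heights cancel and `four` for `d0`).
`fourPt_pull`: clear. `fourPt_jump`: for a pseudometric on the line with jumps: cases on the
equalities of `P x, P y, P z, P u` (if `P x = P y` and `P z = P u` the left hand side is `0`; if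
`P x = P y` only: triangle inequality for `|.| + jump`, and the two sums on the right are equal; if
all pairs on the left are different: at least `|.|`-part by cases as in `oa3_four`
(LibOpc/OA3.lean), and the number of jumps on the right ... ). A convenient way: sort out
`P x = P z` etc. by `by_cases`, then `abs_cases` and `linarith`; or write the function as the
restriction of `fourPt_pendant` for the metric `|P x - P y|` with the height `J / 2` on the
quotient (points with the same `P` identified: pull back along `P` of the function
`fun s t : ℝ => if s = t then 0 else |s - t| + J / 2 + J / 2`). This last way is short.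
`fourPt_glue`: the copies of `δ` glued to a star at `r`: cases on the equalities of the copy numbers
`c x, c y, c z, c u`: all equal: `four`; three equal, e.g. `c x = c y = c z ≠ c u`: `four` for
`x, y, z, r`; two pairs or one pair: triangle inequalities `δ x y ≤ δ x r + δ r y` and `0 ≤ K`.
-/

namespace Pool.Agent.LibPcn

open SimpleGraph Pool.Agent.LibPcg Pool.Agent.LibOpc

theorem fourPt_pull {V W : Type} {d : W → W → ℝ} (h : FourPt d) (g : V → W) :
    FourPt (fun x y => d (g x) (g y)) :=
  ⟨fun x => h.self (g x), fun x y => h.symm (g x) (g y),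
    fun x y z u => h.four (g x) (g y) (g z) (g u)⟩

open Classical in
theorem fourPt_pendant {V : Type} {d0 : V → V → ℝ} (h : FourPt d0) (ω : V → ℝ)
    (hω : ∀ x, 0 ≤ ω x) : FourPt (fun x y => if x = y then 0 else d0 x y + ω x + ω y) := by
  obtain ⟨d, hd⟩ : ∃ d : V → V → ℝ, d = fun x y =>
      if x = y then 0 else d0 x y + ω x + ω y := ⟨_, rfl⟩
  have hself : ∀ x, d x x = 0 := fun x => by rw [hd]; exact if_pos rfl
  have hne : ∀ x y, x ≠ y → d x y = d0 x y + ω x + ω y :=
    fun x y hxy => by rw [hd]; exact if_neg hxy
  have hsymm : ∀ x y, d x y = d y x := fun x y => by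
    by_cases hxy : x = y
    · rw [hxy]
    · rw [hne x y hxy, hne y x (Ne.symm hxy), h.symm]
      ring
  have hnn : ∀ x y, 0 ≤ d x y := fun x y => by
    by_cases hxy : x = y
    · rw [hxy, hself]
    · rw [hne x y hxy]
      have := hω x
      have := hω y
      have := h.nonneg x y
      linarith
  have htri : ∀ x y z, d x y ≤ d x z + d z y := fun x y z => by
    by_cases hxy : x = y
    · rw [hxy, hself]
      exact add_nonneg (hnn _ _) (hnn _ _)
    · by_cases hxz : x = z
      · rw [hxz, hself, zero_add]
      · by_cases hzy : z = y
        · rw [hzy, hself, add_zero]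
        · rw [hne x y hxy, hne x z hxz, hne z y hzy]
          have := hω z
          have := h.triangle x y z
          linarith
  rw [← hd]
  refine ⟨hself, hsymm, fun x y z u => ?_⟩
  by_cases hxz : x = z
  · refine le_max_of_le_right (le_of_eq ?_)
    rw [hxz, hsymm y z, add_comm]
  by_cases hxu : x = u
  · refine le_max_of_le_left (le_of_eq ?_)
    rw [hxu, hsymm y u, hsymm z u, add_comm]
  by_cases hyz : y = z
  · refine le_max_of_le_left (le_of_eq ?_)
    rw [hyz]
  by_cases hyu : y = u
  · refine le_max_of_le_right (le_of_eq ?_)
    rw [hyu, hsymm z u]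
  by_cases hxy : x = y
  · refine le_max_of_le_left ?_
    rw [hxy, hself, zero_add, hsymm y z]
    exact htri z u y
  by_cases hzu : z = u
  · refine le_max_of_le_left ?_
    rw [hzu, hself, add_zero, hsymm y u]
    exact htri x y u
  rw [hne _ _ hxz, hne _ _ hxu, hne _ _ hyz, hne _ _ hyu, hne _ _ hxy, hne _ _ hzu, le_max_iff]
  rcases le_max_iff.1 (h.four x y z u) with h1 | h1
  · left
    linarith
  · right
    linarith

private theorem c11_line : FourPt (fun s t : ℝ => |s - t|) := by
  refine ⟨fun x => by simp, fun x y => abs_sub_comm x y, fun a b c e => ?_⟩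
  rw [le_max_iff]
  rcases abs_cases (a - b) with ⟨h1, h1'⟩ | ⟨h1, h1'⟩ <;>
  rcases abs_cases (c - e) with ⟨h2, h2'⟩ | ⟨h2, h2'⟩ <;>
  rcases abs_cases (a - c) with ⟨h3, h3'⟩ | ⟨h3, h3'⟩ <;>
  rcases abs_cases (b - e) with ⟨h4, h4'⟩ | ⟨h4, h4'⟩ <;>
  rcases abs_cases (a - e) with ⟨h5, h5'⟩ | ⟨h5, h5'⟩ <;>
  rcases abs_cases (b - c) with ⟨h6, h6'⟩ | ⟨h6, h6'⟩ <;>
  rw [h1, h2, h3, h4, h5, h6] <;>
  first
    | (left; linarith)
    | (right; linarith)

open Classical in
theorem fourPt_jump {V : Type} (P : V → ℝ) (J : ℝ) (hJ : 0 ≤ J) :
    FourPt (fun x y => if P x = P y then 0 else |P x - P y| + J) := by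
  have h1 := fourPt_pull (fourPt_pendant c11_line (fun _ => J / 2) (fun _ => by linarith)) P
  have h2 : (fun x y : V => if P x = P y then (0 : ℝ) else |P x - P y| + J) =
      fun x y : V => if P x = P y then (0 : ℝ) else |P x - P y| + J / 2 + J / 2 := by
    funext x y
    by_cases h : P x = P y
    · rw [if_pos h, if_pos h]
    · rw [if_neg h, if_neg h]
      ring
  rw [h2]
  exact h1

open Classical in
theorem fourPt_glue {V C : Type} {δ : V → V → ℝ} (h : FourPt δ) (r : V) (K : ℝ) (hK : 0 ≤ K) :
    FourPt (fun x y : C × V => if x.1 = y.1 then δ x.2 y.2 else δ x.2 r + δ y.2 r + K) := by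
  obtain ⟨d, hd⟩ : ∃ d : C × V → C × V → ℝ, d = fun x y : C × V =>
      if x.1 = y.1 then δ x.2 y.2 else δ x.2 r + δ y.2 r + K := ⟨_, rfl⟩
  have heq : ∀ x y : C × V, x.1 = y.1 → d x y = δ x.2 y.2 :=
    fun x y hxy => by rw [hd]; exact if_pos hxy
  have hne : ∀ x y : C × V, x.1 ≠ y.1 → d x y = δ x.2 r + δ y.2 r + K :=
    fun x y hxy => by rw [hd]; exact if_neg hxy
  have htri : ∀ x y : V, δ x y ≤ δ x r + δ y r := by
    intro x y
    have := h.triangle x y r
    rwa [h.symm r y] at this
  rw [← hd]
  refine ⟨fun x => ?_, fun x y => ?_, fun x y z u => ?_⟩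
  · rw [heq x x rfl, h.self]
  · by_cases hxy : x.1 = y.1
    · rw [heq x y hxy, heq y x hxy.symm, h.symm]
    · rw [hne x y hxy, hne y x (Ne.symm hxy)]
      ring
  have nx := h.nonneg x.2 r
  have ny := h.nonneg y.2 r
  have nz := h.nonneg z.2 r
  have nu := h.nonneg u.2 r
  by_cases hxy : x.1 = y.1
  · by_cases hzu : z.1 = u.1
    · by_cases hxz : x.1 = z.1
      · rw [heq x y hxy, heq z u hzu, heq x z hxz, heq y u (hxy.symm.trans (hxz.trans hzu)),
          heq x u (hxz.trans hzu), heq y z (hxy.symm.trans hxz)]
        exact h.four _ _ _ _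
      · have hyu : y.1 ≠ u.1 := fun e => hxz (hxy.trans (e.trans hzu.symm))
        refine le_max_of_le_left ?_
        rw [heq x y hxy, heq z u hzu, hne x z hxz, hne y u hyu]
        have := htri x.2 y.2
        have := htri z.2 u.2
        linarith
    · by_cases hxz : x.1 = z.1
      · have hyz : y.1 = z.1 := hxy.symm.trans hxz
        have hxu : x.1 ≠ u.1 := fun e => hzu (hxz.symm.trans e)
        have hyu : y.1 ≠ u.1 := fun e => hzu (hyz.symm.trans e)
        rw [heq x y hxy, hne z u hzu, heq x z hxz, hne y u hyu, hne x u hxu, heq y z hyz,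
          le_max_iff]
        rcases le_max_iff.1 (h.four x.2 y.2 z.2 r) with h1 | h1
        · left
          linarith
        · right
          linarith
      · have hyz : y.1 ≠ z.1 := fun e => hxz (hxy.trans e)
        by_cases hxu : x.1 = u.1
        · have hyu : y.1 = u.1 := hxy.symm.trans hxu
          rw [heq x y hxy, hne z u hzu, hne x z hxz, heq y u hyu, heq x u hxu, hne y z hyz,
            le_max_iff]
          rcases le_max_iff.1 (h.four x.2 y.2 u.2 r) with h1 | h1
          · right
            linarith
          · left
            linarith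
        · have hyu : y.1 ≠ u.1 := fun e => hxu (hxy.trans e)
          refine le_max_of_le_left ?_
          rw [heq x y hxy, hne z u hzu, hne x z hxz, hne y u hyu]
          have := htri x.2 y.2
          linarith
  · by_cases hzu : z.1 = u.1
    · by_cases hxz : x.1 = z.1
      · have hxu : x.1 = u.1 := hxz.trans hzu
        have hyz : y.1 ≠ z.1 := fun e => hxy (hxz.trans e.symm)
        have hyu : y.1 ≠ u.1 := fun e => hxy (hxu.trans e.symm)
        rw [hne x y hxy, heq z u hzu, heq x z hxz, hne y u hyu, heq x u hxu, hne y z hyz,
          le_max_iff]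
        rcases le_max_iff.1 (h.four z.2 u.2 x.2 r) with h1 | h1
        · left
          rw [h.symm z.2 x.2] at h1
          linarith
        · right
          rw [h.symm u.2 x.2] at h1
          linarith
      · have hxu : x.1 ≠ u.1 := fun e => hxz (e.trans hzu.symm)
        by_cases hyz : y.1 = z.1
        · have hyu : y.1 = u.1 := hyz.trans hzu
          rw [hne x y hxy, heq z u hzu, hne x z hxz, heq y u hyu, hne x u hxu, heq y z hyz,
            le_max_iff]
          rcases le_max_iff.1 (h.four z.2 u.2 y.2 r) with h1 | h1
          · right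
            rw [h.symm z.2 y.2] at h1
            linarith
          · left
            rw [h.symm u.2 y.2] at h1
            linarith
        · have hyu : y.1 ≠ u.1 := fun e => hyz (e.trans hzu.symm)
          refine le_max_of_le_left ?_
          rw [hne x y hxy, heq z u hzu, hne x z hxz, hne y u hyu]
          have := htri z.2 u.2
          linarith
    · by_cases h1 : x.1 ≠ z.1 ∧ y.1 ≠ u.1
      · refine le_max_of_le_left (le_of_eq ?_)
        rw [hne x y hxy, hne z u hzu, hne x z h1.1, hne y u h1.2]
        ring
      · have h2 : x.1 ≠ u.1 ∧ y.1 ≠ z.1 := by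
          constructor
          · intro e
            apply h1
            constructor
            · intro e'
              exact hzu (e'.symm.trans e)
            · intro e'
              exact hxy (e.trans e'.symm)
          · intro e
            apply h1
            constructor
            · intro e'
              exact hxy (e'.trans e.symm)
            · intro e'
              exact hzu (e.symm.trans e')
        refine le_max_of_le_right (le_of_eq ?_)
        rw [hne x y hxy, hne z u hzu, hne x u h2.1, hne y z h2.2]
        ring

end Pool.Agent.LibPcn
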