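import Pool.Agent.LibPcn.CDefs
import Pool.Agent.LibPcn.C10
import Pool.Agent.LibPcn.C11

set_option autoImplicit false
set_option linter.unusedSimpArgs false

/-!
Row PCN12. From positions to a distance between the base elements.
Sketch. Let `P : Ba → ℝ` be: `P eA = -3`, `P eB = 2`; for kinds 2 to 5 `P x = f x`; for kind 6
(`eP r`): if `f T.1 < f T.2.1` then `-3` else `f T.2.1`, `T = tr TL r`; for kind 7 (`eQ r`): if
`f T.1 < f T.2.1` then `2` else `f T.2.1`. So `-3 ≤ P ≤ 2`. Let `δ x y = if x = y then 0 else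
(1 / 128) * (if P x = P y then 0 else |P x - P y| + 2) + 3 / 2 + 3 / 2` (`fourPt_jump`, scaled: use
`P / 128` and `J = 2 / 128`; `fourPt_pendant`). `|P x - P y| + 2 ≤ 7 < 8`, so `δ ≤ 3 + 1 / 16`. For
the splits: the constants `3` cancel (all four elements are different, `quarts_ok`), and one has to
compare sums of `J x y = if P x = P y then 0 else |P x - P y| + 2` (then the common factor). For
`r < TL.length`, `T = tr TL r`, by `hf` either `f T.1 < f T.2.1 < f T.2.2` or
`f T.2.2 < f T.2.1 < f T.1`. In the first case the positions of `(A, p | B, a)`, `(A, c | B, q)`,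
`(A, a | b, q)`, `(B, c | b, p)` are `(-3, -3 | 2, a)`, `(-3, c | 2, 2)`, `(-3, a | b, 2)`,
`(2, c | b, -3)` with `-3 < -2 ≤ a < b < c ≤ 1 < 2`. In the second case `(-3, b | 2, a)`,
`(-3, c | 2, b)`, `(-3, a | b, b)`, `(2, c | b, b)` with `c < b < a`. In all cases the intervals on
the left and right are disjoint or (the last two) one of them is a point inside the other:
`if_pos`, `if_neg`, `abs_of_pos`, `abs_of_neg`, `linarith`.
-/

namespace Pool.Agent.LibPcn

open SimpleGraph Pool.Agent.LibPcg Pool.Agent.LibOpc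

/-- the jump function on the line -/
private noncomputable def c12_J (s t : ℝ) : ℝ := if s = t then 0 else |s - t| + 2

private lemma c12_J_self (s : ℝ) : c12_J s s = 0 := by
  unfold c12_J
  rw [if_pos rfl]

private lemma c12_J_lt {s t : ℝ} (h : s < t) : c12_J s t = t - s + 2 := by
  unfold c12_J
  rw [if_neg h.ne, abs_of_neg (by linarith)]
  ring

private lemma c12_J_gt {s t : ℝ} (h : t < s) : c12_J s t = s - t + 2 := by
  unfold c12_J
  rw [if_neg h.ne', abs_of_pos (by linarith)]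

private lemma c12_J_nonneg (s t : ℝ) : 0 ≤ c12_J s t := by
  unfold c12_J
  split_ifs
  · exact le_refl _
  · have := abs_nonneg (s - t)
    linarith

private lemma c12_J_le {s t : ℝ} (h1 : -3 ≤ s) (h2 : s ≤ 2) (h3 : -3 ≤ t) (h4 : t ≤ 2) :
    c12_J s t ≤ 7 := by
  unfold c12_J
  split_ifs
  · norm_num
  · have : |s - t| ≤ 5 := by
      rw [abs_le]
      constructor <;> linarith
    linarith

/-- the positions -/
private noncomputable def c12_P (TL : List Tr) (f : Ba → ℝ) (x : Ba) : ℝ :=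
  open scoped Classical in
  if x.1 = 0 then -3 else if x.1 = 1 then 2 else
  if x.1 = 6 then (if f (tr TL x.2.1).1 < f (tr TL x.2.1).2.1 then -3 else f (tr TL x.2.1).2.1) else
  if x.1 = 7 then (if f (tr TL x.2.1).1 < f (tr TL x.2.1).2.1 then 2 else f (tr TL x.2.1).2.1) else
  f x

private lemma c12_P_bd (TL : List Tr) (f : Ba → ℝ) (hf1 : ∀ x, -2 ≤ f x ∧ f x ≤ 1) (x : Ba) :
    -3 ≤ c12_P TL f x ∧ c12_P TL f x ≤ 2 := by
  unfold c12_P
  split_ifs
  · norm_num
  · norm_num
  · norm_num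
  · have := hf1 (tr TL x.2.1).2.1
    constructor <;> linarith
  · norm_num
  · have := hf1 (tr TL x.2.1).2.1
    constructor <;> linarith
  · have := hf1 x
    constructor <;> linarith

private lemma c12_P_A (TL : List Tr) (f : Ba → ℝ) : c12_P TL f eA = -3 := by
  unfold c12_P eA
  simp

private lemma c12_P_B (TL : List Tr) (f : Ba → ℝ) : c12_P TL f eB = 2 := by
  unfold c12_P eB
  simp

private lemma c12_P_x (TL : List Tr) (f : Ba → ℝ) {x : Ba} (h1 : 2 ≤ x.1) (h2 : x.1 ≤ 5) :
    c12_P TL f x = f x := by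
  unfold c12_P
  rw [if_neg (by omega), if_neg (by omega), if_neg (by omega), if_neg (by omega)]

private lemma c12_P_P1 (TL : List Tr) (f : Ba → ℝ) (r : ℕ)
    (h : f (tr TL r).1 < f (tr TL r).2.1) : c12_P TL f (eP r) = -3 := by
  unfold c12_P eP
  simp [h]

private lemma c12_P_P2 (TL : List Tr) (f : Ba → ℝ) (r : ℕ)
    (h : ¬ f (tr TL r).1 < f (tr TL r).2.1) : c12_P TL f (eP r) = f (tr TL r).2.1 := by
  unfold c12_P eP
  simp [h]

private lemma c12_P_Q1 (TL : List Tr) (f : Ba → ℝ) (r : ℕ)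
    (h : f (tr TL r).1 < f (tr TL r).2.1) : c12_P TL f (eQ r) = 2 := by
  unfold c12_P eQ
  simp [h]

private lemma c12_P_Q2 (TL : List Tr) (f : Ba → ℝ) (r : ℕ)
    (h : ¬ f (tr TL r).1 < f (tr TL r).2.1) : c12_P TL f (eQ r) = f (tr TL r).2.1 := by
  unfold c12_P eQ
  simp [h]

theorem delta_of_betw (TL : List Tr) (hT : ∀ T ∈ TL, TOk T) (f : Ba → ℝ)
    (hf1 : ∀ x, -2 ≤ f x ∧ f x ≤ 1) (hf : ∀ T ∈ TL, Betw (f T.1) (f T.2.1) (f T.2.2)) :
    ∃ δ : Ba → Ba → ℝ, FourPt δ ∧ (∀ x y, x ≠ y → 3 ≤ δ x y ∧ δ x y ≤ 3 + 1 / 16) ∧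
      ∀ q ∈ quarts TL, Split δ q.1 q.2.1 q.2.2.1 q.2.2.2 := by
  set P : Ba → ℝ := c12_P TL f with hP
  have hex : ∃ δ : Ba → Ba → ℝ, FourPt δ ∧
      ∀ x y, x ≠ y → δ x y = c12_J (P x) (P y) / 128 + 3 := by
    refine ⟨_, fourPt_pendant (fourPt_jump (fun x => P x / 128) (2 / 128) (by norm_num))
      (fun _ => 3 / 2) (fun _ => by norm_num), ?_⟩
    intro x y hxy
    simp only [if_neg hxy]
    unfold c12_J
    by_cases h : P x = P y
    · rw [if_pos (by rw [h]), if_pos h]
      norm_num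
    · have h' : ¬ P x / 128 = P y / 128 := by
        intro hc
        apply h
        linarith
      rw [if_neg h', if_neg h, ← sub_div, abs_div, abs_of_pos (by norm_num : (0 : ℝ) < 128)]
      ring
  obtain ⟨δ, h4, hδ⟩ := hex
  refine ⟨δ, h4, ?_, ?_⟩
  · intro x y hxy
    rw [hδ x y hxy]
    have hx := c12_P_bd TL f hf1 x
    have hy := c12_P_bd TL f hf1 y
    have h0 := c12_J_nonneg (P x) (P y)
    have h7 := c12_J_le hx.1 hx.2 hy.1 hy.2
    rw [← hP] at h7
    constructor <;> linarith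
  · -- reduction of a split to the jump function
    have hred : ∀ a b c e : Ba, a ≠ b → a ≠ c → a ≠ e → b ≠ c → b ≠ e → c ≠ e →
        c12_J (P a) (P b) + c12_J (P c) (P e) < c12_J (P a) (P c) + c12_J (P b) (P e) →
        c12_J (P a) (P b) + c12_J (P c) (P e) < c12_J (P a) (P e) + c12_J (P b) (P c) →
        Split δ a b c e := by
      intro a b c e h1 h2 h3 h4 h5 h6 k1 k2
      unfold Split
      rw [hδ a b h1, hδ c e h6, hδ a c h2, hδ b e h5, hδ a e h3, hδ b c h4]
      constructor <;> linarith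
    intro q hq
    have hok := quarts_ok TL hT q hq
    obtain ⟨-, n1, n2, n3, n4, n5, n6⟩ := hok
    apply hred _ _ _ _ n1 n2 n3 n4 n5 n6
    all_goals
      obtain ⟨r, hr, hqr⟩ := (mem_quarts TL q).1 hq
      have hmem := tr_mem TL r hr
      obtain ⟨⟨a1, a2⟩, ⟨b1, b2⟩, ⟨c1, c2⟩, -, -⟩ := hT _ hmem
      have hb := hf _ hmem
      have ha' := hf1 (tr TL r).1
      have hb' := hf1 (tr TL r).2.1
      have hc' := hf1 (tr TL r).2.2
      have eqa := c12_P_x TL f a1 a2
      have eqb := c12_P_x TL f b1 b2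
      have eqc := c12_P_x TL f c1 c2
      have eqA := c12_P_A TL f
      have eqB := c12_P_B TL f
      rw [← hP] at eqa eqb eqc eqA eqB
      have hab : c12_J (-3) 2 = 7 := by rw [c12_J_lt (by norm_num)]; norm_num
      have hba : c12_J 2 (-3) = 7 := by rw [c12_J_gt (by norm_num)]; norm_num
      have l3 : ∀ {s : ℝ}, -2 ≤ s → c12_J (-3) s = s + 5 := by
        intro s hs
        rw [c12_J_lt (by linarith)]; ring
      have r3 : ∀ {s : ℝ}, -2 ≤ s → c12_J s (-3) = s + 5 := by
        intro s hs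
        rw [c12_J_gt (by linarith)]; ring
      have l2 : ∀ {s : ℝ}, s ≤ 1 → c12_J 2 s = 4 - s := by
        intro s hs
        rw [c12_J_gt (by linarith)]; ring
      have r2 : ∀ {s : ℝ}, s ≤ 1 → c12_J s 2 = 4 - s := by
        intro s hs
        rw [c12_J_lt (by linarith)]; ring
      by_cases hlt : f (tr TL r).1 < f (tr TL r).2.1
      · have hbc : f (tr TL r).2.1 < f (tr TL r).2.2 := by
          rcases hb with hb | hb
          · exact hb.2
          · linarith [hb.2]
        have eqP := c12_P_P1 TL f r hlt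
        have eqQ := c12_P_Q1 TL f r hlt
        rw [← hP] at eqP eqQ
        simp only [quart1, List.mem_cons, List.not_mem_nil, or_false] at hqr
        rcases hqr with rfl | rfl | rfl | rfl
        all_goals
          simp only [eqa, eqb, eqc, eqA, eqB, eqP, eqQ, c12_J_self, hab, hba, l3 ha'.1, l3 hb'.1,
            l3 hc'.1, r3 ha'.1, r3 hb'.1, r3 hc'.1, l2 ha'.2, l2 hb'.2, l2 hc'.2, r2 ha'.2,
            r2 hb'.2, r2 hc'.2, c12_J_lt hlt, c12_J_gt hlt, c12_J_lt hbc, c12_J_gt hbc]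
          linarith [ha'.1, ha'.2, hb'.1, hb'.2, hc'.1, hc'.2]
      · have hbc : f (tr TL r).2.2 < f (tr TL r).2.1 ∧ f (tr TL r).2.1 < f (tr TL r).1 := by
          rcases hb with hb | hb
          · exact absurd hb.1 hlt
          · exact hb
        obtain ⟨hcb, hba'⟩ := hbc
        have eqP := c12_P_P2 TL f r hlt
        have eqQ := c12_P_Q2 TL f r hlt
        rw [← hP] at eqP eqQ
        simp only [quart1, List.mem_cons, List.not_mem_nil, or_false] at hqr
        rcases hqr with rfl | rfl | rfl | rfl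
        all_goals
          simp only [eqa, eqb, eqc, eqA, eqB, eqP, eqQ, c12_J_self, hab, hba, l3 ha'.1, l3 hb'.1,
            l3 hc'.1, r3 ha'.1, r3 hb'.1, r3 hc'.1, l2 ha'.2, l2 hb'.2, l2 hc'.2, r2 ha'.2,
            r2 hb'.2, r2 hc'.2, c12_J_lt hcb, c12_J_gt hcb, c12_J_lt hba', c12_J_gt hba']
          linarith [ha'.1, ha'.2, hb'.1, hb'.2, hc'.1, hc'.2]

end Pool.Agent.LibPcn
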