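import Pool.Agent.LibPcn.CDefs
import Pool.Agent.LibPcn.C1

set_option autoImplicit false

/-!
Row PCN2. Items; splits from near and far pairs.
Sketch. Memberships: `List.mem_append`, `List.mem_flatMap`, `List.mem_map`, `List.mem_range`. In the
other direction: an item of `itX B Q` is plain (`a ∈ B`, `i < numR`, gadget `0`) or one of the two
gadget items. `Rep.split`: `R.rep` turns `Phi = false` into `d < τ` and `Phi = true` into `τ ≤ d`;
`split_of_sum`; the other three from `Split.left`, `Split.right`.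
-/

namespace Pool.Agent.LibPcn

open SimpleGraph Pool.Agent.LibPcg Pool.Agent.LibOpc

theorem mem_itX (B : List Ba) (Q : List Qt) (s : It) : s ∈ itX B Q ↔
    (s.1 ∈ B ∧ s.2.1 < numR Q.length ∧ s.2.2 = 0) ∨
    ∃ r < Q.length, s = ((qt Q r).1, 9 * r + 9, 2 * r + 1) ∨
      s = ((qt Q r).2.2.1, 9 * r + 9, 2 * r + 2) := by
  unfold itX plain
  rw [List.mem_append, List.mem_flatMap, List.mem_flatMap]
  constructor
  · rintro (⟨a, ha, h⟩ | ⟨r, hr, h⟩)
    · rw [List.mem_map] at h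
      obtain ⟨i, hi, rfl⟩ := h
      left
      exact ⟨ha, List.mem_range.mp hi, rfl⟩
    · right
      refine ⟨r, List.mem_range.mp hr, ?_⟩
      simpa using h
  · rintro (⟨h1, h2, h3⟩ | ⟨r, hr, h⟩)
    · left
      refine ⟨s.1, h1, ?_⟩
      rw [List.mem_map]
      refine ⟨s.2.1, List.mem_range.mpr h2, ?_⟩
      rw [← h3]
    · right
      refine ⟨r, List.mem_range.mpr hr, ?_⟩
      simpa using h

theorem mem_itY (B : List Ba) (Q : List Qt) (t : It) : t ∈ itY B Q ↔
    (t.1 ∈ B ∧ t.2.1 < numR Q.length ∧ t.2.2 = 0) ∨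
    ∃ r < Q.length, t = ((qt Q r).2.1, 9 * r + 6, 2 * r + 1) ∨
      t = ((qt Q r).2.2.2, 9 * r + 6, 2 * r + 2) := by
  unfold itY plain
  rw [List.mem_append, List.mem_flatMap, List.mem_flatMap]
  constructor
  · rintro (⟨a, ha, h⟩ | ⟨r, hr, h⟩)
    · rw [List.mem_map] at h
      obtain ⟨i, hi, rfl⟩ := h
      left
      exact ⟨ha, List.mem_range.mp hi, rfl⟩
    · right
      refine ⟨r, List.mem_range.mp hr, ?_⟩
      simpa using h
  · rintro (⟨h1, h2, h3⟩ | ⟨r, hr, h⟩)
    · left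
      refine ⟨t.1, h1, ?_⟩
      rw [List.mem_map]
      refine ⟨t.2.1, List.mem_range.mpr h2, ?_⟩
      rw [← h3]
    · right
      refine ⟨r, List.mem_range.mpr hr, ?_⟩
      simpa using h

theorem qt_mem (Q : List Qt) (r : ℕ) (hr : r < Q.length) : qt Q r ∈ Q := by
  unfold qt
  rw [List.getD_eq_getElem _ _ hr]
  exact List.getElem_mem hr

theorem exists_qt (Q : List Qt) (q : Qt) (hq : q ∈ Q) : ∃ r < Q.length, qt Q r = q := by
  obtain ⟨r, hr, h⟩ := List.mem_iff_getElem.mp hq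
  refine ⟨r, hr, ?_⟩
  unfold qt
  rw [List.getD_eq_getElem _ _ hr]
  exact h

theorem Rep.split {B : List Ba} {Q : List Qt} {V : Type} (R : Rep B Q V) {s s' t t' : It}
    (hs : s ∈ itX B Q) (hs' : s' ∈ itX B Q) (ht : t ∈ itY B Q) (ht' : t' ∈ itY B Q)
    (n1 : Phi s t = false) (n2 : Phi s' t' = false) (f1 : Phi s t' = true)
    (f2 : Phi s' t = true) :
    Split R.d (R.X s) (R.Y t) (R.X s') (R.Y t') ∧ Split R.d (R.Y t) (R.X s) (R.X s') (R.Y t') ∧
    Split R.d (R.X s) (R.Y t) (R.Y t') (R.X s') ∧ Split R.d (R.Y t) (R.X s) (R.Y t') (R.X s') := by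
  have a1 : R.d (R.X s) (R.Y t) < R.τ := by
    by_contra hc
    have := (R.rep s hs t ht).mpr (not_lt.mp hc)
    rw [n1] at this
    exact absurd this (by decide)
  have a2 : R.d (R.X s') (R.Y t') < R.τ := by
    by_contra hc
    have := (R.rep s' hs' t' ht').mpr (not_lt.mp hc)
    rw [n2] at this
    exact absurd this (by decide)
  have a3 : R.τ ≤ R.d (R.X s) (R.Y t') := (R.rep s hs t' ht').mp f1
  have a4 : R.τ ≤ R.d (R.X s') (R.Y t) := (R.rep s' hs' t ht).mp f2
  have h1 : Split R.d (R.X s) (R.Y t) (R.X s') (R.Y t') :=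
    split_of_sum R.four (by linarith)
  exact ⟨h1, Split.left R.four h1, Split.right R.four h1,
    Split.right R.four (Split.left R.four h1)⟩

end Pool.Agent.LibPcn
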