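import Pool.Agent.LibPcn.CDefs
import Pool.Agent.LibPcn.C2

set_option autoImplicit false

/-!
Row PCN13. Heights of the items.
Sketch. For the quartet number `r`, `(a, b, c, e) = qt Q r`, `u x y = δ x y - 3` (in `[0, 1 / 16]` for
different `x y`), `g = (u a e + u b c) - (u a b + u c e) > 0` (from the split; note `δ` symmetric):
`ξX (2 r + 1) = 0`, `ξX (2 r + 2) = u a b + g / 2 - u c b`, `ξY (2 r + 1) = - u a b - g / 2`,
`ξY (2 r + 2) = - u a e`. All are in `[-1/8, 1/8]`. `hX s = - i + (if g = 0 then 0 else -1/4 + ξX g)`,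
`hY t = j + 1 / 2 + (if g = 0 then 0 else -1/4 + ξY g)`, for `s = (a, i, g)`, `t = (b, j, g)`. With
`D = δ s.1 t.1 + hX s + hY t`: both plain, or one plain: `D = j - i + 1/2 + δ + (between -3/8 and 0)`,
and `δ = 0` or `δ ∈ [3, 3 + 1/16]`: `0 ≤ D` iff `i ≤ j + dd` (integers). Both gadgets, of quartets
`r`, `r'`: `i = 9 r + 9`, `j = 9 r' + 6`, `D = 9 (r' - r) - 3 + δ + ξX + ξY`: if `r < r'`: `D ≥ 0` and
`Phi = true`; if `r' < r`: `D < 0` and `Phi = false`; if `r = r'`: `D = -3 + δ + ξX + ξY` for the four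
pairs: `(a, b)`: `- g / 2 < 0`; `(c, e)`: `u c e + u a b + g / 2 - u c b - u a e = - g / 2 < 0`;
`(a, e)`: `0`; `(c, b)`: `0`. `Phi`: the gadget numbers are equal exactly for `(a, b)`, `(c, e)`.
To define `ξX`, `ξY` as functions of the gadget number `g ≥ 1`: `r = (g - 1) / 2`,
`g % 2 = 1` or `0`. The bound: `|hX s| ≤ numR Q.length + 1`.
-/

namespace Pool.Agent.LibPcn

open SimpleGraph Pool.Agent.LibPcg Pool.Agent.LibOpc

private noncomputable def c13_g (δ : Ba → Ba → ℝ) (Q : List Qt) (r : ℕ) : ℝ :=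
  (δ (qt Q r).1 (qt Q r).2.2.2 + δ (qt Q r).2.1 (qt Q r).2.2.1) -
    (δ (qt Q r).1 (qt Q r).2.1 + δ (qt Q r).2.2.1 (qt Q r).2.2.2)

private noncomputable def c13_X (δ : Ba → Ba → ℝ) (Q : List Qt) (n : ℕ) : ℝ :=
  if n = 0 then 0 else if n % 2 = 1 then -(1 / 4) else
    -(1 / 4) + (δ (qt Q ((n - 1) / 2)).1 (qt Q ((n - 1) / 2)).2.1 -
      δ (qt Q ((n - 1) / 2)).2.2.1 (qt Q ((n - 1) / 2)).2.1 + c13_g δ Q ((n - 1) / 2) / 2)

private noncomputable def c13_Y (δ : Ba → Ba → ℝ) (Q : List Qt) (n : ℕ) : ℝ :=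
  if n = 0 then 0 else if n % 2 = 1 then
    -(1 / 4) + (3 - δ (qt Q ((n - 1) / 2)).1 (qt Q ((n - 1) / 2)).2.1 -
      c13_g δ Q ((n - 1) / 2) / 2)
  else -(1 / 4) + (3 - δ (qt Q ((n - 1) / 2)).1 (qt Q ((n - 1) / 2)).2.2.2)

private theorem c13_X0 (δ : Ba → Ba → ℝ) (Q : List Qt) : c13_X δ Q 0 = 0 := if_pos rfl

private theorem c13_Y0 (δ : Ba → Ba → ℝ) (Q : List Qt) : c13_Y δ Q 0 = 0 := if_pos rfl

private theorem c13_X1 (δ : Ba → Ba → ℝ) (Q : List Qt) (r : ℕ) :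
    c13_X δ Q (2 * r + 1) = -(1 / 4) := by
  unfold c13_X
  rw [if_neg (by omega), if_pos (by omega)]

private theorem c13_X2 (δ : Ba → Ba → ℝ) (Q : List Qt) (r : ℕ) :
    c13_X δ Q (2 * r + 2) = -(1 / 4) + (δ (qt Q r).1 (qt Q r).2.1 -
      δ (qt Q r).2.2.1 (qt Q r).2.1 + c13_g δ Q r / 2) := by
  unfold c13_X
  rw [if_neg (by omega), if_neg (by omega), show (2 * r + 2 - 1) / 2 = r by omega]

private theorem c13_Y1 (δ : Ba → Ba → ℝ) (Q : List Qt) (r : ℕ) :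
    c13_Y δ Q (2 * r + 1) = -(1 / 4) + (3 - δ (qt Q r).1 (qt Q r).2.1 - c13_g δ Q r / 2) := by
  unfold c13_Y
  rw [if_neg (by omega), if_pos (by omega), show (2 * r + 1 - 1) / 2 = r by omega]

private theorem c13_Y2 (δ : Ba → Ba → ℝ) (Q : List Qt) (r : ℕ) :
    c13_Y δ Q (2 * r + 2) = -(1 / 4) + (3 - δ (qt Q r).1 (qt Q r).2.2.2) := by
  unfold c13_Y
  rw [if_neg (by omega), if_neg (by omega), show (2 * r + 2 - 1) / 2 = r by omega]

private theorem c13_int (a b : Ba) (i j : ℕ) (D w : ℝ) (h0 : a = b → D = 0)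
    (h1 : a ≠ b → 3 ≤ D ∧ D ≤ 3 + 1 / 16) (hw : -(3 / 8) ≤ w) (hw' : w ≤ 0) :
    i ≤ j + dd a b ↔ 0 ≤ D + (-(i : ℝ)) + ((j : ℝ) + 1 / 2) + w := by
  unfold dd
  by_cases h : a = b
  · rw [if_pos h, add_zero, h0 h]
    constructor
    · intro h2
      have h3 : (i : ℝ) ≤ j := by exact_mod_cast h2
      linarith
    · intro h2
      by_contra h3
      have h4 : (j : ℝ) + 1 ≤ i := by
        have : j + 1 ≤ i := by omega
        exact_mod_cast this
      linarith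
  · obtain ⟨h5, h6⟩ := h1 h
    rw [if_neg h]
    constructor
    · intro h2
      have h3 : (i : ℝ) ≤ j + 3 := by exact_mod_cast h2
      linarith
    · intro h2
      by_contra h3
      have h4 : (j : ℝ) + 4 ≤ i := by
        have : j + 4 ≤ i := by omega
        exact_mod_cast this
      linarith

private theorem c13_phi (s t : It) : Phi s t = true ↔
    s.2.1 ≤ t.2.1 + dd s.1 t.1 ∧ ¬ (s.2.2 = t.2.2 ∧ s.2.2 ≠ 0) := by
  unfold Phi
  simp only [Bool.and_eq_true, Bool.not_eq_true', decide_eq_true_eq, Bool.and_eq_false_iff,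
    decide_eq_false_iff_not, Bool.not_eq_false']
  tauto

theorem exists_heights (B : List Ba) (Q : List Qt) (hQ : ∀ q ∈ Q, QOk B q) (δ : Ba → Ba → ℝ)
    (hδ : FourPt δ) (h3 : ∀ x y, x ≠ y → 3 ≤ δ x y ∧ δ x y ≤ 3 + 1 / 16)
    (hs : ∀ q ∈ Q, Split δ q.1 q.2.1 q.2.2.1 q.2.2.2) :
    ∃ hX hY : It → ℝ, (∀ s ∈ itX B Q, |hX s| ≤ numR Q.length + 1) ∧
      (∀ t ∈ itY B Q, |hY t| ≤ numR Q.length + 1) ∧
      ∀ s ∈ itX B Q, ∀ t ∈ itY B Q, (Phi s t = true ↔ 0 ≤ δ s.1 t.1 + hX s + hY t) := by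
  -- facts on the quartet number `r`
  have hq : ∀ r < Q.length,
      (3 ≤ δ (qt Q r).1 (qt Q r).2.1 ∧ δ (qt Q r).1 (qt Q r).2.1 ≤ 3 + 1 / 16) ∧
      (3 ≤ δ (qt Q r).1 (qt Q r).2.2.2 ∧ δ (qt Q r).1 (qt Q r).2.2.2 ≤ 3 + 1 / 16) ∧
      (3 ≤ δ (qt Q r).2.2.1 (qt Q r).2.1 ∧ δ (qt Q r).2.2.1 (qt Q r).2.1 ≤ 3 + 1 / 16) ∧
      (3 ≤ δ (qt Q r).2.2.1 (qt Q r).2.2.2 ∧ δ (qt Q r).2.2.1 (qt Q r).2.2.2 ≤ 3 + 1 / 16) ∧
      c13_g δ Q r = (δ (qt Q r).1 (qt Q r).2.2.2 + δ (qt Q r).2.2.1 (qt Q r).2.1) -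
        (δ (qt Q r).1 (qt Q r).2.1 + δ (qt Q r).2.2.1 (qt Q r).2.2.2) ∧
      0 < c13_g δ Q r ∧ dd (qt Q r).1 (qt Q r).2.1 = 3 ∧ dd (qt Q r).1 (qt Q r).2.2.2 = 3 ∧
      dd (qt Q r).2.2.1 (qt Q r).2.1 = 3 ∧ dd (qt Q r).2.2.1 (qt Q r).2.2.2 = 3 := by
    intro r hr
    obtain ⟨-, n1, n2, n3, n4, n5, n6⟩ := hQ _ (qt_mem Q r hr)
    obtain ⟨-, s2⟩ := hs _ (qt_mem Q r hr)
    refine ⟨h3 _ _ n1, h3 _ _ n3, h3 _ _ n4.symm, h3 _ _ n6, ?_, ?_, if_neg n1, if_neg n3,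
      if_neg n4.symm, if_neg n6⟩
    · unfold c13_g
      rw [hδ.symm (qt Q r).2.2.1 (qt Q r).2.1]
    · unfold c13_g
      linarith
  have h0 : ∀ x y, 0 ≤ δ x y := by
    intro x y
    by_cases h : x = y
    · rw [h, hδ.self]
    · have := (h3 x y h).1
      linarith
  have hup : ∀ x y, δ x y ≤ 3 + 1 / 16 := by
    intro x y
    by_cases h : x = y
    · rw [h, hδ.self]
      norm_num
    · exact (h3 x y h).2
  have bX : ∀ r < Q.length, -(3 / 8) ≤ c13_X δ Q (2 * r + 1) ∧ c13_X δ Q (2 * r + 1) ≤ -(1 / 8) ∧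
      -(3 / 8) ≤ c13_X δ Q (2 * r + 2) ∧ c13_X δ Q (2 * r + 2) ≤ -(1 / 8) := by
    intro r hr
    obtain ⟨f1, f2, f3, f4, f5, f6, -⟩ := hq r hr
    rw [c13_X1, c13_X2]
    refine ⟨by norm_num, by norm_num, ?_, ?_⟩ <;> linarith [f1.1, f1.2, f2.1, f2.2, f3.1, f3.2,
      f4.1, f4.2]
  have bY : ∀ r < Q.length, -(3 / 8) ≤ c13_Y δ Q (2 * r + 1) ∧ c13_Y δ Q (2 * r + 1) ≤ -(1 / 8) ∧
      -(3 / 8) ≤ c13_Y δ Q (2 * r + 2) ∧ c13_Y δ Q (2 * r + 2) ≤ -(1 / 8) := by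
    intro r hr
    obtain ⟨f1, f2, f3, f4, f5, f6, -⟩ := hq r hr
    rw [c13_Y1, c13_Y2]
    refine ⟨?_, ?_, ?_, ?_⟩ <;> linarith [f1.1, f1.2, f2.1, f2.2, f3.1, f3.2,
      f4.1, f4.2]
  have hN : (numR Q.length : ℝ) = 9 * ((Q.length : ℝ) + 2) := by
    unfold numR
    push_cast
    ring
  refine ⟨fun s => -(s.2.1 : ℝ) + c13_X δ Q s.2.2, fun t => (t.2.1 : ℝ) + 1 / 2 + c13_Y δ Q t.2.2,
    ?_, ?_, ?_⟩
  · intro s hs'
    beta_reduce
    rcases (mem_itX B Q s).1 hs' with ⟨-, h1, h2⟩ | ⟨r, hr, h | h⟩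
    · rw [h2, c13_X0, add_zero, abs_neg, abs_of_nonneg (Nat.cast_nonneg _)]
      have : (s.2.1 : ℝ) ≤ numR Q.length := by exact_mod_cast h1.le
      linarith
    · have hr' : (r : ℝ) + 1 ≤ Q.length := by exact_mod_cast hr
      have hr0 : (0 : ℝ) ≤ r := Nat.cast_nonneg _
      obtain ⟨b1, b2, -⟩ := bX r hr
      subst h
      dsimp only
      rw [abs_le, hN]
      push_cast
      constructor <;> linarith
    · have hr' : (r : ℝ) + 1 ≤ Q.length := by exact_mod_cast hr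
      have hr0 : (0 : ℝ) ≤ r := Nat.cast_nonneg _
      obtain ⟨-, -, b1, b2⟩ := bX r hr
      subst h
      dsimp only
      rw [abs_le, hN]
      push_cast
      constructor <;> linarith
  · intro t ht'
    beta_reduce
    rcases (mem_itY B Q t).1 ht' with ⟨-, h1, h2⟩ | ⟨r, hr, h | h⟩
    · rw [h2, c13_Y0, add_zero]
      have h4 : (t.2.1 : ℝ) ≤ numR Q.length := by exact_mod_cast h1.le
      have h5 : (0 : ℝ) ≤ t.2.1 := Nat.cast_nonneg _
      rw [abs_le]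
      constructor <;> linarith
    · have hr' : (r : ℝ) + 1 ≤ Q.length := by exact_mod_cast hr
      have hr0 : (0 : ℝ) ≤ r := Nat.cast_nonneg _
      obtain ⟨b1, b2, -⟩ := bY r hr
      subst h
      dsimp only
      rw [abs_le, hN]
      push_cast
      constructor <;> linarith
    · have hr' : (r : ℝ) + 1 ≤ Q.length := by exact_mod_cast hr
      have hr0 : (0 : ℝ) ≤ r := Nat.cast_nonneg _
      obtain ⟨-, -, b1, b2⟩ := bY r hr
      subst h
      dsimp only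
      rw [abs_le, hN]
      push_cast
      constructor <;> linarith
  · intro s hs' t ht'
    beta_reduce
    rw [c13_phi]
    -- one of the items is plain
    have key : ∀ (w : ℝ), c13_X δ Q s.2.2 + c13_Y δ Q t.2.2 = w → -(3 / 8) ≤ w → w ≤ 0 →
        ¬ (s.2.2 = t.2.2 ∧ s.2.2 ≠ 0) →
        (s.2.1 ≤ t.2.1 + dd s.1 t.1 ∧ ¬ (s.2.2 = t.2.2 ∧ s.2.2 ≠ 0) ↔
          0 ≤ δ s.1 t.1 + (-(s.2.1 : ℝ) + c13_X δ Q s.2.2) +
            ((t.2.1 : ℝ) + 1 / 2 + c13_Y δ Q t.2.2)) := by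
      intro w hw hw1 hw2 hne
      have h := c13_int s.1 t.1 s.2.1 t.2.1 (δ s.1 t.1) w (fun h => by rw [h, hδ.self])
        (fun h => h3 _ _ h) hw1 hw2
      rw [← hw] at h
      rw [show δ s.1 t.1 + (-(s.2.1 : ℝ) + c13_X δ Q s.2.2) +
            ((t.2.1 : ℝ) + 1 / 2 + c13_Y δ Q t.2.2) =
          δ s.1 t.1 + (-(s.2.1 : ℝ)) + ((t.2.1 : ℝ) + 1 / 2) +
            (c13_X δ Q s.2.2 + c13_Y δ Q t.2.2) by ring, ← h]
      exact ⟨fun h => h.1, fun h => ⟨h, hne⟩⟩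
    -- both items belong to gadgets of different quartets
    have key2 : ∀ (r r' : ℕ) (x y : Ba) (n n' : ℕ), r ≠ r' → s = (x, 9 * r + 9, n) →
        t = (y, 9 * r' + 6, n') → n ≠ n' →
        -(3 / 8) ≤ c13_X δ Q n → c13_X δ Q n ≤ -(1 / 8) → -(3 / 8) ≤ c13_Y δ Q n' →
        c13_Y δ Q n' ≤ -(1 / 8) →
        (s.2.1 ≤ t.2.1 + dd s.1 t.1 ∧ ¬ (s.2.2 = t.2.2 ∧ s.2.2 ≠ 0) ↔
          0 ≤ δ s.1 t.1 + (-(s.2.1 : ℝ) + c13_X δ Q s.2.2) +
            ((t.2.1 : ℝ) + 1 / 2 + c13_Y δ Q t.2.2)) := by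
      intro r r' x y n n' hrr hse hte hnn b1 b2 b3 b4
      subst hse
      subst hte
      dsimp only
      have hd0 := h0 x y
      have hd1 := hup x y
      have hdd : dd x y ≤ 3 := by
        unfold dd
        split_ifs <;> omega
      rcases lt_or_gt_of_ne hrr with hlt | hlt
      · have h5 : (r : ℝ) + 1 ≤ r' := by exact_mod_cast hlt
        refine ⟨fun _ => ?_, fun _ => ⟨by omega, fun h => hnn h.1⟩⟩
        push_cast
        linarith
      · have h5 : (r' : ℝ) + 1 ≤ r := by exact_mod_cast hlt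
        refine ⟨fun h => ?_, fun h => ?_⟩
        · exfalso
          have := h.1
          omega
        · exfalso
          push_cast at h
          linarith
    rcases (mem_itX B Q s).1 hs' with ⟨-, -, h2⟩ | ⟨r, hr, hse⟩
    · rcases (mem_itY B Q t).1 ht' with ⟨-, -, h2'⟩ | ⟨r', hr', hte⟩
      · refine key 0 ?_ (by norm_num) le_rfl (fun h => h.2 h2)
        rw [h2, h2', c13_X0, c13_Y0, add_zero]
      · obtain ⟨b1, b2, b3, b4⟩ := bY r' hr'
        rcases hte with hte | hte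
        · refine key (c13_Y δ Q (2 * r' + 1)) ?_ b1 (by linarith) (fun h => h.2 h2)
          rw [h2, c13_X0, zero_add, hte]
        · refine key (c13_Y δ Q (2 * r' + 2)) ?_ b3 (by linarith) (fun h => h.2 h2)
          rw [h2, c13_X0, zero_add, hte]
    · obtain ⟨a1, a2, a3, a4⟩ := bX r hr
      rcases (mem_itY B Q t).1 ht' with ⟨-, -, h2'⟩ | ⟨r', hr', hte⟩
      · rcases hse with hse | hse
        · refine key (c13_X δ Q (2 * r + 1)) ?_ a1 (by linarith) (fun h => h.2 (h.1.trans h2'))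
          rw [h2', c13_Y0, add_zero, hse]
        · refine key (c13_X δ Q (2 * r + 2)) ?_ a3 (by linarith) (fun h => h.2 (h.1.trans h2'))
          rw [h2', c13_Y0, add_zero, hse]
      · obtain ⟨b1, b2, b3, b4⟩ := bY r' hr'
        by_cases hrr : r = r'
        · subst hrr
          obtain ⟨f1, f2, f3, f4, f5, f6, d1, d2, d3, d4⟩ := hq r hr
          rcases hse with hse | hse <;> rcases hte with hte | hte
          · subst hse
            subst hte
            dsimp only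
            rw [c13_X1, c13_Y1]
            refine ⟨fun h => absurd ⟨rfl, by omega⟩ h.2, fun h => ?_⟩
            exfalso
            push_cast at h
            linarith
          · subst hse
            subst hte
            dsimp only
            rw [c13_X1, c13_Y2, d2]
            refine ⟨fun h => ?_, fun h => ⟨by omega, fun h => ?_⟩⟩
            · push_cast
              linarith
            · have := h.1
              omega
          · subst hse
            subst hte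
            dsimp only
            rw [c13_X2, c13_Y1, d3]
            refine ⟨fun h => ?_, fun h => ⟨by omega, fun h => ?_⟩⟩
            · push_cast
              linarith
            · have := h.1
              omega
          · subst hse
            subst hte
            dsimp only
            rw [c13_X2, c13_Y2]
            refine ⟨fun h => absurd ⟨rfl, by omega⟩ h.2, fun h => ?_⟩
            exfalso
            push_cast at h
            linarith
        · rcases hse with hse | hse <;> rcases hte with hte | hte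
          · exact key2 r r' _ _ _ _ hrr hse hte (by omega) a1 a2 b1 b2
          · exact key2 r r' _ _ _ _ hrr hse hte (by omega) a1 a2 b3 b4
          · exact key2 r r' _ _ _ _ hrr hse hte (by omega) a3 a4 b1 b2
          · exact key2 r r' _ _ _ _ hrr hse hte (by omega) a3 a4 b3 b4

end Pool.Agent.LibPcn
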