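import Pool.Agent.LibPcn.CDefs
import Pool.Agent.LibPcn.C11

set_option autoImplicit false

/-!
Row PCN14. From the heights to the PCG.
Sketch. Let `n = (outV B Q).length`, `N = numR Q.length + 1` (real number; `N ≥ 1`), `x v = (outV B Q)[v]`.
For `v : Fin n` let `H v = if (x v).1 then 2 * L + hX (x v).2.2 else L + hY (x v).2.2` with
`L = 100 * N`; `H v ≥ 0` since the item of `x v` is in `itX` (first side) or `itY`. Let
`d u v = if u = v then 0 else d0 u v + H u + H v`, where
`d0 u v = if copy u = copy v then δ a_u a_v else δ a_u eA + δ a_v eA + K`, `K = 2 * N`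
(`fourPt_glue` with `C = ℕ`, `r = eA`, `fourPt_pull`, `fourPt_pendant`). `0 ≤ δ ≤ 4` everywhere, so
`0 ≤ d0 ≤ 8 + K`. Thresholds `a = 3 L`, `b = 3 L + 20 N`. First side - second side, same copy:
`d = 3 L + (δ + hX + hY)`, at most `3 L + 4 + 2 N < b`, and at least `a` iff `Phi`. Different copies:
`d = 3 L + (δ + δ + K + hX + hY)` between `a` and `b`. Both on the first side:
`d ≥ 4 L - 2 N ≥ b`. Both on the second side: `d ≤ 2 L + 2 N + 8 + K < a`.
-/

namespace Pool.Agent.LibPcn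

open SimpleGraph Pool.Agent.LibPcg Pool.Agent.LibOpc

private theorem c14_mem (B : List Ba) (Q : List Qt) (x : Vc) (hx : x ∈ outV B Q) :
    (x.1 = true → x.2.2 ∈ itX B Q) ∧ (x.1 = false → x.2.2 ∈ itY B Q) := by
  unfold outV at hx
  rw [List.mem_flatMap] at hx
  obtain ⟨c, -, hx⟩ := hx
  rw [List.mem_append, List.mem_map, List.mem_map] at hx
  rcases hx with ⟨s, hs, rfl⟩ | ⟨t, ht, rfl⟩
  · exact ⟨fun _ => hs, fun h => absurd h (by simp)⟩
  · exact ⟨fun h => absurd h (by simp), fun _ => ht⟩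

theorem mid_of_heights (B : List Ba) (Q : List Qt) (δ : Ba → Ba → ℝ)
    (hδ : FourPt δ) (h3 : ∀ x y, x ≠ y → 3 ≤ δ x y ∧ δ x y ≤ 3 + 1 / 16)
    (hX hY : It → ℝ) (h1 : ∀ s ∈ itX B Q, |hX s| ≤ numR Q.length + 1)
    (h2 : ∀ t ∈ itY B Q, |hY t| ≤ numR Q.length + 1)
    (h : ∀ s ∈ itX B Q, ∀ t ∈ itY B Q, (Phi s t = true ↔ 0 ≤ δ s.1 t.1 + hX s + hY t)) :
    ∃ (d : Fin (outV B Q).length → Fin (outV B Q).length → ℝ) (a b : ℝ), FourPt d ∧
      0 ≤ a ∧ 0 ≤ b ∧ ∀ u v, (outG B Q).Adj u v ↔ u ≠ v ∧ a ≤ d u v ∧ d u v < b := by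
  classical
  obtain ⟨N, hN⟩ : ∃ N : ℝ, N = (numR Q.length : ℝ) + 1 := ⟨_, rfl⟩
  rw [← hN] at h1 h2
  have hN1 : 1 ≤ N := by
    rw [hN]
    have : (0 : ℝ) ≤ (numR Q.length : ℝ) := Nat.cast_nonneg _
    linarith
  have hδ0 : ∀ x y, 0 ≤ δ x y := fun x y => hδ.nonneg x y
  have hδ4 : ∀ x y, δ x y ≤ 4 := fun x y => by
    by_cases hxy : x = y
    · rw [hxy, hδ.self]
      norm_num
    · have := (h3 x y hxy).2
      linarith
  obtain ⟨x, hx⟩ : ∃ x : Fin (outV B Q).length → Vc, ∀ v, x v = (outV B Q)[v] :=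
    ⟨fun v => (outV B Q)[v], fun _ => rfl⟩
  have hmem : ∀ v, x v ∈ outV B Q := fun v => by
    rw [hx v]
    exact List.getElem_mem _
  have hxX : ∀ v, (x v).1 = true → |hX (x v).2.2| ≤ N := fun v hv =>
    h1 _ ((c14_mem B Q _ (hmem v)).1 hv)
  have hxY : ∀ v, (x v).1 = false → |hY (x v).2.2| ≤ N := fun v hv =>
    h2 _ ((c14_mem B Q _ (hmem v)).2 hv)
  obtain ⟨H, hHt, hHf⟩ : ∃ H : Fin (outV B Q).length → ℝ,
      (∀ v, (x v).1 = true → H v = 200 * N + hX (x v).2.2) ∧
      (∀ v, (x v).1 = false → H v = 100 * N + hY (x v).2.2) :=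
    ⟨fun v => if (x v).1 = true then 200 * N + hX (x v).2.2 else 100 * N + hY (x v).2.2,
      fun v hv => if_pos hv, fun v hv => if_neg (by rw [hv]; simp)⟩
  have hH : ∀ v, 0 ≤ H v := fun v => by
    rcases Bool.eq_false_or_eq_true (x v).1 with hv | hv
    · rw [hHt v hv]
      have := (abs_le.mp (hxX v hv)).1
      linarith
    · rw [hHf v hv]
      have := (abs_le.mp (hxY v hv)).1
      linarith
  have h0 := fourPt_pull (fourPt_glue (C := ℕ) hδ eA (2 * N) (by linarith))
    (fun v => ((x v).2.1, (x v).2.2.1))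
  have hd := fourPt_pendant h0 H hH
  obtain ⟨d, hsame, hdiff, hd'⟩ : ∃ d : Fin (outV B Q).length → Fin (outV B Q).length → ℝ,
      (∀ u v, u ≠ v → (x u).2.1 = (x v).2.1 →
        d u v = δ (x u).2.2.1 (x v).2.2.1 + H u + H v) ∧
      (∀ u v, u ≠ v → (x u).2.1 ≠ (x v).2.1 →
        d u v = δ (x u).2.2.1 eA + δ (x v).2.2.1 eA + 2 * N + H u + H v) ∧ FourPt d := by
    refine ⟨_, ?_, ?_, hd⟩
    · intro u v huv hc
      dsimp only
      rw [if_neg huv, if_pos hc]
    · intro u v huv hc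
      dsimp only
      rw [if_neg huv, if_neg hc]
  have hlow : ∀ u v, u ≠ v → H u + H v ≤ d u v := by
    intro u v huv
    by_cases hc : (x u).2.1 = (x v).2.1
    · rw [hsame u v huv hc]
      have := hδ0 (x u).2.2.1 (x v).2.2.1
      linarith
    · rw [hdiff u v huv hc]
      have h4 := hδ0 (x u).2.2.1 eA
      have h5 := hδ0 (x v).2.2.1 eA
      linarith
  have hup : ∀ u v, u ≠ v → d u v ≤ 8 + 2 * N + H u + H v := by
    intro u v huv
    by_cases hc : (x u).2.1 = (x v).2.1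
    · rw [hsame u v huv hc]
      have := hδ4 (x u).2.2.1 (x v).2.2.1
      linarith
    · rw [hdiff u v huv hc]
      have h4 := hδ4 (x u).2.2.1 eA
      have h5 := hδ4 (x v).2.2.1 eA
      linarith
  have hneq : ∀ u v, (x u).1 ≠ (x v).1 → u ≠ v := by
    intro u v huv he
    exact huv (by rw [he])
  have key : ∀ u v, (x u).1 = true → (x v).1 = false →
      (gadj (x u) (x v) = true ↔ 300 * N ≤ d u v ∧ d u v < 320 * N) := by
    intro u v hu hv
    have huv : u ≠ v := hneq u v (by rw [hu, hv]; simp)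
    have hg : gadj (x u) (x v) = crel (x u) (x v) := by
      unfold gadj
      rw [hu, hv]
      simp
    rw [hg]
    have hXa := abs_le.mp (hxX u hu)
    have hYa := abs_le.mp (hxY v hv)
    by_cases hc : (x u).2.1 = (x v).2.1
    · have hcr : crel (x u) (x v) = Phi (x u).2.2 (x v).2.2 := by
        unfold crel
        rw [hc]
        simp
      rw [hcr, h _ ((c14_mem B Q _ (hmem u)).1 hu) _ ((c14_mem B Q _ (hmem v)).2 hv),
        hsame u v huv hc, hHt u hu, hHf v hv]
      have h4 := hδ4 (x u).2.2.1 (x v).2.2.1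
      constructor
      · intro h5
        constructor <;> linarith
      · rintro ⟨h5, -⟩
        linarith
    · have hcr : crel (x u) (x v) = true := by
        unfold crel
        simp [hc]
      rw [hcr, hdiff u v huv hc, hHt u hu, hHf v hv]
      have h4 := hδ4 (x u).2.2.1 eA
      have h5 := hδ4 (x v).2.2.1 eA
      have h6 := hδ0 (x u).2.2.1 eA
      have h7 := hδ0 (x v).2.2.1 eA
      refine ⟨fun _ => ⟨by linarith, by linarith⟩, fun _ => rfl⟩
  refine ⟨d, 300 * N, 320 * N, hd', by linarith, by linarith, fun u v => ?_⟩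
  have hadj : (outG B Q).Adj u v ↔ gadj (x u) (x v) = true := by
    rw [hx u, hx v]
    rfl
  rw [hadj]
  rcases Bool.eq_false_or_eq_true (x u).1 with hu | hu <;>
    rcases Bool.eq_false_or_eq_true (x v).1 with hv | hv
  · have hg : gadj (x u) (x v) = false := by
      unfold gadj
      rw [hu, hv]
      simp
    rw [hg]
    constructor
    · intro h4
      exact absurd h4 (by simp)
    · rintro ⟨h4, -, h5⟩
      exfalso
      have h6 := hlow u v h4
      rw [hHt u hu, hHt v hv] at h6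
      have h7 := (abs_le.mp (hxX u hu)).1
      have h8 := (abs_le.mp (hxX v hv)).1
      linarith
  · rw [key u v hu hv]
    exact ⟨fun h4 => ⟨hneq u v (by rw [hu, hv]; simp), h4⟩, fun h4 => h4.2⟩
  · rw [gadj_comm, key v u hv hu, hd'.symm v u]
    exact ⟨fun h4 => ⟨hneq u v (by rw [hu, hv]; simp), h4⟩, fun h4 => h4.2⟩
  · have hg : gadj (x u) (x v) = false := by
      unfold gadj
      rw [hu, hv]
      simp
    rw [hg]
    constructor
    · intro h4
      exact absurd h4 (by simp)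
    · rintro ⟨h4, h5, -⟩
      exfalso
      have h6 := hup u v h4
      rw [hHf u hu, hHf v hv] at h6
      have h7 := (abs_le.mp (hxY u hu)).2
      have h8 := (abs_le.mp (hxY v hv)).2
      linarith

end Pool.Agent.LibPcn
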