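import Pool.Agent.LibPcn.CDefs
import Pool.Agent.LibOpc.OA2
import Pool.Agent.LibPcg.PB9
import Pool.Agent.LibPcg.PB10

set_option autoImplicit false

/-!
The classes for `k = 1`.
-/

namespace Pool.Agent.LibPcn

open SimpleGraph Pool.Agent.LibPcg Pool.Agent.LibOpc

theorem isOrPCG_one {V : Type} (G : SimpleGraph V) : IsOrPCG 1 G ↔ IsPCG G := by
  constructor
  · rintro ⟨D, I, hI, h⟩
    refine ⟨D 0, I 0, hI 0, fun u v => (h u v).trans (and_congr_right fun _ => ⟨?_, ?_⟩)⟩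
    · rintro ⟨i, hi⟩
      rwa [Subsingleton.elim i 0] at hi
    · intro hi
      exact ⟨0, hi⟩
  · rintro ⟨D, I, hI, h⟩
    refine ⟨fun _ => D, fun _ => I, fun _ => hI, fun u v =>
      (h u v).trans (and_congr_right fun _ => ⟨fun hi => ⟨0, hi⟩, ?_⟩)⟩
    rintro ⟨i, hi⟩
    exact hi

theorem isAndPCG_one {V : Type} (G : SimpleGraph V) : IsAndPCG 1 G ↔ IsPCG G := by
  constructor
  · rintro ⟨D, I, hI, h⟩
    refine ⟨D 0, I 0, hI 0, fun u v => (h u v).trans (and_congr_right fun _ => ⟨fun hi => hi 0, ?_⟩)⟩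
    intro hi i
    rwa [Subsingleton.elim i 0]
  · rintro ⟨D, I, hI, h⟩
    exact ⟨fun _ => D, fun _ => I, fun _ => hI, fun u v =>
      (h u v).trans (and_congr_right fun _ => ⟨fun hi _ => hi, fun hi => hi 0⟩)⟩

theorem isIntPCG_one {V : Type} (G : SimpleGraph V) : IsIntPCG 1 G ↔ IsPCG G := by
  constructor
  · rintro ⟨D, I, hI, -, h⟩
    refine ⟨D, I 0, hI 0, fun u v => (h u v).trans (and_congr_right fun _ => ⟨?_, ?_⟩)⟩
    · rintro ⟨i, hi⟩
      rwa [Subsingleton.elim i 0] at hi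
    · intro hi
      exact ⟨0, hi⟩
  · rintro ⟨D, I, hI, h⟩
    refine ⟨D, fun _ => I, fun _ => hI, fun i j hij => absurd (Subsingleton.elim i j) hij,
      fun u v => (h u v).trans (and_congr_right fun _ => ⟨fun hi => ⟨0, hi⟩, ?_⟩)⟩
    rintro ⟨i, hi⟩
    exact hi

theorem pcg_iff {V : Type} [Finite V] [Nonempty V] (G : SimpleGraph V) :
    IsPCG G ↔ ∃ (d : V → V → ℝ) (a b : ℝ), FourPt d ∧ 0 ≤ a ∧ 0 ≤ b ∧
      ∀ u v, G.Adj u v ↔ u ≠ v ∧ a ≤ d u v ∧ d u v < b := by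
  rw [← isOrPCG_one, orPCG_iff_mid]
  constructor
  · rintro ⟨d, a, b, hd, hab, h⟩
    refine ⟨d 0, a 0, b 0, hd 0, (hab 0).1, (hab 0).2, fun u v =>
      (h u v).trans (and_congr_right fun _ => ⟨?_, ?_⟩)⟩
    · rintro ⟨i, hi⟩
      rwa [Subsingleton.elim i 0] at hi
    · intro hi
      exact ⟨0, hi⟩
  · rintro ⟨d, a, b, hd, ha, hb, h⟩
    refine ⟨fun _ => d, fun _ => a, fun _ => b, fun _ => hd, fun _ => ⟨ha, hb⟩, fun u v =>
      (h u v).trans (and_congr_right fun _ => ⟨fun hi => ⟨0, hi⟩, ?_⟩)⟩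
    rintro ⟨i, hi⟩
    exact hi

end Pool.Agent.LibPcn
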