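import Pool.Agent.LibPcn.CDefs
import Pool.Agent.LibPcg.PB9
import Pool.Agent.LibPcg.PA6
import Pool.Agent.LibPcg.PA7

set_option autoImplicit false

/-!
Row PCN16. Multi-interval PCGs in terms of four point functions and thresholds (the disjointness of
the intervals is free).
Sketch. `disjoint_cover`: `k` order connected sets have the same union as `k` pairwise disjoint order
connected sets. Induction on `k` (`Fin (k + 1)`, `Fin.cons`/`Fin.snoc`): let `J : Fin k → Set ℝ` be
disjoint for the last `k` sets, `I₀` the first set. Let `I' = I₀ ∪ ⋃ j, (if J j meets I₀ then J j)`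
(order connected: a union of order connected sets which all meet the order connected `I₀`; if
`x ∈ J j`, `y ∈ J j'`, `x ≤ z ≤ y` with `a ∈ J j ∩ I₀`, `b ∈ J j' ∩ I₀`: compare `z` with `a`, `b`), and
`J' j = ∅` if `J j` meets `I₀`, else `J j`. Elements of the new sets are elements of the old ones, so
nonnegativity is kept (`IsInterval` throughout). `intPCG_iff`: as LibOpc/OA2.lean
(`orPCG_iff_mid`) with one tree; for the direction from right to left the sets `Set.Ico (a i) (b i)`
and `disjoint_cover`.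
-/

namespace Pool.Agent.LibPcn

open SimpleGraph Pool.Agent.LibPcg Pool.Agent.LibOpc

theorem disjoint_cover (k : ℕ) (I : Fin k → Set ℝ) (hI : ∀ i, IsInterval (I i)) :
    ∃ J : Fin k → Set ℝ, (∀ i, IsInterval (J i)) ∧ (∀ i j, i ≠ j → Disjoint (J i) (J j)) ∧
      ∀ t, (∃ i, t ∈ J i) ↔ ∃ i, t ∈ I i := by
  induction k with
  | zero => exact ⟨I, hI, fun i => i.elim0, fun t => Iff.rfl⟩
  | succ k ih =>
    obtain ⟨J, hJ, hdis, hcov⟩ := ih (fun i => I i.succ) (fun i => hI i.succ)
    obtain ⟨U, hU⟩ : ∃ U : Set ℝ, U = {t | t ∈ I 0 ∨ ∃ j, (J j ∩ I 0).Nonempty ∧ t ∈ J j} :=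
      ⟨_, rfl⟩
    obtain ⟨W, hW⟩ : ∃ W : Fin k → Set ℝ, W = fun j => {t | t ∈ J j ∧ ¬ (J j ∩ I 0).Nonempty} :=
      ⟨_, rfl⟩
    have hUW : ∀ j, Disjoint U (W j) := by
      intro j
      rw [Set.disjoint_left]
      intro t ht1 ht2
      rw [hW] at ht2
      obtain ⟨h1, h2⟩ := ht2
      rw [hU] at ht1
      rcases ht1 with h3 | ⟨j', h3, h4⟩
      · exact h2 ⟨t, h1, h3⟩
      · have hne : j' ≠ j := by
          rintro rfl
          exact h2 h3
        exact (Set.disjoint_left.1 (hdis j' j hne)) h4 h1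
    have hUi : IsInterval U := by
      have hK : ∀ x ∈ U, ∃ K : Set ℝ, K.OrdConnected ∧ K ⊆ U ∧ x ∈ K ∧ ∃ a, a ∈ K ∧ a ∈ I 0 := by
        intro x hx
        rw [hU] at hx
        rcases hx with h | ⟨j, ⟨a, ha1, ha2⟩, h⟩
        · exact ⟨I 0, (hI 0).1, fun t ht => by rw [hU]; exact Or.inl ht, h, x, h, h⟩
        · exact ⟨J j, (hJ j).1, fun t ht => by rw [hU]; exact Or.inr ⟨j, ⟨a, ha1, ha2⟩, ht⟩, h, a,
            ha1, ha2⟩
      refine ⟨⟨fun x hx y hy z hz => ?_⟩, fun t ht => ?_⟩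
      · obtain ⟨K, hK1, hK2, hK3, a, ha1, ha2⟩ := hK x hx
        obtain ⟨K', hK1', hK2', hK3', b, hb1, hb2⟩ := hK y hy
        rcases le_or_gt z a with h | h
        · exact hK2 (hK1.out hK3 ha1 ⟨hz.1, h⟩)
        · rcases le_or_gt z b with h' | h'
          · rw [hU]
            exact Or.inl ((hI 0).1.out ha2 hb2 ⟨h.le, h'⟩)
          · exact hK2' (hK1'.out hb1 hK3' ⟨h'.le, hz.2⟩)
      · rw [hU] at ht
        rcases ht with h | ⟨j, -, h⟩
        · exact (hI 0).2 t h
        · exact (hJ j).2 t h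
    have hWi : ∀ j, IsInterval (W j) := by
      intro j
      rw [hW]
      refine ⟨⟨fun x hx y hy z hz => ⟨(hJ j).1.out hx.1 hy.1 hz, hx.2⟩⟩, fun t ht => (hJ j).2 t ht.1⟩
    have hWd : ∀ i j, i ≠ j → Disjoint (W i) (W j) := by
      intro i j hij
      rw [hW]
      exact (hdis i j hij).mono (fun t ht => ht.1) (fun t ht => ht.1)
    refine ⟨Fin.cons U W, fun i => ?_, fun i j hij => ?_, fun t => ?_⟩
    · refine Fin.cases ?_ (fun i => ?_) i
      · rw [Fin.cons_zero]
        exact hUi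
      · rw [Fin.cons_succ]
        exact hWi i
    · revert hij
      refine Fin.cases ?_ (fun i => ?_) i
      · refine Fin.cases ?_ (fun j => ?_) j
        · exact fun h => absurd rfl h
        · intro _
          rw [Fin.cons_zero, Fin.cons_succ]
          exact hUW j
      · refine Fin.cases ?_ (fun j => ?_) j
        · intro _
          rw [Fin.cons_zero, Fin.cons_succ]
          exact (hUW i).symm
        · intro h
          rw [Fin.cons_succ, Fin.cons_succ]
          exact hWd i j fun h' => h (by rw [h'])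
    · constructor
      · rintro ⟨i, hi⟩
        revert hi
        refine Fin.cases ?_ (fun i => ?_) i
        · rw [Fin.cons_zero, hU]
          rintro (h | ⟨j, -, h⟩)
          · exact ⟨0, h⟩
          · obtain ⟨i', hi'⟩ := (hcov t).1 ⟨j, h⟩
            exact ⟨i'.succ, hi'⟩
        · rw [Fin.cons_succ, hW]
          rintro ⟨h, -⟩
          obtain ⟨i', hi'⟩ := (hcov t).1 ⟨i, h⟩
          exact ⟨i'.succ, hi'⟩
      · rintro ⟨i, hi⟩
        revert hi
        refine Fin.cases ?_ (fun i => ?_) i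
        · intro h
          refine ⟨0, ?_⟩
          rw [Fin.cons_zero, hU]
          exact Or.inl h
        · intro h
          obtain ⟨j, hj⟩ := (hcov t).2 ⟨i, h⟩
          by_cases hne : (J j ∩ I 0).Nonempty
          · refine ⟨0, ?_⟩
            rw [Fin.cons_zero, hU]
            exact Or.inr ⟨j, hne, hj⟩
          · refine ⟨j.succ, ?_⟩
            rw [Fin.cons_succ, hW]
            exact ⟨hj, hne⟩

theorem intPCG_iff {V : Type} [Finite V] [Nonempty V] (k : ℕ) (G : SimpleGraph V) :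
    IsIntPCG k G ↔ ∃ (d : V → V → ℝ) (a b : Fin k → ℝ), FourPt d ∧
      (∀ i, 0 ≤ a i ∧ 0 ≤ b i) ∧
      ∀ u v, G.Adj u v ↔ u ≠ v ∧ ∃ i, a i ≤ d u v ∧ d u v < b i := by
  constructor
  · rintro ⟨D, I, hI, -, hG⟩
    have hfin : (Set.range (fun p : V × V => D.d p.1 p.2)).Finite := Set.finite_range _
    have h1 : ∀ i, ∃ a b : ℝ, 0 ≤ a ∧ 0 ≤ b ∧ ∀ t ∈ hfin.toFinset, t ∈ I i ↔ a ≤ t ∧ t < b :=
      fun i => interval_fin (I i) (hI i) _
    choose a b ha hb hab using h1
    refine ⟨D.d, a, b, D.fourPt, fun i => ⟨ha i, hb i⟩, fun u v => ?_⟩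
    rw [hG u v]
    refine and_congr_right fun _ => exists_congr fun i => ?_
    rw [← hab i (D.d u v) (hfin.mem_toFinset.2 ⟨(u, v), rfl⟩)]
    constructor
    · rintro ⟨t, ht, h2⟩
      rw [D.dist_iff u v t] at h2
      rw [← h2]
      exact ht
    · intro h2
      exact ⟨_, h2, (D.dist_iff u v _).2 rfl⟩
  · rintro ⟨d, a, b, hd, hab, hG⟩
    obtain ⟨D, hD⟩ := buneman d hd
    obtain ⟨J, hJ, hdis, hcov⟩ := disjoint_cover k (fun i => Set.Ico (a i) (b i))
      (fun i => ⟨Set.ordConnected_Ico, fun t ht => (hab i).1.trans ht.1⟩)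
    refine ⟨D, J, hJ, hdis, fun u v => ?_⟩
    rw [hG u v]
    refine and_congr_right fun _ => ?_
    constructor
    · rintro ⟨i, h2⟩
      obtain ⟨j, hj⟩ := (hcov (d u v)).2 ⟨i, h2⟩
      exact ⟨j, d u v, hj, (D.dist_iff u v _).2 (hD u v).symm⟩
    · rintro ⟨j, t, ht, h2⟩
      rw [D.dist_iff u v t, hD u v] at h2
      subst h2
      exact (hcov _).1 ⟨j, ht⟩

end Pool.Agent.LibPcn
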