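import Pool.Agent.LibPcn.CDefs
import Pool.Agent.LibPcn.C2

set_option autoImplicit false

/-!
Row PCN3. The gadget of a quartet gives the split of the plain items at its level.
Sketch. Let `l = 9 r + 9`, quartet `(a, b, c, e)`. `chain` with `n = m = 4` for
`p = X (a, l, 0), Y (a, l - 1, 0), X (a, l, 2 r + 1), Y (b, l - 3, 2 r + 1), X (b, l, 0)` and
`q = X (c, l, 0), Y (c, l - 1, 0), X (c, l, 2 r + 2), Y (e, l - 3, 2 r + 2), X (e, l, 0)`
(`l - 1 = 9 r + 8`, `l - 3 = 9 r + 6`). The 16 splits come from `Rep.split`: consecutive items have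
`Phi = false` (index rule `l > l - 1`, `l > l - 3`, or equal gadget numbers), all cross pairs
`Phi = true` (index rule `l ≤ l - 1 + 3`, `l ≤ l - 3 + 3`, the gadget numbers `2 r + 1`, `2 r + 2`, `0`
are different or `0`). Memberships: `mem_itX`, `mem_itY`, `numR`. It is best to prove the table of
all `Phi`-values first. (`p`, `q` : functions `ℕ → V` given by `match` or by nested `if`;
`interval_cases`.)
-/

namespace Pool.Agent.LibPcn

open SimpleGraph Pool.Agent.LibPcg Pool.Agent.LibOpc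

private theorem c3_far {u v : Ba} {i j g g' : ℕ} (h : u ≠ v) (hij : i ≤ j + 3)
    (hg : g = g' → g = 0) : Phi (u, i, g) (v, j, g') = true := by
  unfold Phi dd
  simp only [if_neg h]
  by_cases hgg : g = g'
  · have h0 := hg hgg
    simp [hij, h0]
  · simp [hij, hgg]

private theorem c3_near1 {u : Ba} {i j g g' : ℕ} (hij : j < i) :
    Phi (u, i, g) (u, j, g') = false := by
  unfold Phi dd
  simp only [if_true]
  have h1 : decide (i ≤ j + 0) = false := decide_eq_false (by omega)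
  rw [h1, Bool.false_and]

private theorem c3_near2 {u v : Ba} {i j g : ℕ} (hg : g ≠ 0) :
    Phi (u, i, g) (v, j, g) = false := by
  unfold Phi
  simp [hg]

theorem Rep.gadget {B : List Ba} {Q : List Qt} {V : Type} (R : Rep B Q V) (r : ℕ)
    (hr : r < Q.length) (h : QOk B (qt Q r)) :
    Split R.d (R.X ((qt Q r).1, 9 * r + 9, 0)) (R.X ((qt Q r).2.1, 9 * r + 9, 0))
      (R.X ((qt Q r).2.2.1, 9 * r + 9, 0)) (R.X ((qt Q r).2.2.2, 9 * r + 9, 0)) := by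
  obtain ⟨⟨ha, hb, hc, he⟩, hab, hac, hae, hbc, hbe, hce⟩ := h
  have hn : 9 * r + 9 < numR Q.length := by unfold numR; omega
  have hn' : 9 * r + 8 < numR Q.length := by unfold numR; omega
  have S0 : (((qt Q r).1, 9 * r + 9, 0) : It) ∈ itX B Q := (mem_itX B Q _).2 (Or.inl ⟨ha, hn, rfl⟩)
  have S1 : (((qt Q r).1, 9 * r + 9, 2 * r + 1) : It) ∈ itX B Q :=
    (mem_itX B Q _).2 (Or.inr ⟨r, hr, Or.inl rfl⟩)
  have S2 : (((qt Q r).2.1, 9 * r + 9, 0) : It) ∈ itX B Q :=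
    (mem_itX B Q _).2 (Or.inl ⟨hb, hn, rfl⟩)
  have S0' : (((qt Q r).2.2.1, 9 * r + 9, 0) : It) ∈ itX B Q :=
    (mem_itX B Q _).2 (Or.inl ⟨hc, hn, rfl⟩)
  have S1' : (((qt Q r).2.2.1, 9 * r + 9, 2 * r + 2) : It) ∈ itX B Q :=
    (mem_itX B Q _).2 (Or.inr ⟨r, hr, Or.inr rfl⟩)
  have S2' : (((qt Q r).2.2.2, 9 * r + 9, 0) : It) ∈ itX B Q :=
    (mem_itX B Q _).2 (Or.inl ⟨he, hn, rfl⟩)
  have T0 : (((qt Q r).1, 9 * r + 8, 0) : It) ∈ itY B Q := (mem_itY B Q _).2 (Or.inl ⟨ha, hn', rfl⟩)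
  have T1 : (((qt Q r).2.1, 9 * r + 6, 2 * r + 1) : It) ∈ itY B Q :=
    (mem_itY B Q _).2 (Or.inr ⟨r, hr, Or.inl rfl⟩)
  have T0' : (((qt Q r).2.2.1, 9 * r + 8, 0) : It) ∈ itY B Q :=
    (mem_itY B Q _).2 (Or.inl ⟨hc, hn', rfl⟩)
  have T1' : (((qt Q r).2.2.2, 9 * r + 6, 2 * r + 2) : It) ∈ itY B Q :=
    (mem_itY B Q _).2 (Or.inr ⟨r, hr, Or.inr rfl⟩)
  have N00 : Phi ((qt Q r).1, 9 * r + 9, 0) ((qt Q r).1, 9 * r + 8, 0) = false := c3_near1 (by omega)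
  have M00 : Phi ((qt Q r).2.2.1, 9 * r + 9, 0) ((qt Q r).2.2.1, 9 * r + 8, 0) = false := c3_near1 (by omega)
  have N10 : Phi ((qt Q r).1, 9 * r + 9, 2 * r + 1) ((qt Q r).1, 9 * r + 8, 0) = false := c3_near1 (by omega)
  have M10 : Phi ((qt Q r).2.2.1, 9 * r + 9, 2 * r + 2) ((qt Q r).2.2.1, 9 * r + 8, 0) = false := c3_near1 (by omega)
  have N11 : Phi ((qt Q r).1, 9 * r + 9, 2 * r + 1) ((qt Q r).2.1, 9 * r + 6, 2 * r + 1) = false := c3_near2 (by omega)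
  have M11 : Phi ((qt Q r).2.2.1, 9 * r + 9, 2 * r + 2) ((qt Q r).2.2.2, 9 * r + 6, 2 * r + 2) = false := c3_near2 (by omega)
  have N21 : Phi ((qt Q r).2.1, 9 * r + 9, 0) ((qt Q r).2.1, 9 * r + 6, 2 * r + 1) = false := c3_near1 (by omega)
  have M21 : Phi ((qt Q r).2.2.2, 9 * r + 9, 0) ((qt Q r).2.2.2, 9 * r + 6, 2 * r + 2) = false := c3_near1 (by omega)
  have F00 : Phi ((qt Q r).1, 9 * r + 9, 0) ((qt Q r).2.2.1, 9 * r + 8, 0) = true :=
    c3_far hac (by omega) (by omega)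
  have G00 : Phi ((qt Q r).2.2.1, 9 * r + 9, 0) ((qt Q r).1, 9 * r + 8, 0) = true :=
    c3_far hac.symm (by omega) (by omega)
  have F01 : Phi ((qt Q r).1, 9 * r + 9, 0) ((qt Q r).2.2.2, 9 * r + 6, 2 * r + 2) = true :=
    c3_far hae (by omega) (by omega)
  have G01 : Phi ((qt Q r).2.2.1, 9 * r + 9, 0) ((qt Q r).2.1, 9 * r + 6, 2 * r + 1) = true :=
    c3_far hbc.symm (by omega) (by omega)
  have F10 : Phi ((qt Q r).1, 9 * r + 9, 2 * r + 1) ((qt Q r).2.2.1, 9 * r + 8, 0) = true :=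
    c3_far hac (by omega) (by omega)
  have G10 : Phi ((qt Q r).2.2.1, 9 * r + 9, 2 * r + 2) ((qt Q r).1, 9 * r + 8, 0) = true :=
    c3_far hac.symm (by omega) (by omega)
  have F11 : Phi ((qt Q r).1, 9 * r + 9, 2 * r + 1) ((qt Q r).2.2.2, 9 * r + 6, 2 * r + 2) = true :=
    c3_far hae (by omega) (by omega)
  have G11 : Phi ((qt Q r).2.2.1, 9 * r + 9, 2 * r + 2) ((qt Q r).2.1, 9 * r + 6, 2 * r + 1) = true :=
    c3_far hbc.symm (by omega) (by omega)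
  have F20 : Phi ((qt Q r).2.1, 9 * r + 9, 0) ((qt Q r).2.2.1, 9 * r + 8, 0) = true :=
    c3_far hbc (by omega) (by omega)
  have G20 : Phi ((qt Q r).2.2.2, 9 * r + 9, 0) ((qt Q r).1, 9 * r + 8, 0) = true :=
    c3_far hae.symm (by omega) (by omega)
  have F21 : Phi ((qt Q r).2.1, 9 * r + 9, 0) ((qt Q r).2.2.2, 9 * r + 6, 2 * r + 2) = true :=
    c3_far hbe (by omega) (by omega)
  have G21 : Phi ((qt Q r).2.2.2, 9 * r + 9, 0) ((qt Q r).2.1, 9 * r + 6, 2 * r + 1) = true :=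
    c3_far hbe.symm (by omega) (by omega)
  let p : ℕ → V := fun i => match i with
    | 0 => R.X ((qt Q r).1, 9 * r + 9, 0)
    | 1 => R.Y ((qt Q r).1, 9 * r + 8, 0)
    | 2 => R.X ((qt Q r).1, 9 * r + 9, 2 * r + 1)
    | 3 => R.Y ((qt Q r).2.1, 9 * r + 6, 2 * r + 1)
    | _ => R.X ((qt Q r).2.1, 9 * r + 9, 0)
  let q : ℕ → V := fun i => match i with
    | 0 => R.X ((qt Q r).2.2.1, 9 * r + 9, 0)
    | 1 => R.Y ((qt Q r).2.2.1, 9 * r + 8, 0)
    | 2 => R.X ((qt Q r).2.2.1, 9 * r + 9, 2 * r + 2)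
    | 3 => R.Y ((qt Q r).2.2.2, 9 * r + 6, 2 * r + 2)
    | _ => R.X ((qt Q r).2.2.2, 9 * r + 9, 0)
  refine chain R.four 4 4 (by norm_num) (by norm_num) p q fun i hi j hj => ?_
  interval_cases i <;> interval_cases j
  · exact (R.split S0 S0' T0 T0' N00 M00 F00 G00).1
  · exact (R.split S0 S1' T0 T0' N00 M10 F00 G10).2.2.1
  · exact (R.split S0 S1' T0 T1' N00 M11 F01 G10).1
  · exact (R.split S0 S2' T0 T1' N00 M21 F01 G20).2.2.1
  · exact (R.split S1 S0' T0 T0' N10 M00 F10 G00).2.1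
  · exact (R.split S1 S1' T0 T0' N10 M10 F10 G10).2.2.2
  · exact (R.split S1 S1' T0 T1' N10 M11 F11 G10).2.1
  · exact (R.split S1 S2' T0 T1' N10 M21 F11 G20).2.2.2
  · exact (R.split S1 S0' T1 T0' N11 M00 F10 G01).1
  · exact (R.split S1 S1' T1 T0' N11 M10 F10 G11).2.2.1
  · exact (R.split S1 S1' T1 T1' N11 M11 F11 G11).1
  · exact (R.split S1 S2' T1 T1' N11 M21 F11 G21).2.2.1
  · exact (R.split S2 S0' T1 T0' N21 M00 F20 G01).2.1
  · exact (R.split S2 S1' T1 T0' N21 M10 F20 G11).2.2.2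
  · exact (R.split S2 S1' T1 T1' N21 M11 F21 G11).2.1
  · exact (R.split S2 S2' T1 T1' N21 M21 F21 G21).2.2.2

end Pool.Agent.LibPcn
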