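import Pool.Agent.LibPcn.CDefs
import Pool.Agent.LibPcn.C2

set_option autoImplicit false

/-!
Row PCN4. Two copies of an item at consecutive levels are split from two other items.
Sketch. `chain` with `n = 2`, `m = 4` for `p = X (a, i, 0), Y (a, i - 1, 0), X (a, i + 1, 0)` and
`q = X (c, k, 0), Y (c, i - 2, 0), X (e, i + 2, 0), Y (e, i - 2, 0), X (e, k', 0)`.
Consecutive items have `Phi = false`: `i > i - 1`, `i + 1 > i - 1`, `k > i - 2`,
`i + 2 > i - 2 + 3`, `i + 2 > i - 2`, `k' > i - 2`. Cross pairs have `Phi = true`: `i, i + 1 ≤ i - 2 + 3`;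
`k, k' ≤ i - 1 + 3`, `i + 2 ≤ i - 1 + 3`. Memberships: `mem_itX`, `mem_itY`. (Write `i = i' + 2`.)
-/

namespace Pool.Agent.LibPcn

open SimpleGraph Pool.Agent.LibPcg Pool.Agent.LibOpc

private theorem c4_phi (a c : Ba) (i j : ℕ) : Phi (a, i, 0) (c, j, 0) = decide (i ≤ j + dd a c) := by
  simp [Phi]

private theorem c4_same {a : Ba} {i j : ℕ} (h : j < i) : Phi (a, i, 0) (a, j, 0) = false := by
  rw [c4_phi, decide_eq_false_iff_not]
  simp only [dd, if_true]
  omega

private theorem c4_diff {a c : Ba} (hac : a ≠ c) {i j : ℕ} (h : i ≤ j + 3) : Phi (a, i, 0) (c, j, 0) = true := by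
  rw [c4_phi, decide_eq_true_eq]
  simp only [dd, hac, if_false]
  exact h

private theorem c4_X {B : List Ba} {Q : List Qt} {a : Ba} (ha : a ∈ B) {i : ℕ} (hi : i < numR Q.length) :
    (a, i, 0) ∈ itX B Q := (mem_itX B Q _).2 (Or.inl ⟨ha, hi, rfl⟩)

private theorem c4_Y {B : List Ba} {Q : List Qt} {a : Ba} (ha : a ∈ B) {i : ℕ} (hi : i < numR Q.length) :
    (a, i, 0) ∈ itY B Q := (mem_itY B Q _).2 (Or.inl ⟨ha, hi, rfl⟩)

theorem Rep.step {B : List Ba} {Q : List Qt} {V : Type} (R : Rep B Q V) {a c e : Ba}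
    (ha : a ∈ B) (hc : c ∈ B) (he : e ∈ B) (hac : a ≠ c) (hae : a ≠ e) (hce : c ≠ e)
    (i k k' : ℕ) (hi : 2 ≤ i) (hi' : i + 2 < numR Q.length) (hk : k = i ∨ k = i + 1)
    (hk' : k' = i ∨ k' = i + 1) :
    Split R.d (R.X (a, i, 0)) (R.X (a, i + 1, 0)) (R.X (c, k, 0)) (R.X (e, k', 0)) := by
  obtain ⟨l, rfl⟩ : ∃ l, i = l + 2 := ⟨i - 2, by omega⟩
  have hca : c ≠ a := hac.symm
  have hea : e ≠ a := hae.symm
  have mX : ∀ x ∈ B, ∀ j, j ≤ l + 4 → (x, j, 0) ∈ itX B Q := fun x hx j hj => c4_X hx (by omega)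
  have mY : ∀ x ∈ B, ∀ j, j ≤ l + 4 → (x, j, 0) ∈ itY B Q := fun x hx j hj => c4_Y hx (by omega)
  let p : ℕ → V := fun n => if n = 0 then R.X (a, l + 2, 0) else if n = 1 then R.Y (a, l + 1, 0) else
    R.X (a, l + 2 + 1, 0)
  let q : ℕ → V := fun n => if n = 0 then R.X (c, k, 0) else if n = 1 then R.Y (c, l, 0) else
    if n = 2 then R.X (e, l + 4, 0) else if n = 3 then R.Y (e, l, 0) else R.X (e, k', 0)
  have h := chain R.four 2 4 (by norm_num) (by norm_num) p q ?_
  · exact h
  · have S1 := R.split (mX a ha (l + 2) (by omega)) (mX c hc k (by omega)) (mY a ha (l + 1) (by omega))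
      (mY c hc l (by omega)) (c4_same (by omega)) (c4_same (by omega)) (c4_diff hac (by omega))
      (c4_diff hca (by omega))
    have S3 := R.split (mX a ha (l + 2) (by omega)) (mX e he (l + 4) (by omega)) (mY a ha (l + 1) (by omega))
      (mY e he l (by omega)) (c4_same (by omega)) (c4_same (by omega)) (c4_diff hae (by omega))
      (c4_diff hea (by omega))
    have S4 := R.split (mX a ha (l + 2) (by omega)) (mX e he k' (by omega)) (mY a ha (l + 1) (by omega))
      (mY e he l (by omega)) (c4_same (by omega)) (c4_same (by omega)) (c4_diff hae (by omega))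
      (c4_diff hea (by omega))
    have T1 := R.split (mX a ha (l + 2 + 1) (by omega)) (mX c hc k (by omega)) (mY a ha (l + 1) (by omega))
      (mY c hc l (by omega)) (c4_same (by omega)) (c4_same (by omega)) (c4_diff hac (by omega))
      (c4_diff hca (by omega))
    have T3 := R.split (mX a ha (l + 2 + 1) (by omega)) (mX e he (l + 4) (by omega)) (mY a ha (l + 1) (by omega))
      (mY e he l (by omega)) (c4_same (by omega)) (c4_same (by omega)) (c4_diff hae (by omega))
      (c4_diff hea (by omega))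
    have T4 := R.split (mX a ha (l + 2 + 1) (by omega)) (mX e he k' (by omega)) (mY a ha (l + 1) (by omega))
      (mY e he l (by omega)) (c4_same (by omega)) (c4_same (by omega)) (c4_diff hae (by omega))
      (c4_diff hea (by omega))
    -- the pair `Y (c, l), X (e, l + 4)`
    have S2 := R.split (s := (a, l + 2, 0)) (s' := (e, l + 4, 0)) (t := (a, l + 1, 0)) (t' := (c, l, 0))
      (mX a ha (l + 2) (by omega)) (mX e he (l + 4) (by omega)) (mY a ha (l + 1) (by omega))
      (mY c hc l (by omega)) (c4_same (by omega)) ?_ (c4_diff hac (by omega)) (c4_diff hea (by omega))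
    have T2 := R.split (s := (a, l + 2 + 1, 0)) (s' := (e, l + 4, 0)) (t := (a, l + 1, 0)) (t' := (c, l, 0))
      (mX a ha (l + 2 + 1) (by omega)) (mX e he (l + 4) (by omega)) (mY a ha (l + 1) (by omega))
      (mY c hc l (by omega)) (c4_same (by omega)) ?_ (c4_diff hac (by omega)) (c4_diff hea (by omega))
    · intro i hi j hj
      interval_cases i <;> interval_cases j
      · exact S1.1
      · exact S2.2.2.1
      · exact S3.1
      · exact S4.2.2.1
      · exact T1.2.1
      · exact T2.2.2.2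
      · exact T3.2.1
      · exact T4.2.2.2
    all_goals
      rw [c4_phi, decide_eq_false_iff_not]
      simp only [dd, hce.symm, if_false]
      omega

end Pool.Agent.LibPcn
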