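import Pool.Agent.LibPcn.CDefs
import Pool.Agent.LibPcn.C3
import Pool.Agent.LibPcn.C4

set_option autoImplicit false

/-!
Row PCN5. All quartets hold at the top level.
Sketch. (1) For different `a b c e ∈ B`, `2 ≤ i`, `i + 2 < numR`: a split `(a b | c e)` at the level
`i` gives the split at the level `i + 1`: replace `a`, `b`, `c`, `e` one after the other, with
`Rep.step` for the element which is replaced and the pair on the other side, and `Split.trans`,
`Split.trans_left`, `Split.swap`, `Split.left`, `Split.right`. (2) `Rep.gadget` gives the quartet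
number `r` at the level `9 r + 9`; by induction it holds at the level `9 * Q.length`
(for `r < Q.length`, `9 r + 9 ≤ 9 * Q.length`; `9 * Q.length + 2 < numR Q.length`). Take
`z a = X (a, 9 * Q.length, 0)`; `exists_qt`.
-/

namespace Pool.Agent.LibPcn

open SimpleGraph Pool.Agent.LibPcg Pool.Agent.LibOpc

private theorem c5_step {B : List Ba} {Q : List Qt} {V : Type} (R : Rep B Q V) {a b c e : Ba}
    (ha : a ∈ B) (hb : b ∈ B) (hc : c ∈ B) (he : e ∈ B) (hab : a ≠ b) (hac : a ≠ c) (hae : a ≠ e)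
    (hbc : b ≠ c) (hbe : b ≠ e) (hce : c ≠ e) (i : ℕ) (hi : 2 ≤ i) (hi' : i + 2 < numR Q.length)
    (h : Split R.d (R.X (a, i, 0)) (R.X (b, i, 0)) (R.X (c, i, 0)) (R.X (e, i, 0))) :
    Split R.d (R.X (a, i + 1, 0)) (R.X (b, i + 1, 0)) (R.X (c, i + 1, 0)) (R.X (e, i + 1, 0)) := by
  have f := R.four
  have h1 : Split R.d (R.X (a, i + 1, 0)) (R.X (b, i, 0)) (R.X (c, i, 0)) (R.X (e, i, 0)) :=
    Split.trans_left f (Split.left f (R.step ha hc he hac hae hce i i i hi hi' (Or.inl rfl) (Or.inl rfl))) h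
  have h2 : Split R.d (R.X (a, i + 1, 0)) (R.X (b, i + 1, 0)) (R.X (c, i, 0)) (R.X (e, i, 0)) :=
    Split.trans_left f h1 (R.step hb hc he hbc hbe hce i i i hi hi' (Or.inl rfl) (Or.inl rfl))
  have h3 := Split.swap f h2
  have h4 : Split R.d (R.X (c, i + 1, 0)) (R.X (e, i, 0)) (R.X (a, i + 1, 0)) (R.X (b, i + 1, 0)) :=
    Split.trans_left f (Split.left f (R.step hc ha hb hac.symm hbc.symm hab i (i + 1) (i + 1) hi hi'
      (Or.inr rfl) (Or.inr rfl))) h3
  have h5 : Split R.d (R.X (c, i + 1, 0)) (R.X (e, i + 1, 0)) (R.X (a, i + 1, 0)) (R.X (b, i + 1, 0)) :=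
    Split.trans_left f h4 (R.step he ha hb hae.symm hbe.symm hab i (i + 1) (i + 1) hi hi'
      (Or.inr rfl) (Or.inr rfl))
  exact Split.swap f h5

theorem Rep.quartets {B : List Ba} {Q : List Qt} {V : Type} (R : Rep B Q V)
    (hQ : ∀ q ∈ Q, QOk B q) :
    ∃ z : Ba → V, ∀ q ∈ Q, Split R.d (z q.1) (z q.2.1) (z q.2.2.1) (z q.2.2.2) := by
  refine ⟨fun a => R.X (a, 9 * Q.length, 0), fun q hq => ?_⟩
  obtain ⟨r, hr, rfl⟩ := exists_qt Q q hq
  have hok := hQ _ hq
  obtain ⟨⟨m1, m2, m3, m4⟩, n1, n2, n3, n4, n5, n6⟩ := hok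
  have key : ∀ l, 9 * r + 9 ≤ l → l ≤ 9 * Q.length →
      Split R.d (R.X ((qt Q r).1, l, 0)) (R.X ((qt Q r).2.1, l, 0))
        (R.X ((qt Q r).2.2.1, l, 0)) (R.X ((qt Q r).2.2.2, l, 0)) := by
    intro l hl
    induction l, hl using Nat.le_induction with
    | base =>
      intro _
      exact R.gadget r hr (hQ _ hq)
    | succ l hl ih =>
      intro hl'
      have hn : numR Q.length = 9 * (Q.length + 2) := rfl
      exact c5_step R m1 m2 m3 m4 n1 n2 n3 n4 n5 n6 l (by omega) (by rw [hn]; omega) (ih (by omega))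
  exact key _ (by omega) le_rfl

end Pool.Agent.LibPcn
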