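import Pool.Agent.LibPcn.CDefs
import Pool.Agent.LibOpc.OA1

set_option autoImplicit false

/-!
Row PCN6. If the output graph is a PCG, then the relation is representable.
Sketch. For a copy `c < 3` and `s ∈ itX B Q` there is `i : Fin (outV B Q).length` with
`(outV B Q)[i] = (true, c, s)` (`List.mem_iff_getElem` / `List.getElem_of_mem`), for other `s` take the
vertex of any fixed item (the list `outV` is nonempty by `hne`); the same for the second side. This
gives `X, Y : ℕ → It → Fin n`. For `c ≠ c'` (both `< 3`), `s ∈ itX`, `t ∈ itY`: `X c s`, `Y c' t` are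
adjacent, so `a ≤ d < b`; for `c = c'` adjacent iff `Phi s t`. Suppose that for every `c < 3` there are
`s_c ∈ itX`, `t_c ∈ itY` with `Phi s_c t_c = false` and not `d (X c s_c) (Y c t_c) < a`; the pair is not
adjacent, and `X c s_c ≠ Y c t_c` (different sides), so `b ≤ d`. `lemmaT` (LibOpc/OA1) with
`x c = X c s_c`, `y c = Y c t_c`, `c : Fin 3`: contradiction. So for some `c` all pairs with
`Phi = false` have `d < a`: `Rep` with `τ = a`, `X := X c`, `Y := Y c`.
-/

namespace Pool.Agent.LibPcn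

open SimpleGraph Pool.Agent.LibPcg Pool.Agent.LibOpc

theorem rep_of_mid (B : List Ba) (Q : List Qt) (hne : 0 < (outV B Q).length)
    (d : Fin (outV B Q).length → Fin (outV B Q).length → ℝ) (hd : FourPt d) (a b : ℝ)
    (h : ∀ u v, (outG B Q).Adj u v ↔ u ≠ v ∧ a ≤ d u v ∧ d u v < b) :
    Nonempty (Rep B Q (Fin (outV B Q).length)) := by
  classical
  have hmX : ∀ c < 3, ∀ s ∈ itX B Q, ((true, c, s) : Vc) ∈ outV B Q := by
    intro c hc s hs
    refine List.mem_flatMap.2 ⟨c, List.mem_range.2 hc, List.mem_append.2 (Or.inl ?_)⟩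
    exact List.mem_map.2 ⟨s, hs, rfl⟩
  have hmY : ∀ c < 3, ∀ t ∈ itY B Q, ((false, c, t) : Vc) ∈ outV B Q := by
    intro c hc s hs
    refine List.mem_flatMap.2 ⟨c, List.mem_range.2 hc, List.mem_append.2 (Or.inr ?_)⟩
    exact List.mem_map.2 ⟨s, hs, rfl⟩
  have hX : ∀ (c : ℕ) (s : It), ∃ i : Fin (outV B Q).length, c < 3 → s ∈ itX B Q →
      (outV B Q)[i] = (true, c, s) := by
    intro c s
    by_cases hc : c < 3 ∧ s ∈ itX B Q
    · obtain ⟨i, hi, he⟩ := List.getElem_of_mem (hmX c hc.1 s hc.2)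
      exact ⟨⟨i, hi⟩, fun _ _ => he⟩
    · exact ⟨⟨0, hne⟩, fun h1 h2 => absurd ⟨h1, h2⟩ hc⟩
  have hY : ∀ (c : ℕ) (t : It), ∃ i : Fin (outV B Q).length, c < 3 → t ∈ itY B Q →
      (outV B Q)[i] = (false, c, t) := by
    intro c s
    by_cases hc : c < 3 ∧ s ∈ itY B Q
    · obtain ⟨i, hi, he⟩ := List.getElem_of_mem (hmY c hc.1 s hc.2)
      exact ⟨⟨i, hi⟩, fun _ _ => he⟩
    · exact ⟨⟨0, hne⟩, fun h1 h2 => absurd ⟨h1, h2⟩ hc⟩
  choose X hX using hX
  choose Y hY using hY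
  have hadj : ∀ c c' s t, c < 3 → c' < 3 → s ∈ itX B Q → t ∈ itY B Q →
      ((outG B Q).Adj (X c s) (Y c' t) ↔ (c ≠ c' ∨ Phi s t = true)) := by
    intro c c' s t hc hc' hs ht
    show gadj (outV B Q)[X c s] (outV B Q)[Y c' t] = true ↔ _
    rw [hX c s hc hs, hY c' t hc' ht]
    simp [gadj, crel]
  have hXY : ∀ c c' s t, c < 3 → c' < 3 → s ∈ itX B Q → t ∈ itY B Q → X c s ≠ Y c' t := by
    intro c c' s t hc hc' hs ht he
    have h1 := hX c s hc hs
    have h2 := hY c' t hc' ht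
    rw [he] at h1
    rw [h1] at h2
    exact absurd (congrArg Prod.fst h2) (by simp)
  by_contra hcon
  have hbad : ∀ c : Fin 3, ∃ s t, s ∈ itX B Q ∧ t ∈ itY B Q ∧ Phi s t = false ∧
      ¬ d (X c s) (Y c t) < a := by
    intro c
    by_contra hc
    apply hcon
    refine ⟨⟨d, hd, X c, Y c, a, ?_⟩⟩
    intro s hs t ht
    constructor
    · intro hP
      exact ((h _ _).1 ((hadj c c s t c.2 c.2 hs ht).2 (Or.inr hP))).2.1
    · intro hle
      by_contra hP
      exact hc ⟨s, t, hs, ht, by simpa using hP, not_lt.2 hle⟩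
  choose s t hs ht hP hda using hbad
  refine lemmaT hd (fun c => X c (s c)) (fun c => Y c (t c)) ?_
  intro i j hij
  have hij' : (i : ℕ) ≠ (j : ℕ) := fun he => hij (Fin.ext he)
  have h1 := (h _ _).1 ((hadj i j (s i) (t j) i.2 j.2 (hs i) (ht j)).2 (Or.inl hij'))
  have h2 : ¬ (outG B Q).Adj (X i (s i)) (Y i (t i)) := by
    rw [hadj i i (s i) (t i) i.2 i.2 (hs i) (ht i), hP i]
    simp
  have h3 : b ≤ d (X i (s i)) (Y i (t i)) := by
    by_contra hlt
    exact h2 ((h _ _).2 ⟨hXY i i (s i) (t i) i.2 i.2 (hs i) (ht i), not_lt.1 (hda i), not_le.1 hlt⟩)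
  exact lt_of_lt_of_le h1.2.2 h3

end Pool.Agent.LibPcn
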