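import Pool.Agent.LibPcn.CDefs
import Pool.Agent.LibPcg.PB1

set_option autoImplicit false

/-!
Row PCN7. The four quartets of a triple force betweenness.
Sketch. `pos x = d A x - d E x`. `Split A x E y` implies `pos x < pos y` (second inequality and
symmetry). Lemma Q: `Split A a b q` implies (`pos a < pos b` and `pos a < pos q`) or
(`pos b = pos q` and `pos b ≤ pos a`): ultrametric similarity `g x y = (d x A + d y A - d x y) / 2`
(`ult_of_fourPt`), `pos x = 2 g x E - d A E`; the split says `g a b, g a q < g b q`. The same with `A`, `E`
exchanged: `Split E c b p` implies (`pos b < pos c` and `pos p < pos c`) or (`pos b = pos p` and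
`pos c ≤ pos b`). With `pos p < pos a` (from `h1`) and `pos c < pos q` (from `h2`): four cases, always
one of the two alternatives.
-/

namespace Pool.Agent.LibPcn

open SimpleGraph Pool.Agent.LibPcg Pool.Agent.LibOpc

private theorem c7_q {V : Type} {d : V → V → ℝ} (h : FourPt d) (A E a b q : V)
    (hs : Split d A a b q) :
    (d A a - d E a < d A b - d E b ∧ d A a - d E a < d A q - d E q) ∨
      (d A b - d E b = d A q - d E q ∧ d A b - d E b ≤ d A a - d E a) := by
  obtain ⟨s1, s2⟩ := hs
  have F1 := le_max_iff.1 (h.four b E q A)
  have F2 := le_max_iff.1 (h.four a b E A)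
  have F3 := le_max_iff.1 (h.four q E b A)
  have F4 := le_max_iff.1 (h.four a q E A)
  have e1 := h.symm b E
  have e2 := h.symm q A
  have e3 := h.symm b q
  have e4 := h.symm E A
  have e5 := h.symm b A
  have e6 := h.symm a E
  have e7 := h.symm a A
  have e8 := h.symm q E
  rcases lt_trichotomy (d A b - d E b) (d A q - d E q) with hlt | heq | hgt
  · left
    rcases F1 with F1 | F1
    · rcases F2 with F2 | F2
      · constructor <;> linarith
      · constructor <;> linarith
    · exfalso
      linarith
  · rcases lt_or_ge (d A a - d E a) (d A b - d E b) with h1 | h1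
    · left
      exact ⟨h1, by linarith⟩
    · right
      exact ⟨heq, h1⟩
  · left
    rcases F3 with F3 | F3
    · rcases F4 with F4 | F4
      · constructor <;> linarith
      · constructor <;> linarith
    · exfalso
      linarith

theorem betw_of_quartets {V : Type} {d : V → V → ℝ} (h : FourPt d) (A E a b c p q : V)
    (h1 : Split d A p E a) (h2 : Split d A c E q) (h3 : Split d A a b q)
    (h4 : Split d E c b p) :
    Betw (d A a - d E a) (d A b - d E b) (d A c - d E c) := by
  have g1 : d A p - d E p < d A a - d E a := by
    have := h1.2
    have e := h.symm p E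
    linarith
  have g2 : d A c - d E c < d A q - d E q := by
    have := h2.2
    have e := h.symm c E
    linarith
  have g3 := c7_q h A E a b q h3
  have g4 := c7_q h E A c b p h4
  rcases g3 with g3 | g3
  · rcases g4 with g4 | g4
    · left
      exact ⟨g3.1, by linarith [g4.1]⟩
    · exfalso
      linarith [g3.1, g4.1, g4.2]
  · rcases g4 with g4 | g4
    · exfalso
      linarith [g3.1, g4.1, g4.2]
    · right
      constructor
      · linarith [g3.1, g4.1, g4.2]
      · linarith [g3.1, g4.1, g4.2]

end Pool.Agent.LibPcn
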