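import Pool.Agent.LibPcn.CDefs

set_option autoImplicit false

/-!
Row PCN8. From a solution of the betweenness problem to a satisfying assignment.
Sketch. First the memberships: for `j < φ.length`, `i < (φ.getD j []).length`:
`(eW j i, eW j (i + 1), eL j i) ∈ triples φ`; for `j < φ.length`: `(eW j (length), eM, eF) ∈ triples φ`;
for complementary literals `(j, i)`, `(j', i')`: `(eL j i, eM, eL j' i') ∈ triples φ`. Say that `x` is
bad if it is on the side of `eF`: `(f x < f eM ∧ f eF < f eM) ∨ (f eM < f x ∧ f eM < f eF)`. Let `v` be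
true iff there are `j, i` with `lv φ j i = some v`, `ls φ j i = true`, `j < φ.length`,
`i < length` and `eL j i` not bad (use `open Classical`, `decide`). Let `c = φ.getD j []` be a clause. If all
`eL j i` are bad, then by induction all `eW j i`, `i ≤ length`, are bad (for `i = 0`, `eW j 0 = eF`:
bad if `f eF ≠ f eM`, which follows from the triple `(eW j _, eM, eF)`; `eW j (i + 1)` is between two
bad elements). But `eM` is strictly between `eW j (length)` and `eF`: contradiction. So some `eL j i` is
not bad. If its sign is `true` then its variable is true. If its sign is `false` and its variable were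
true, there would be `(j', i')` with the same variable, sign `true`, not bad; but `eM` is strictly
between `eL j i` and `eL j' i'`, so one of them is bad (`f eF ≠ f eM`).
-/

namespace Pool.Agent.LibPcn

open SimpleGraph Pool.Agent.LibPcg Pool.Agent.LibOpc

private theorem c8_m1 {V : Type} [DecidableEq V] (φ : List (List (V × Bool))) {j i : ℕ}
    (hj : j < φ.length) (hi : i < (φ.getD j []).length) :
    (eW j i, eW j (i + 1), eL j i) ∈ triples φ := by
  unfold triples
  refine List.mem_append_right _ (List.mem_append_left _ ?_)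
  rw [List.mem_flatMap]
  refine ⟨j, List.mem_range.2 hj, ?_⟩
  rw [List.mem_map]
  exact ⟨i, List.mem_range.2 hi, rfl⟩

private theorem c8_m2 {V : Type} [DecidableEq V] (φ : List (List (V × Bool))) {j : ℕ}
    (hj : j < φ.length) : (eW j (φ.getD j []).length, eM, eF) ∈ triples φ := by
  unfold triples
  refine List.mem_append_right _ (List.mem_append_right _ ?_)
  rw [List.mem_map]
  exact ⟨j, List.mem_range.2 hj, rfl⟩

private theorem c8_m3 {V : Type} [DecidableEq V] (φ : List (List (V × Bool))) {j i j' i' : ℕ}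
    (hj : j < φ.length) (hi : i < (φ.getD j []).length)
    (hj' : j' < φ.length) (hi' : i' < (φ.getD j' []).length)
    (h1 : lv φ j i = lv φ j' i') (h2 : ls φ j i ≠ ls φ j' i') :
    (eL j i, eM, eL j' i') ∈ triples φ := by
  unfold triples
  refine List.mem_append_left _ ?_
  rw [List.mem_flatMap]
  refine ⟨j, List.mem_range.2 hj, ?_⟩
  rw [List.mem_flatMap]
  refine ⟨i, List.mem_range.2 hi, ?_⟩
  rw [List.mem_flatMap]
  refine ⟨j', List.mem_range.2 hj', ?_⟩
  rw [List.mem_flatMap]
  refine ⟨i', List.mem_range.2 hi', ?_⟩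
  rw [if_pos]
  · exact List.mem_singleton.2 rfl
  · simp [h1, h2]

private theorem c8_ev {V : Type} (φ : List (List (V × Bool))) {j i : ℕ} {cl : List (V × Bool)}
    (hc : φ.getD j [] = cl) (hi : i < cl.length) :
    lv φ j i = some cl[i].1 ∧ ls φ j i = cl[i].2 := by
  subst hc
  constructor
  · unfold lv
    rw [List.getD_eq_getElem _ _ (by simpa using hi), List.getElem_map]
  · unfold ls
    rw [List.getD_eq_getElem _ _ (by simpa using hi), List.getElem_map]

theorem sat_of_betw {V : Type} [DecidableEq V] (φ : List (List (V × Bool))) (f : Ba → ℝ)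
    (hf : ∀ T ∈ triples φ, Betw (f T.1) (f T.2.1) (f T.2.2)) :
    ∃ a : V → Bool, ∀ c ∈ φ, ∃ l ∈ c, a l.1 = l.2 := by
  classical
  obtain ⟨Bad, hBad⟩ : ∃ Bad : Ba → Prop, Bad = fun x =>
    (f x < f eM ∧ f eF < f eM) ∨ (f eM < f x ∧ f eM < f eF) := ⟨_, rfl⟩
  obtain ⟨a, ha⟩ : ∃ a : V → Bool, a = fun v => decide (∃ j i, j < φ.length ∧
    i < (φ.getD j []).length ∧ lv φ j i = some v ∧ ls φ j i = true ∧ ¬ Bad (eL j i)) := ⟨_, rfl⟩
  refine ⟨a, fun cl hc => ?_⟩
  obtain ⟨j, hj, hjc⟩ := List.mem_iff_getElem.1 hc
  have hgc : φ.getD j [] = cl := by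
    rw [List.getD_eq_getElem _ _ hj, hjc]
  have hM : f eM < f eF ∨ f eF < f eM := by
    rcases hf _ (c8_m2 φ hj) with h | h
    · exact Or.inl h.2
    · exact Or.inr h.1
  have hex : ∃ i, i < cl.length ∧ ¬ Bad (eL j i) := by
    by_contra hcon
    push Not at hcon
    have hW : ∀ i, i ≤ cl.length → Bad (eW j i) := by
      intro i
      induction i with
      | zero =>
        intro _
        have h0 : eW j 0 = eF := rfl
        rw [h0, hBad]
        rcases hM with h | h
        · exact Or.inr ⟨h, h⟩
        · exact Or.inl ⟨h, h⟩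
      | succ i ih =>
        intro hi
        have h1 := ih (by omega)
        have h2 := hcon i (by omega)
        have h3 : Betw (f (eW j i)) (f (eW j (i + 1))) (f (eL j i)) :=
          hf _ (c8_m1 φ hj (by rw [hgc]; omega))
        rw [hBad] at h1 h2 ⊢
        show (f (eW j (i + 1)) < f eM ∧ f eF < f eM) ∨ (f eM < f (eW j (i + 1)) ∧ f eM < f eF)
        rcases h1 with h1 | h1
        · rcases h2 with h2 | h2
          · left
            refine ⟨?_, h1.2⟩
            rcases h3 with h3 | h3
            · exact h3.2.trans h2.1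
            · exact h3.2.trans h1.1
          · exact absurd h1.2 (not_lt.2 h2.2.le)
        · rcases h2 with h2 | h2
          · exact absurd h1.2 (not_lt.2 h2.2.le)
          · right
            refine ⟨?_, h1.2⟩
            rcases h3 with h3 | h3
            · exact h1.1.trans h3.1
            · exact h2.1.trans h3.1
    have h1 := hW cl.length le_rfl
    have h2 : Betw (f (eW j cl.length)) (f eM) (f eF) := by
      have := hf _ (c8_m2 φ hj)
      rw [hgc] at this
      exact this
    rw [hBad] at h1
    rcases h1 with h1 | h1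
    · rcases h2 with h2 | h2
      · exact absurd h1.2 (not_lt.2 h2.2.le)
      · exact absurd h1.1 (not_lt.2 h2.2.le)
    · rcases h2 with h2 | h2
      · exact absurd h1.1 (not_lt.2 h2.1.le)
      · exact absurd h1.2 (not_lt.2 h2.1.le)
  obtain ⟨i, hi, hnb⟩ := hex
  obtain ⟨hlv, hls⟩ := c8_ev φ hgc hi
  refine ⟨cl[i], List.getElem_mem hi, ?_⟩
  rcases Bool.eq_false_or_eq_true cl[i].2 with ht | hF
  · rw [ht, ha]
    refine decide_eq_true ⟨j, i, hj, by rw [hgc]; exact hi, hlv, by rw [hls, ht], hnb⟩
  · rw [hF, ha]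
    refine decide_eq_false ?_
    rintro ⟨j', i', hj', hi', hlv', hls', hnb'⟩
    have h3 : Betw (f (eL j i)) (f eM) (f (eL j' i')) :=
      hf _ (c8_m3 φ hj (by rw [hgc]; exact hi) hj' hi' (by rw [hlv, hlv'])
        (by rw [hls, hls', hF]; decide))
    rw [hBad] at hnb hnb'
    rcases hM with hM | hM
    · rcases h3 with h3 | h3
      · exact hnb' (Or.inr ⟨h3.2, hM⟩)
      · exact hnb (Or.inr ⟨h3.2, hM⟩)
    · rcases h3 with h3 | h3
      · exact hnb (Or.inl ⟨h3.1, hM⟩)
      · exact hnb' (Or.inl ⟨h3.1, hM⟩)

end Pool.Agent.LibPcn
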