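import Pool.Agent.LibPcn.CDefs

set_option autoImplicit false

/-!
Row PCN9. From a satisfying assignment to a solution of the betweenness problem.
Sketch. Let `val j i : Bool` be the value of the literal number `i` of the clause number `j` under
`a` (true iff `∃ v, lv φ j i = some v ∧ a v = ls φ j i`). Define `w j : ℕ → ℝ` by recursion: `w j 0 = -2`,
`w j (i + 1) = if w j i < 0 then (if val j i then 1 / 2 else (w j i - 1) / 2) else (if val j i then
(w j i + 1) / 2 else w j i / 2)`. Invariant: `-2 ≤ w < -1` or `0 < w < 1`; and `0 < w j i` as soon as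
`val j i' = true` for some `i' < i`. Let `f (2, _, _) = 0`, `f (3, _, _) = -2`,
`f (4, j, i) = if val j i then 1 else -1`, `f (5, j, i) = w j i`, `f = 0` otherwise
(`f x = if x.1 = 3 then -2 else if x.1 = 4 then ... `). Note `eW j 0 = eF`, so `f (eW j i) = w j i` for
all `i`. Check the three kinds of triples (`List.mem_append`, `List.mem_flatMap`, ...).
Complementary literals have opposite values (the common variable exists since `i` is less than the
length). For the last kind: every clause has a true literal.
-/

namespace Pool.Agent.LibPcn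

open SimpleGraph Pool.Agent.LibPcg Pool.Agent.LibOpc

private noncomputable def wst (b : Bool) (w : ℝ) : ℝ :=
  if w < 0 then (if b = true then 1 / 2 else (w - 1) / 2)
  else (if b = true then (w + 1) / 2 else w / 2)

private noncomputable def wf (p : ℕ → Bool) : ℕ → ℝ
  | 0 => -2
  | (i + 1) => wst (p i) (wf p i)

private theorem wst_ok (b : Bool) (w : ℝ) (hw : (-2 ≤ w ∧ w < -1) ∨ (0 < w ∧ w < 1)) :
    ((-2 ≤ wst b w ∧ wst b w < -1) ∨ (0 < wst b w ∧ wst b w < 1)) ∧
    (0 < w → 0 < wst b w) ∧ (b = true → 0 < wst b w) ∧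
    Betw w (wst b w) (if b = true then 1 else -1) := by
  unfold wst Betw
  rcases hw with ⟨h1, h2⟩ | ⟨h1, h2⟩
  · rw [if_pos (by linarith)]
    cases b
    · simp only [Bool.false_eq_true, if_false]
      refine ⟨Or.inl ⟨by linarith, by linarith⟩, fun h => by linarith, fun h => h.elim, Or.inl ⟨by linarith, by linarith⟩⟩
    · simp only [if_true]
      refine ⟨Or.inr ⟨by norm_num, by norm_num⟩, fun h => by norm_num, fun h => by norm_num, Or.inl ⟨by linarith, by norm_num⟩⟩
  · rw [if_neg (by linarith)]
    cases b
    · simp only [Bool.false_eq_true, if_false]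
      refine ⟨Or.inr ⟨by linarith, by linarith⟩, fun h => by linarith, fun h => h.elim, Or.inr ⟨by linarith, by linarith⟩⟩
    · simp only [if_true]
      refine ⟨Or.inr ⟨by linarith, by linarith⟩, fun h => by linarith, fun h => by linarith, Or.inl ⟨by linarith, by linarith⟩⟩

private theorem wf_ok (p : ℕ → Bool) : ∀ i, (-2 ≤ wf p i ∧ wf p i < -1) ∨ (0 < wf p i ∧ wf p i < 1)
  | 0 => Or.inl ⟨by simp [wf], by simp only [wf]; norm_num⟩
  | (i + 1) => (wst_ok (p i) (wf p i) (wf_ok p i)).1

private theorem wf_pos (p : ℕ → Bool) (i : ℕ) (hp : p i = true) : ∀ n, i < n → 0 < wf p n := by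
  intro n
  induction n with
  | zero => intro h; omega
  | succ n ih =>
    intro h
    have h1 := wst_ok (p n) (wf p n) (wf_ok p n)
    rcases Nat.lt_succ_iff_lt_or_eq.1 h with h2 | h2
    · exact h1.2.1 (ih h2)
    · subst h2
      exact h1.2.2.1 hp

private theorem lv_eq {V : Type} (φ : List (List (V × Bool))) {j i : ℕ}
    (hi : i < (φ.getD j []).length) : lv φ j i = some ((φ.getD j [])[i]).1 := by
  unfold lv
  rw [List.getD_eq_getElem _ _ (by rw [List.length_map]; exact hi), List.getElem_map]

private theorem ls_eq {V : Type} (φ : List (List (V × Bool))) {j i : ℕ}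
    (hi : i < (φ.getD j []).length) : ls φ j i = ((φ.getD j [])[i]).2 := by
  unfold ls
  rw [List.getD_eq_getElem _ _ (by rw [List.length_map]; exact hi), List.getElem_map]

theorem betw_of_sat {V : Type} [DecidableEq V] (φ : List (List (V × Bool)))
    (h : ∃ a : V → Bool, ∀ c ∈ φ, ∃ l ∈ c, a l.1 = l.2) :
    ∃ f : Ba → ℝ, (∀ x, -2 ≤ f x ∧ f x ≤ 1) ∧
      ∀ T ∈ triples φ, Betw (f T.1) (f T.2.1) (f T.2.2) := by
  classical
  obtain ⟨a, ha⟩ := h
  let val : ℕ → ℕ → Bool := fun j i => decide (∃ v, lv φ j i = some v ∧ a v = ls φ j i)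
  let f : Ba → ℝ := fun x => if x.1 = 3 then -2 else if x.1 = 4 then (if val x.2.1 x.2.2 = true then 1 else -1)
    else if x.1 = 5 then wf (val x.2.1) x.2.2 else 0
  have hfM : f eM = 0 := by simp [f, eM]
  have hfF : f eF = -2 := by simp [f, eF]
  have hfL : ∀ j i, f (eL j i) = if val j i = true then 1 else -1 := by
    intro j i
    simp [f, eL]
  have hfW : ∀ j i, f (eW j i) = wf (val j) i := by
    intro j i
    unfold eW
    by_cases hi : i = 0
    · rw [if_pos hi, hfF, hi]
      rfl
    · rw [if_neg hi]
      simp [f]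
  refine ⟨f, ?_, ?_⟩
  · intro x
    simp only [f]
    split_ifs with h1 h2 h3 h4
    · constructor <;> norm_num
    · constructor <;> norm_num
    · constructor <;> norm_num
    · rcases wf_ok (val x.2.1) x.2.2 with ⟨h5, h6⟩ | ⟨h5, h6⟩
      · exact ⟨h5, by linarith⟩
      · exact ⟨by linarith, h6.le⟩
    · constructor <;> norm_num
  · intro T hT
    unfold triples at hT
    rw [List.mem_append, List.mem_append] at hT
    rcases hT with hT | hT | hT
    · rw [List.mem_flatMap] at hT
      obtain ⟨j, hj, hT⟩ := hT
      rw [List.mem_flatMap] at hT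
      obtain ⟨i, hi, hT⟩ := hT
      rw [List.mem_flatMap] at hT
      obtain ⟨j', hj', hT⟩ := hT
      rw [List.mem_flatMap] at hT
      obtain ⟨i', hi', hT⟩ := hT
      rw [List.mem_range] at hj hi hj' hi'
      split_ifs at hT with hc
      · rw [List.mem_singleton] at hT
        subst hT
        simp only [Bool.and_eq_true, Bool.not_eq_true', decide_eq_true_eq, decide_eq_false_iff_not] at hc
        obtain ⟨h1, h2⟩ := hc
        show Betw (f (eL j i)) (f eM) (f (eL j' i'))
        rw [hfL, hfL, hfM]
        have e1 := lv_eq φ hi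
        have e2 := lv_eq φ hi'
        have v1 : val j i = decide (a ((φ.getD j [])[i]).1 = ls φ j i) := by
          simp only [val]
          rw [decide_eq_decide, e1]
          constructor
          · rintro ⟨v, hv, hv'⟩
            rw [Option.some.inj hv]
            exact hv'
          · intro hv
            exact ⟨_, rfl, hv⟩
        have v2 : val j' i' = decide (a ((φ.getD j [])[i]).1 = ls φ j' i') := by
          simp only [val]
          rw [decide_eq_decide, ← h1, e1]
          constructor
          · rintro ⟨v, hv, hv'⟩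
            rw [Option.some.inj hv]
            exact hv'
          · intro hv
            exact ⟨_, rfl, hv⟩
        rw [v1, v2]
        unfold Betw
        generalize a ((φ.getD j [])[i]).1 = b at *
        generalize ls φ j i = b1 at *
        generalize ls φ j' i' = b2 at *
        cases b <;> cases b1 <;> cases b2 <;> simp at h2 ⊢
      · exact absurd hT (List.not_mem_nil)
    · rw [List.mem_flatMap] at hT
      obtain ⟨j, hj, hT⟩ := hT
      rw [List.mem_map] at hT
      obtain ⟨i, hi, rfl⟩ := hT
      show Betw (f (eW j i)) (f (eW j (i + 1))) (f (eL j i))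
      rw [hfW, hfW, hfL]
      exact (wst_ok (val j i) (wf (val j) i) (wf_ok (val j) i)).2.2.2
    · rw [List.mem_map] at hT
      obtain ⟨j, hj, rfl⟩ := hT
      rw [List.mem_range] at hj
      show Betw (f (eW j (φ.getD j []).length)) (f eM) (f eF)
      rw [hfW, hfM, hfF]
      right
      refine ⟨by norm_num, ?_⟩
      have hc : φ.getD j [] ∈ φ := by
        rw [List.getD_eq_getElem _ _ hj]
        exact List.getElem_mem hj
      obtain ⟨l, hl, hal⟩ := ha _ hc
      obtain ⟨i, hi, rfl⟩ := List.mem_iff_getElem.1 hl
      refine wf_pos (val j) i ?_ _ hi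
      simp only [val]
      rw [decide_eq_true_eq, lv_eq φ hi, ls_eq φ hi]
      exact ⟨_, rfl, hal⟩

end Pool.Agent.LibPcn
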