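import Pool.Agent.LibPcn.CDefs
import Pool.Agent.LibPcn.C5
import Pool.Agent.LibPcn.C6
import Pool.Agent.LibPcn.C7
import Pool.Agent.LibPcn.C8
import Pool.Agent.LibPcn.C9
import Pool.Agent.LibPcn.C10
import Pool.Agent.LibPcn.C12
import Pool.Agent.LibPcn.C13
import Pool.Agent.LibPcn.C14
import Pool.Agent.LibPcn.C15

set_option autoImplicit false

/-!
Row PCN18. Assembly: the reduction is correct.
Sketch. `TL = triples φ`, `triples_ok`, `quarts_ok`, `outV_pos` (`bases TL ≠ []`). From left to right: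
`betw_of_sat`, `delta_of_betw`, `exists_heights`, `mid_of_heights`, `pcg_iff`. From right to left: `pcg_iff`,
`rep_of_mid`, `Rep.quartets` (`z`), `f x = d (z eA) (z x) - d (z eB) (z x)`; for `T ∈ TL`, `T = tr TL r`
(`exists_tr`), the four quartets `quart1 TL r` are in `quarts TL` (`mem_quarts`);
`betw_of_quartets` with `A = z eA`, `E = z eB`, `p = z (eP r)`, `q = z (eQ r)`; `sat_of_betw`.
-/

namespace Pool.Agent.LibPcn

open SimpleGraph Pool.Agent.LibPcg Pool.Agent.LibOpc

theorem sat_iff_pcg {V : Type} [DecidableEq V] (φ : List (List (V × Bool))) :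
    (∃ a : V → Bool, ∀ c ∈ φ, ∃ l ∈ c, a l.1 = l.2) ↔
      IsPCG (outG (bases (triples φ)) (quarts (triples φ))) := by
  have hT := triples_ok φ
  have hQ := quarts_ok (triples φ) hT
  have hB : bases (triples φ) ≠ [] := by
    unfold bases
    intro h
    simp at h
  have hne := outV_pos (bases (triples φ)) (quarts (triples φ)) hB
  have : Nonempty (Fin (outV (bases (triples φ)) (quarts (triples φ))).length) := ⟨⟨0, hne⟩⟩
  constructor
  · intro h
    obtain ⟨f, hf1, hf⟩ := betw_of_sat φ h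
    obtain ⟨δ, hδ, h3, hs⟩ := delta_of_betw (triples φ) hT f hf1 hf
    obtain ⟨hX, hY, h1, h2, h4⟩ := exists_heights (bases (triples φ)) (quarts (triples φ)) hQ δ hδ
      h3 hs
    exact (pcg_iff _).2 (mid_of_heights (bases (triples φ)) (quarts (triples φ)) δ hδ h3 hX hY
      h1 h2 h4)
  · intro h
    obtain ⟨d, a, b, hd, -, -, hadj⟩ := (pcg_iff _).1 h
    obtain ⟨R⟩ := rep_of_mid (bases (triples φ)) (quarts (triples φ)) hne d hd a b hadj
    obtain ⟨z, hz⟩ := R.quartets hQ
    refine sat_of_betw φ (fun x => R.d (z eA) (z x) - R.d (z eB) (z x)) ?_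
    intro T hTm
    obtain ⟨r, hr, hrT⟩ := exists_tr (triples φ) T hTm
    have hq : ∀ q ∈ quart1 (triples φ) r, Split R.d (z q.1) (z q.2.1) (z q.2.2.1) (z q.2.2.2) :=
      fun q hq => hz q ((mem_quarts (triples φ) q).2 ⟨r, hr, hq⟩)
    have q1 := hq (eA, eP r, eB, T.1) (by simp [quart1, hrT])
    have q2 := hq (eA, T.2.2, eB, eQ r) (by simp [quart1, hrT])
    have q3 := hq (eA, T.1, T.2.1, eQ r) (by simp [quart1, hrT])
    have q4 := hq (eB, T.2.2, T.2.1, eP r) (by simp [quart1, hrT])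
    exact betw_of_quartets R.four (z eA) (z eB) (z T.1) (z T.2.1) (z T.2.2) (z (eP r)) (z (eQ r))
      q1 q2 q3 q4

end Pool.Agent.LibPcn
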