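import Pool.Agent.LibPcn.CDefs
import Pool.Agent.LibPcn.C16
import Pool.Agent.LibPcg.PC6

set_option autoImplicit false

/-!
Every graph with `n` vertices is a `k`-interval-PCG for all `k ≥ n ^ 2`.
-/

namespace Pool.Agent.LibPcn

open SimpleGraph Pool.Agent.LibPcg Pool.Agent.LibOpc

/-- sums of two different powers of two determine the exponents -/
theorem pow_sum_inj {a b c e : ℕ} (hab : a < b) (hce : c < e) (h : 2 ^ a + 2 ^ b = 2 ^ c + 2 ^ e) :
    a = c ∧ b = e := by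
  have key : ∀ {a b c e : ℕ}, a < b → c < e → b < e → 2 ^ a + 2 ^ b < 2 ^ c + 2 ^ e := by
    intro a b c e hab hce hbe
    have h1 : 2 ^ a < 2 ^ b := Nat.pow_lt_pow_right (by norm_num) hab
    have h2 : 2 ^ (b + 1) ≤ 2 ^ e := Nat.pow_le_pow_right (by norm_num) hbe
    have h3 : 0 < 2 ^ c := by positivity
    rw [pow_succ] at h2
    omega
  have hbe : b = e := by
    rcases lt_trichotomy b e with h1 | h1 | h1
    · exact absurd h (key hab hce h1).ne
    · exact h1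
    · exact absurd h (key hce hab h1).ne'
  subst hbe
  refine ⟨Nat.pow_right_injective (le_refl 2) ?_, rfl⟩
  show 2 ^ a = 2 ^ c
  omega

theorem isIntPCG_of_le {n k : ℕ} (hn : 1 ≤ n) (hk : n * n ≤ k) (G : SimpleGraph (Fin n)) :
    IsIntPCG k G := by
  classical
  have : Nonempty (Fin n) := ⟨⟨0, hn⟩⟩
  rw [intPCG_iff]
  let ω : Fin n → ℝ := fun x => ((2 ^ (x : ℕ) : ℕ) : ℝ)
  have hω : ∀ x, 0 ≤ ω x := fun x => Nat.cast_nonneg _
  obtain ⟨d, hd, hd'⟩ : ∃ d : Fin n → Fin n → ℝ, FourPt d ∧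
      ∀ x y, x ≠ y → d x y = ω x + ω y := by
    refine ⟨_, fourPt_star (fun _ => true) ω hω 0 le_rfl, fun x y hxy => ?_⟩
    simp only [if_neg hxy, if_true, add_zero]
  -- the pair of vertices which belongs to the index `i`
  let p : Fin k → Fin n := fun i => ⟨i.1 / n % n, Nat.mod_lt _ hn⟩
  let q : Fin k → Fin n := fun i => ⟨i.1 % n, Nat.mod_lt _ hn⟩
  refine ⟨d, fun i => if G.Adj (p i) (q i) then d (p i) (q i) else 0,
    fun i => if G.Adj (p i) (q i) then d (p i) (q i) + 1 / 2 else 0, hd, fun i => ?_, ?_⟩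
  · beta_reduce
    split_ifs
    · have := hd.nonneg (p i) (q i)
      exact ⟨this, by linarith⟩
    · exact ⟨le_rfl, le_rfl⟩
  intro u v
  constructor
  · intro h
    refine ⟨h.ne, ?_⟩
    have hlt : u.1 * n + v.1 < k := by
      have h1 := u.2
      have h2 := v.2
      have : u.1 * n + v.1 < n * n := by nlinarith
      omega
    have e1 : (u.1 * n + v.1) / n = u.1 := by
      rw [mul_comm, Nat.mul_add_div hn, Nat.div_eq_of_lt v.2, add_zero]
    have e2 : (u.1 * n + v.1) % n = v.1 := by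
      rw [mul_comm, Nat.mul_add_mod, Nat.mod_eq_of_lt v.2]
    have hp : p ⟨u.1 * n + v.1, hlt⟩ = u := by
      apply Fin.ext
      show (u.1 * n + v.1) / n % n = u.1
      rw [e1, Nat.mod_eq_of_lt u.2]
    have hq : q ⟨u.1 * n + v.1, hlt⟩ = v := by
      apply Fin.ext
      exact e2
    refine ⟨⟨u.1 * n + v.1, hlt⟩, ?_⟩
    simp only [hp, hq, if_pos h]
    exact ⟨le_rfl, by linarith⟩
  · rintro ⟨huv, i, h1, h2⟩
    beta_reduce at h1 h2
    by_cases hadj : G.Adj (p i) (q i)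
    · rw [if_pos hadj] at h1 h2
      -- the distances are equal, so the pairs are equal
      have hne := hadj.ne
      rw [hd' _ _ hne, hd' _ _ huv] at h1 h2
      have h3 : (2 ^ (u : ℕ) + 2 ^ (v : ℕ) : ℕ) = 2 ^ (p i : ℕ) + 2 ^ (q i : ℕ) := by
        have h4 : ((2 ^ (p i : ℕ) + 2 ^ (q i : ℕ) : ℕ) : ℝ) ≤ ((2 ^ (u : ℕ) + 2 ^ (v : ℕ) : ℕ) : ℝ) := by
          rw [Nat.cast_add, Nat.cast_add]
          exact h1
        have h5 : ((2 ^ (u : ℕ) + 2 ^ (v : ℕ) : ℕ) : ℝ) < ((2 ^ (p i : ℕ) + 2 ^ (q i : ℕ) + 1 : ℕ) : ℝ) := by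
          rw [Nat.cast_add, Nat.cast_add, Nat.cast_add]
          have h6 : ω u + ω v < ω (p i) + ω (q i) + 1 / 2 := h2
          have h7 : ((2 ^ (u : ℕ) : ℕ) : ℝ) + ((2 ^ (v : ℕ) : ℕ) : ℝ) <
              ((2 ^ (p i : ℕ) : ℕ) : ℝ) + ((2 ^ (q i : ℕ) : ℕ) : ℝ) + 1 / 2 := h6
          rw [Nat.cast_one]
          linarith
        have h4' := Nat.cast_le.1 h4
        have h5' := Nat.cast_lt.1 h5
        omega
      have hne' : (p i : ℕ) ≠ (q i : ℕ) := fun h => hne (Fin.ext h)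
      have huv' : (u : ℕ) ≠ (v : ℕ) := fun h => huv (Fin.ext h)
      rcases lt_or_gt_of_ne hne' with h4 | h4 <;> rcases lt_or_gt_of_ne huv' with h5 | h5
      · obtain ⟨h6, h7⟩ := pow_sum_inj h5 h4 h3
        rw [Fin.ext h6, Fin.ext h7]
        exact hadj
      · obtain ⟨h6, h7⟩ := pow_sum_inj h5 h4 (by rw [add_comm]; exact h3)
        rw [Fin.ext h6, Fin.ext h7]
        exact hadj.symm
      · obtain ⟨h6, h7⟩ := pow_sum_inj h5 h4 (by rw [add_comm (2 ^ (q i : ℕ))]; exact h3)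
        rw [Fin.ext h6, Fin.ext h7]
        exact hadj.symm
      · obtain ⟨h6, h7⟩ := pow_sum_inj h5 h4 (by rw [add_comm, add_comm (2 ^ (q i : ℕ))]; exact h3)
        rw [Fin.ext h6, Fin.ext h7]
        exact hadj
    · rw [if_neg hadj] at h1 h2
      exact absurd h1 (not_le.2 h2)

end Pool.Agent.LibPcn
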