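import Pool.Agent.LibOpc.ODefs

set_option autoImplicit false

/-!
Definitions for the recognition problem of pairwise compatibility graphs (problem MP_dff376_lc):
multi-interval PCGs, items, gadgets, the output graph of the reduction.
-/

namespace Pool.Agent.LibPcn

open SimpleGraph Pool.Agent.LibPcg Pool.Agent.LibOpc

/-- `G` is a `k`-interval-PCG: one tree, `k` pairwise disjoint intervals. -/
def IsIntPCG {V : Type} (k : ℕ) (G : SimpleGraph V) : Prop :=
  ∃ (D : WTree V) (I : Fin k → Set ℝ), (∀ i, IsInterval (I i)) ∧
    (∀ i j, i ≠ j → Disjoint (I i) (I j)) ∧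
    ∀ u v, G.Adj u v ↔ u ≠ v ∧ ∃ i, ∃ t ∈ I i, D.Dist u v t

/-- `G` is a PCG. -/
def IsPCG {V : Type} (G : SimpleGraph V) : Prop :=
  ∃ (D : WTree V) (I : Set ℝ), IsInterval I ∧ ∀ u v, G.Adj u v ↔ u ≠ v ∧ ∃ t ∈ I, D.Dist u v t

/-! ### Splits -/

/-- the path from `p` to `q` and the path from `r` to `s` are disjoint -/
def Split {V : Type} (d : V → V → ℝ) (p q r s : V) : Prop :=
  d p q + d r s < d p r + d q s ∧ d p q + d r s < d p s + d q r

/-- `y` is strictly between `x` and `z` -/
def Betw (x y z : ℝ) : Prop := (x < y ∧ y < z) ∨ (z < y ∧ y < x)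

/-! ### Items -/

/-- base elements: kind and two numbers -/
abbrev Ba : Type := ℕ × ℕ × ℕ

/-- items: base element, index, number of the gadget (`0`: none) -/
abbrev It : Type := Ba × ℕ × ℕ

/-- quartets of base elements; `(a, b, c, e)` stands for `a b | c e` -/
abbrev Qt : Type := Ba × Ba × Ba × Ba

/-- the rough distance of two base elements -/
def dd (a b : Ba) : ℕ := if a = b then 0 else 3

/-- the relation between the items on the first side and the items on the second side -/
def Phi (s t : It) : Bool :=
  decide (s.2.1 ≤ t.2.1 + dd s.1 t.1) && !(decide (s.2.2 = t.2.2) && !decide (s.2.2 = 0))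

/-- the quartet number `r` -/
def qt (Q : List Qt) (r : ℕ) : Qt := Q.getD r ((0, 0, 0), (0, 0, 0), (0, 0, 0), (0, 0, 0))

/-- the number of indices, for `n` quartets -/
def numR (n : ℕ) : ℕ := 9 * (n + 2)

/-- the items without gadget -/
def plain (B : List Ba) (n : ℕ) : List It :=
  B.flatMap fun a => (List.range (numR n)).map fun i => (a, i, 0)

/-- the items on the first side, for the base elements `B` and the quartets `Q` -/
def itX (B : List Ba) (Q : List Qt) : List It :=
  plain B Q.length ++ (List.range Q.length).flatMap fun r =>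
    [((qt Q r).1, 9 * r + 9, 2 * r + 1), ((qt Q r).2.2.1, 9 * r + 9, 2 * r + 2)]

/-- the items on the second side -/
def itY (B : List Ba) (Q : List Qt) : List It :=
  plain B Q.length ++ (List.range Q.length).flatMap fun r =>
    [((qt Q r).2.1, 9 * r + 6, 2 * r + 1), ((qt Q r).2.2.2, 9 * r + 6, 2 * r + 2)]

/-- the four base elements of the quartet are different, and they are in `B` -/
def QOk (B : List Ba) (q : Qt) : Prop :=
  (q.1 ∈ B ∧ q.2.1 ∈ B ∧ q.2.2.1 ∈ B ∧ q.2.2.2 ∈ B) ∧
  (q.1 ≠ q.2.1 ∧ q.1 ≠ q.2.2.1 ∧ q.1 ≠ q.2.2.2 ∧ q.2.1 ≠ q.2.2.1 ∧ q.2.1 ≠ q.2.2.2 ∧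
    q.2.2.1 ≠ q.2.2.2)

/-- A representation of the relation `Phi` by distances and a threshold `τ`. -/
structure Rep (B : List Ba) (Q : List Qt) (V : Type) where
  /-- the distance -/
  d : V → V → ℝ
  four : FourPt d
  /-- the points which stand for the items on the first side -/
  X : It → V
  /-- the points which stand for the items on the second side -/
  Y : It → V
  /-- the threshold -/
  τ : ℝ
  rep : ∀ s ∈ itX B Q, ∀ t ∈ itY B Q, (Phi s t = true ↔ τ ≤ d (X s) (Y t))

/-! ### The output graph -/

/-- codes of the vertices: side, number of the copy, item -/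
abbrev Vc : Type := Bool × ℕ × It

/-- the vertices of the output graph -/
def outV (B : List Ba) (Q : List Qt) : List Vc :=
  (List.range 3).flatMap fun c =>
    ((itX B Q).map fun s => (true, c, s)) ++ ((itY B Q).map fun t => (false, c, t))

/-- the relation between a vertex of the first side and a vertex of the second side -/
def crel (x y : Vc) : Bool := !decide (x.2.1 = y.2.1) || Phi x.2.2 y.2.2

/-- adjacency of two codes of vertices -/
def gadj (x y : Vc) : Bool := (x.1 && (!y.1 && crel x y)) || (!x.1 && (y.1 && crel y x))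

theorem gadj_comm (x y : Vc) : gadj x y = gadj y x := by
  unfold gadj
  cases x.1 <;> cases y.1 <;> simp

/-- the output graph -/
def outG (B : List Ba) (Q : List Qt) : SimpleGraph (Fin (outV B Q).length) where
  Adj i j := gadj (outV B Q)[i] (outV B Q)[j] = true
  symm := ⟨fun i j h => by rw [gadj_comm]; exact h⟩
  loopless := ⟨fun i h => by
    unfold gadj at h
    revert h
    cases ((outV B Q)[i]).1 <;> simp⟩

/-! ### From formulas to triples to quartets -/

/-- the left end `α` -/
def eA : Ba := (0, 0, 0)
/-- the right end `β` -/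
def eB : Ba := (1, 0, 0)
/-- the middle -/
def eM : Ba := (2, 0, 0)
/-- the element on the side of the false literals -/
def eF : Ba := (3, 0, 0)
/-- the literal number `i` of the clause number `j` -/
def eL (j i : ℕ) : Ba := (4, j, i)
/-- the auxiliary element number `i` of the clause number `j` -/
def eW (j i : ℕ) : Ba := if i = 0 then eF else (5, j, i)
/-- the first additional element of the triple number `r` -/
def eP (r : ℕ) : Ba := (6, r, 0)
/-- the second additional element of the triple number `r` -/
def eQ (r : ℕ) : Ba := (7, r, 0)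

/-- triples of base elements; `(a, b, c)` stands for `b` between `a` and `c` -/
abbrev Tr : Type := Ba × Ba × Ba

/-- the triple number `r` -/
def tr (TL : List Tr) (r : ℕ) : Tr := TL.getD r ((0, 0, 0), (0, 0, 0), (0, 0, 0))

/-- the variable of the literal number `i` of the clause number `j` -/
def lv {V : Type} (φ : List (List (V × Bool))) (j i : ℕ) : Option V :=
  ((φ.getD j []).map fun l => some l.1).getD i none

/-- the sign of the literal number `i` of the clause number `j` -/
def ls {V : Type} (φ : List (List (V × Bool))) (j i : ℕ) : Bool :=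
  ((φ.getD j []).map fun l => l.2).getD i false

/-- the triples of a formula -/
def triples {V : Type} [DecidableEq V] (φ : List (List (V × Bool))) : List Tr :=
  ((List.range φ.length).flatMap fun j => (List.range (φ.getD j []).length).flatMap fun i =>
    (List.range φ.length).flatMap fun j' => (List.range (φ.getD j' []).length).flatMap fun i' =>
      if decide (lv φ j i = lv φ j' i') && !decide (ls φ j i = ls φ j' i') then
        [(eL j i, eM, eL j' i')] else []) ++
  (((List.range φ.length).flatMap fun j => (List.range (φ.getD j []).length).map fun i =>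
    (eW j i, eW j (i + 1), eL j i)) ++
  ((List.range φ.length).map fun j => (eW j (φ.getD j []).length, eM, eF)))

/-- the quartets of the triple number `r` -/
def quart1 (TL : List Tr) (r : ℕ) : List Qt :=
  [(eA, eP r, eB, (tr TL r).1), (eA, (tr TL r).2.2, eB, eQ r),
    (eA, (tr TL r).1, (tr TL r).2.1, eQ r), (eB, (tr TL r).2.2, (tr TL r).2.1, eP r)]

/-- the quartets of a list of triples -/
def quarts (TL : List Tr) : List Qt := (List.range TL.length).flatMap fun r => quart1 TL r

/-- the base elements of a list of triples -/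
def bases (TL : List Tr) : List Ba :=
  [eA, eB] ++ (List.range TL.length).flatMap fun r =>
    [(tr TL r).1, (tr TL r).2.1, (tr TL r).2.2, eP r, eQ r]

/-- the triple consists of elements of the kinds `2, ..., 5`, and the middle is different from the
ends -/
def TOk (T : Tr) : Prop :=
  (2 ≤ T.1.1 ∧ T.1.1 ≤ 5) ∧ (2 ≤ T.2.1.1 ∧ T.2.1.1 ≤ 5) ∧ (2 ≤ T.2.2.1 ∧ T.2.2.1 ≤ 5) ∧
  T.1 ≠ T.2.1 ∧ T.2.1 ≠ T.2.2

end Pool.Agent.LibPcn
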