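import Pool.Agent.LibPcn.CDefs
import Pool.Agent.LibPcg.PNDefs
import Pool.Agent.LibPcg.MDefs
import Pool.Agent.LibOpc.ONDefs

set_option autoImplicit false

/-!
Definitions for the machine part: languages, verifier, the reduction as a function on words.
-/

namespace Pool.Agent.LibPcn

open SimpleGraph Pool.Agent.LibPcg Pool.Agent.LibOpc Pool.Agent.LibComplexity

/-- the recognition problem of `k`-interval-PCGs, `k` being part of the input -/
def IntPCG : Set (List Bool) :=
  {x | ∃ (n k : ℕ) (G : SimpleGraph (Fin n)), 1 ≤ k ∧ x = encode G k ∧ IsIntPCG k G}

/-- the recognition problem of PCGs (each of the three problems with `k = 1`) -/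
def PCG1 : Set (List Bool) :=
  {x | ∃ (n : ℕ) (G : SimpleGraph (Fin n)), x = encode G 1 ∧ IsPCG G}

/-! ### The verifier -/

/-- number of bits of each number (`n` vertices, `2 * k` thresholds) -/
def bI (n k : ℕ) : ℕ :=
  (n * n + k * 2) * (n * n + k * 2) + 2 * (n * n + k * 2) + 1

/-- checks that the first `n * n` numbers of `L` bits are a four point function -/
def okTree (y : List Bool) (n L : ℕ) : Bool :=
  ((List.range n).all fun x => (List.range n).all fun x' => (List.range n).all fun z =>
    (List.range n).all fun u =>
      leq2 y L ((x * n + x') * L) ((z * n + u) * L) ((x * n + z) * L) ((x' * n + u) * L) ||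
      leq2 y L ((x * n + x') * L) ((z * n + u) * L) ((x * n + u) * L) ((x' * n + z) * L)) &&
  (((List.range n).all fun x => leq2 y L ((x * n + x) * L) ((x * n + x) * L) y.length y.length) &&
  ((List.range n).all fun x => (List.range n).all fun x' =>
    leq2 y L ((x * n + x') * L) ((x * n + x') * L) ((x' * n + x) * L) ((x' * n + x) * L)))

/-- the distance of `u` and `v` is between the two thresholds number `m`, `m + 1` -/
def fIn (y : List Bool) (n L m u v : ℕ) : Bool :=
  leq2 y L (m * L) (m * L) ((u * n + v) * L) ((u * n + v) * L) &&
  !leq2 y L ((m + 1) * L) ((m + 1) * L) ((u * n + v) * L) ((u * n + v) * L)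

/-- all checks, for `k` intervals -/
def okI (y b : List Bool) (n k : ℕ) : Bool :=
  decide (1 ≤ n) && (decide (1 ≤ k) && (decide (b.length = n * n) && (okTree y n (bI n k) &&
    ((List.range n).all fun u => (List.range n).all fun v =>
      decide (b.getD (u * n + v) false = (!decide (u = v) && (List.range k).any fun i =>
        fIn y n (bI n k) (n * n + 2 * i) u v))))))

/-! ### The reduction -/

/-- the adjacency matrix of the output graph -/
def gbits (l : List Vc) : List Bool := l.flatMap fun x => l.map fun y => gadj x y

/-- the vertices of the output graph of a formula -/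
def outL {V : Type} [DecidableEq V] (φ : List (List (V × Bool))) : List Vc :=
  outV (bases (triples φ)) (quarts (triples φ))

/-- the reduction: graph and the number `1` -/
def redK {V : Type} [DecidableEq V] (φ : List (List (V × Bool))) : List Bool :=
  word ((outL φ).length, 1, gbits (outL φ))

end Pool.Agent.LibPcn
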