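import Pool.Agent.LibPcn.CMDefs
import Pool.Agent.LibPcg.PN6
import Pool.Agent.LibPcg.PN7
import Pool.Agent.LibPcg.PN8
import Pool.Agent.LibPcg.PN10

set_option autoImplicit false

/-!
The tree part of the verifier: soundness and completeness.
-/

namespace Pool.Agent.LibPcn

open SimpleGraph Pool.Agent.LibPcg Pool.Agent.LibOpc

theorem fIn_iff (y : List Bool) (n L m u v : ℕ) : fIn y n L m u v = true ↔
    numAt y L (m * L) ≤ numAt y L ((u * n + v) * L) ∧
    numAt y L ((u * n + v) * L) < numAt y L ((m + 1) * L) := by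
  unfold fIn
  rw [Bool.and_eq_true, Bool.not_eq_true', ← Bool.not_eq_true, leq2_iff, leq2_iff]
  constructor
  · rintro ⟨h1, h2⟩
    exact ⟨by omega, by omega⟩
  · rintro ⟨h1, h2⟩
    exact ⟨by omega, by omega⟩

theorem okTree_iff (y : List Bool) (n L : ℕ) : okTree y n L = true ↔
    FourPt (fun u v : Fin n => ((numAt y L ((u * n + v) * L) : ℕ) : ℝ)) := by
  unfold okTree
  simp only [Bool.and_eq_true, List.all_eq_true, List.mem_range, Bool.or_eq_true, leq2_iff,
    numAt_end]
  constructor
  · rintro ⟨h4, h0, hs⟩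
    refine ⟨fun x => ?_, fun x x' => ?_, fun x x' z u => ?_⟩
    · have h := h0 x x.2
      have h' : numAt y L ((x * n + x) * L) = 0 := by omega
      show ((numAt y L ((x * n + x) * L) : ℕ) : ℝ) = 0
      rw [h', Nat.cast_zero]
    · have h1 := hs x x.2 x' x'.2
      have h2 := hs x' x'.2 x x.2
      show ((numAt y L ((x * n + x') * L) : ℕ) : ℝ) = ((numAt y L ((x' * n + x) * L) : ℕ) : ℝ)
      have h' : numAt y L ((x * n + x') * L) = numAt y L ((x' * n + x) * L) := by omega
      rw [h']
    · show ((numAt y L ((x * n + x') * L) : ℕ) : ℝ) + ((numAt y L ((z * n + u) * L) : ℕ) : ℝ) ≤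
        max (((numAt y L ((x * n + z) * L) : ℕ) : ℝ) + ((numAt y L ((x' * n + u) * L) : ℕ) : ℝ))
          (((numAt y L ((x * n + u) * L) : ℕ) : ℝ) + ((numAt y L ((x' * n + z) * L) : ℕ) : ℝ))
      rw [le_max_iff]
      rcases h4 x x.2 x' x'.2 z z.2 u u.2 with h | h
      · left
        exact_mod_cast h
      · right
        exact_mod_cast h
  · intro h
    refine ⟨fun x hx x' hx' z hz u hu => ?_, fun x hx => ?_, fun x hx x' hx' => ?_⟩
    · have h1 := h.four ⟨x, hx⟩ ⟨x', hx'⟩ ⟨z, hz⟩ ⟨u, hu⟩
      rw [le_max_iff] at h1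
      rcases h1 with h1 | h1
      · left
        exact_mod_cast h1
      · right
        exact_mod_cast h1
    · have h1 := h.self ⟨x, hx⟩
      have h2 : numAt y L ((x * n + x) * L) = 0 := by exact_mod_cast h1
      omega
    · have h1 := h.symm ⟨x, hx⟩ ⟨x', hx'⟩
      have h2 : numAt y L ((x * n + x') * L) = numAt y L ((x' * n + x) * L) := by
        exact_mod_cast h1
      omega

theorem tree_complete {n k : ℕ} (d : Fin n → Fin n → ℝ) (a b : Fin k → ℝ)
    (hd : FourPt d) (hab : ∀ i, 0 ≤ a i ∧ 0 ≤ b i) (M : ℕ)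
    (hM : (n * n + k * 2) * bI n k ≤ M) :
    ∃ y : List Bool, y.length = M ∧ okTree y n (bI n k) = true ∧ ∀ (i : Fin k) (u v : Fin n),
      fIn y n (bI n k) (n * n + 2 * i) u v = true ↔ a i ≤ d u v ∧ d u v < b i := by
  classical
  obtain ⟨d', a', h4, hcmp, hdb, hab'⟩ := nat_rep (V := Fin n) (J := Fin k × Bool) d hd
    (fun j => cond j.2 (a j.1) (b j.1)) (by
      rintro ⟨i, j⟩
      cases j
      · exact (hab i).2
      · exact (hab i).1) (n * n + k * 2) (by simp)
  have hL : (n * n + k * 2) * (n * n + k * 2) + 2 * (n * n + k * 2) + 1 = bI n k := rfl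
  rw [hL] at hdb hab'
  have hpos : 0 < 2 ^ bI n k := by positivity
  let val : ℕ → ℕ := fun p =>
    if h : p < n * n then
      (if h' : p / n < n ∧ p % n < n then d' ⟨p / n, h'.1⟩ ⟨p % n, h'.2⟩ else 0)
    else
      (if h' : (p - n * n) / 2 < k then a' (⟨(p - n * n) / 2, h'⟩, decide ((p - n * n) % 2 = 0))
        else 0)
  obtain ⟨y, hy, hval⟩ := exists_bits (n * n + k * 2) (bI n k) M hM val (by
    intro p _
    simp only [val]
    split_ifs
    · exact hdb _ _
    · exact hpos
    · exact hab' _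
    · exact hpos)
  have hidx : ∀ x < n, ∀ x' < n, x * n + x' < n * n := by
    intro x hx x' hx'
    calc x * n + x' < x * n + n := by omega
      _ = (x + 1) * n := by ring
      _ ≤ n * n := Nat.mul_le_mul_right _ hx
  have hdist : ∀ x x' : Fin n, numAt y (bI n k) ((x * n + x') * bI n k) = d' x x' := by
    intro x x'
    have h1 := hidx x x.2 x' x'.2
    rw [hval _ (by omega)]
    have e1 : ((x : ℕ) * n + x') / n = x := by
      rw [mul_comm (x : ℕ), Nat.mul_add_div (by omega), Nat.div_eq_of_lt x'.2, add_zero]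
    have e2 : ((x : ℕ) * n + x') % n = x' := by
      rw [mul_comm (x : ℕ), Nat.mul_add_mod, Nat.mod_eq_of_lt x'.2]
    simp only [val, dif_pos h1, e1, e2]
    rw [dif_pos ⟨x.2, x'.2⟩]
  have hthr : ∀ i : Fin k, numAt y (bI n k) ((n * n + 2 * i) * bI n k) = a' (i, true) ∧
      numAt y (bI n k) ((n * n + 2 * i + 1) * bI n k) = a' (i, false) := by
    intro i
    have hi := i.2
    constructor
    · rw [hval _ (by omega)]
      have h1 : ¬ (n * n + 2 * (i : ℕ) < n * n) := by omega
      have e1 : (n * n + 2 * (i : ℕ) - n * n) / 2 = i := by omega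
      have e2 : (n * n + 2 * (i : ℕ) - n * n) % 2 = 0 := by omega
      simp only [val, dif_neg h1, e1, e2]
      rw [dif_pos i.2]
      rfl
    · rw [hval _ (by omega)]
      have h1 : ¬ (n * n + 2 * (i : ℕ) + 1 < n * n) := by omega
      have e1 : (n * n + 2 * (i : ℕ) + 1 - n * n) / 2 = i := by omega
      have e2 : (n * n + 2 * (i : ℕ) + 1 - n * n) % 2 = 1 := by omega
      simp only [val, dif_neg h1, e1, e2]
      rw [dif_pos i.2]
      rfl
  refine ⟨y, hy, ?_, fun i u v => ?_⟩
  · rw [okTree_iff]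
    have e : (fun u v : Fin n => ((numAt y (bI n k) ((u * n + v) * bI n k) : ℕ) : ℝ)) =
        fun x y => (d' x y : ℝ) := by
      funext u v
      rw [hdist]
    rw [e]
    exact h4
  · rw [fIn_iff, hdist, (hthr i).1, (hthr i).2]
    have h1 := hcmp (i, true) u v
    have h2 := hcmp (i, false) u v
    simp only [cond_true] at h1
    simp only [cond_false] at h2
    rw [h1, ← not_le (a := b i), h2, not_le]

end Pool.Agent.LibPcn
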