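import Pool.Agent.LibPcn.M1
import Pool.Agent.LibPcn.C16

set_option autoImplicit false

/-!
The verifier: soundness and completeness.
-/

namespace Pool.Agent.LibPcn

open SimpleGraph Pool.Agent.LibPcg Pool.Agent.LibOpc

theorem okI_sound (y b : List Bool) (n k : ℕ) (h : okI y b n k = true) :
    1 ≤ k ∧ b.length = n * n ∧ ∃ G : SimpleGraph (Fin n),
      (∀ u v : Fin n, G.Adj u v ↔ b.getD (u * n + v) false = true) ∧ IsIntPCG k G := by
  unfold okI at h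
  simp only [Bool.and_eq_true, decide_eq_true_eq, List.all_eq_true, List.mem_range] at h
  obtain ⟨hn, hk, hb, h1, h2⟩ := h
  rw [okTree_iff] at h1
  obtain ⟨d, hd⟩ : ∃ d : Fin n → Fin n → ℝ, d = fun (u v : Fin n) =>
    ((numAt y (bI n k) ((u * n + v) * bI n k) : ℕ) : ℝ) := ⟨_, rfl⟩
  rw [← hd] at h1
  have hne : Nonempty (Fin n) := ⟨⟨0, hn⟩⟩
  have key : ∀ u v : Fin n, b.getD (u * n + v) false = true ↔ u ≠ v ∧ ∃ i : Fin k,
      ((numAt y (bI n k) ((n * n + 2 * i) * bI n k) : ℕ) : ℝ) ≤ d u v ∧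
      d u v < ((numAt y (bI n k) ((n * n + 2 * i + 1) * bI n k) : ℕ) : ℝ) := by
    intro u v
    rw [h2 u u.2 v v.2, Bool.and_eq_true, Bool.not_eq_true', decide_eq_false_iff_not,
      List.any_eq_true]
    refine and_congr ?_ ?_
    · rw [ne_eq, Fin.ext_iff]
    · constructor
      · rintro ⟨i, hi, h3⟩
        rw [fIn_iff] at h3
        refine ⟨⟨i, List.mem_range.1 hi⟩, ?_⟩
        rw [hd]
        exact ⟨Nat.cast_le.2 h3.1, Nat.cast_lt.2 h3.2⟩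
      · rintro ⟨i, h3⟩
        refine ⟨i, List.mem_range.2 i.2, ?_⟩
        rw [fIn_iff]
        rw [hd] at h3
        exact ⟨Nat.cast_le.1 h3.1, Nat.cast_lt.1 h3.2⟩
  refine ⟨hk, hb,
    { Adj := fun u v => b.getD (u * n + v) false = true
      symm := ⟨fun u v huv => by
        rw [key] at huv ⊢
        rw [h1.symm v u]
        exact ⟨huv.1.symm, huv.2⟩⟩
      loopless := ⟨fun u hu => ((key u u).1 hu).1 rfl⟩ }, fun u v => Iff.rfl, ?_⟩
  rw [intPCG_iff]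
  exact ⟨d, _, _, h1, fun i => ⟨Nat.cast_nonneg _, Nat.cast_nonneg _⟩, fun u v => key u v⟩

theorem okI_complete {n : ℕ} (hn : 1 ≤ n) {k : ℕ} (hk : 1 ≤ k) (G : SimpleGraph (Fin n))
    (b : List Bool) (hb : b.length = n * n)
    (hG : ∀ u v : Fin n, G.Adj u v ↔ b.getD (u * n + v) false = true) (h : IsIntPCG k G) (M : ℕ)
    (hM : (n * n + k * 2) * bI n k ≤ M) :
    ∃ y : List Bool, y.length = M ∧ okI y b n k = true := by
  have hne : Nonempty (Fin n) := ⟨⟨0, hn⟩⟩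
  obtain ⟨d, ta, tb, hfour, hab, hadj⟩ := (intPCG_iff k G).1 h
  obtain ⟨y, hy, hT, hin⟩ := tree_complete d ta tb hfour hab M hM
  refine ⟨y, hy, ?_⟩
  unfold okI
  simp only [Bool.and_eq_true, decide_eq_true_eq, List.all_eq_true, List.mem_range]
  refine ⟨hn, hk, hb, hT, fun u hu v hv => ?_⟩
  rw [Bool.eq_iff_iff, ← hG ⟨u, hu⟩ ⟨v, hv⟩, hadj]
  simp only [Bool.and_eq_true, Bool.not_eq_true', decide_eq_false_iff_not, List.any_eq_true,
    List.mem_range, ne_eq, Fin.mk.injEq]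
  refine and_congr Iff.rfl ⟨fun ⟨i, h3⟩ => ⟨i, i.2, (hin i ⟨u, hu⟩ ⟨v, hv⟩).2 h3⟩,
    fun ⟨i, hi, h3⟩ => ⟨⟨i, hi⟩, (hin ⟨i, hi⟩ ⟨u, hu⟩ ⟨v, hv⟩).1 h3⟩⟩

end Pool.Agent.LibPcn
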