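import Pool.Agent.LibPcn.CMDefs
import Pool.Agent.LibPcg.PN14

set_option autoImplicit false

/-!
The verifier is computed in polynomial time.
-/

namespace Pool.Agent.LibPcn

open SimpleGraph Pool.Agent.LibPcg Pool.Agent.LibOpc Pool.Agent.LibComplexity

variable {α : Type} [Enc α] {𝒜 : Set Orc}

theorem pt_bI {n k : Orc → α → ℕ} (hn : PTf 𝒜 n) (hk : PTf 𝒜 k) :
    PTf 𝒜 (fun A x => bI (n A x) (k A x)) := by
  unfold bI
  have h : PTf 𝒜 (fun A x => n A x * n A x + k A x * 2) := (hn.mul hn).add (hk.mul (PTf.const 2))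
  exact ((h.mul h).add ((PTf.const 2).mul h)).add (PTf.const 1)

theorem pt_okTree {y : Orc → α → List Bool} {n L : Orc → α → ℕ} (hy : PTf 𝒜 y) (hn : PTf 𝒜 n)
    (hL : PTf 𝒜 L) : PTf 𝒜 (fun A x => okTree (y A x) (n A x) (L A x)) := by
  unfold okTree
  refine PTf.band ?_ (PTf.band ?_ ?_)
  · refine hn.range.all (p := fun A x (u1 : ℕ) => (List.range (n A x)).all fun u2 =>
      (List.range (n A x)).all fun u3 => (List.range (n A x)).all fun u4 =>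
        leq2 (y A x) (L A x) ((u1 * n A x + u2) * L A x)
          ((u3 * n A x + u4) * L A x) ((u1 * n A x + u3) * L A x)
          ((u2 * n A x + u4) * L A x) ||
        leq2 (y A x) (L A x) ((u1 * n A x + u2) * L A x)
          ((u3 * n A x + u4) * L A x) ((u1 * n A x + u4) * L A x)
          ((u2 * n A x + u3) * L A x)) ?_
    have hn1 : PTf 𝒜 (fun A (p : α × ℕ) => n A p.1) := hn.comp PTf.id.fst
    refine hn1.range.all (p := fun A (x : α × ℕ) (u2 : ℕ) =>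
      (List.range (n A x.1)).all fun u3 => (List.range (n A x.1)).all fun u4 =>
        leq2 (y A x.1) (L A x.1) ((x.2 * n A x.1 + u2) * L A x.1)
          ((u3 * n A x.1 + u4) * L A x.1) ((x.2 * n A x.1 + u3) * L A x.1)
          ((u2 * n A x.1 + u4) * L A x.1) ||
        leq2 (y A x.1) (L A x.1) ((x.2 * n A x.1 + u2) * L A x.1)
          ((u3 * n A x.1 + u4) * L A x.1) ((x.2 * n A x.1 + u4) * L A x.1)
          ((u2 * n A x.1 + u3) * L A x.1)) ?_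
    have hn2 : PTf 𝒜 (fun A (p : (α × ℕ) × ℕ) => n A p.1.1) := hn1.comp PTf.id.fst
    refine hn2.range.all (p := fun A (x : (α × ℕ) × ℕ) (u3 : ℕ) =>
      (List.range (n A x.1.1)).all fun u4 =>
        leq2 (y A x.1.1) (L A x.1.1) ((x.1.2 * n A x.1.1 + x.2) * L A x.1.1)
          ((u3 * n A x.1.1 + u4) * L A x.1.1)
          ((x.1.2 * n A x.1.1 + u3) * L A x.1.1)
          ((x.2 * n A x.1.1 + u4) * L A x.1.1) ||
        leq2 (y A x.1.1) (L A x.1.1) ((x.1.2 * n A x.1.1 + x.2) * L A x.1.1)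
          ((u3 * n A x.1.1 + u4) * L A x.1.1)
          ((x.1.2 * n A x.1.1 + u4) * L A x.1.1)
          ((x.2 * n A x.1.1 + u3) * L A x.1.1)) ?_
    have hn3 : PTf 𝒜 (fun A (p : ((α × ℕ) × ℕ) × ℕ) => n A p.1.1.1) := hn2.comp PTf.id.fst
    refine hn3.range.all (p := fun A (x : ((α × ℕ) × ℕ) × ℕ) (u4 : ℕ) =>
        leq2 (y A x.1.1.1) (L A x.1.1.1)
          ((x.1.1.2 * n A x.1.1.1 + x.1.2) * L A x.1.1.1)
          ((x.2 * n A x.1.1.1 + u4) * L A x.1.1.1)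
          ((x.1.1.2 * n A x.1.1.1 + x.2) * L A x.1.1.1)
          ((x.1.2 * n A x.1.1.1 + u4) * L A x.1.1.1) ||
        leq2 (y A x.1.1.1) (L A x.1.1.1)
          ((x.1.1.2 * n A x.1.1.1 + x.1.2) * L A x.1.1.1)
          ((x.2 * n A x.1.1.1 + u4) * L A x.1.1.1)
          ((x.1.1.2 * n A x.1.1.1 + u4) * L A x.1.1.1)
          ((x.1.2 * n A x.1.1.1 + x.2) * L A x.1.1.1)) ?_
    have hn4 : PTf 𝒜 (fun A (p : (((α × ℕ) × ℕ) × ℕ) × ℕ) => n A p.1.1.1.1) := hn3.comp PTf.id.fst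
    have hL4 : PTf 𝒜 (fun A (p : (((α × ℕ) × ℕ) × ℕ) × ℕ) => L A p.1.1.1.1) :=
      hL.comp PTf.id.fst.fst.fst.fst
    have hy4 : PTf 𝒜 (fun A (p : (((α × ℕ) × ℕ) × ℕ) × ℕ) => y A p.1.1.1.1) :=
      hy.comp PTf.id.fst.fst.fst.fst
    have hu1 : PTf 𝒜 (fun A (p : (((α × ℕ) × ℕ) × ℕ) × ℕ) => p.1.1.1.2) := PTf.id.fst.fst.fst.snd
    have hu2 : PTf 𝒜 (fun A (p : (((α × ℕ) × ℕ) × ℕ) × ℕ) => p.1.1.2) := PTf.id.fst.fst.snd
    have hu3 : PTf 𝒜 (fun A (p : (((α × ℕ) × ℕ) × ℕ) × ℕ) => p.1.2) := PTf.id.fst.snd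
    have hu4 : PTf 𝒜 (fun A (p : (((α × ℕ) × ℕ) × ℕ) × ℕ) => p.2) := PTf.id.snd
    have ho : ∀ {a b : Orc → (((α × ℕ) × ℕ) × ℕ) × ℕ → ℕ}, PTf 𝒜 a → PTf 𝒜 b →
        PTf 𝒜 (fun A p => (a A p * n A p.1.1.1.1 + b A p) * L A p.1.1.1.1) :=
      fun ha hb => ((ha.mul hn4).add hb).mul hL4
    exact PTf.bor (pt_leq2 hy4 hL4 (ho hu1 hu2) (ho hu3 hu4) (ho hu1 hu3) (ho hu2 hu4))
      (pt_leq2 hy4 hL4 (ho hu1 hu2) (ho hu3 hu4) (ho hu1 hu4) (ho hu2 hu3))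
  · refine hn.range.all (p := fun A x (u : ℕ) =>
      leq2 (y A x) (L A x) ((u * n A x + u) * L A x)
        ((u * n A x + u) * L A x) (y A x).length (y A x).length) ?_
    have hn1 : PTf 𝒜 (fun A (p : α × ℕ) => n A p.1) := hn.comp PTf.id.fst
    have hL1 : PTf 𝒜 (fun A (p : α × ℕ) => L A p.1) := hL.comp PTf.id.fst
    have hy1 : PTf 𝒜 (fun A (p : α × ℕ) => y A p.1) := hy.comp PTf.id.fst
    have ho := ((PTf.id.snd.mul hn1).add PTf.id.snd).mul hL1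
    exact pt_leq2 hy1 hL1 ho ho hy1.length hy1.length
  · refine hn.range.all (p := fun A x (u : ℕ) => (List.range (n A x)).all fun v =>
      leq2 (y A x) (L A x) ((u * n A x + v) * L A x)
        ((u * n A x + v) * L A x) ((v * n A x + u) * L A x)
        ((v * n A x + u) * L A x)) ?_
    have hn1 : PTf 𝒜 (fun A (p : α × ℕ) => n A p.1) := hn.comp PTf.id.fst
    refine hn1.range.all (p := fun A (x : α × ℕ) (v : ℕ) =>
      leq2 (y A x.1) (L A x.1) ((x.2 * n A x.1 + v) * L A x.1)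
        ((x.2 * n A x.1 + v) * L A x.1) ((v * n A x.1 + x.2) * L A x.1)
        ((v * n A x.1 + x.2) * L A x.1)) ?_
    have hn2 : PTf 𝒜 (fun A (p : (α × ℕ) × ℕ) => n A p.1.1) := hn1.comp PTf.id.fst
    have hL2 : PTf 𝒜 (fun A (p : (α × ℕ) × ℕ) => L A p.1.1) := hL.comp PTf.id.fst.fst
    have hy2 : PTf 𝒜 (fun A (p : (α × ℕ) × ℕ) => y A p.1.1) := hy.comp PTf.id.fst.fst
    have hu : PTf 𝒜 (fun A (p : (α × ℕ) × ℕ) => p.1.2) := PTf.id.fst.snd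
    have hv : PTf 𝒜 (fun A (p : (α × ℕ) × ℕ) => p.2) := PTf.id.snd
    have h1 := ((hu.mul hn2).add hv).mul hL2
    have h2 := ((hv.mul hn2).add hu).mul hL2
    exact pt_leq2 hy2 hL2 h1 h1 h2 h2

theorem pt_fIn {y : Orc → α → List Bool} {n L m u v : Orc → α → ℕ} (hy : PTf 𝒜 y)
    (hn : PTf 𝒜 n) (hL : PTf 𝒜 L) (hm : PTf 𝒜 m) (hu : PTf 𝒜 u) (hv : PTf 𝒜 v) :
    PTf 𝒜 (fun A x => fIn (y A x) (n A x) (L A x) (m A x) (u A x) (v A x)) := by
  unfold fIn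
  have h1 := ((hu.mul hn).add hv).mul hL
  have h2 := hm.mul hL
  have h3 := (hm.add (PTf.const 1)).mul hL
  exact (pt_leq2 hy hL h2 h2 h1 h1).band (pt_leq2 hy hL h3 h3 h1 h1).bnot

theorem pt_okI {y b : Orc → α → List Bool} {n k : Orc → α → ℕ} (hy : PTf 𝒜 y) (hb : PTf 𝒜 b)
    (hn : PTf 𝒜 n) (hk : PTf 𝒜 k) :
    PTf 𝒜 (fun A x => okI (y A x) (b A x) (n A x) (k A x)) := by
  unfold okI
  have hL := pt_bI hn hk
  refine (PTf.decide_le (PTf.const 1) hn).band ((PTf.decide_le (PTf.const 1) hk).band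
    ((PTf.decide_eq hb.length (hn.mul hn)).band (PTf.band (pt_okTree hy hn hL) ?_)))
  refine hn.range.all (p := fun A x (u : ℕ) => (List.range (n A x)).all fun v =>
    decide ((b A x).getD (u * n A x + v) false = (!decide (u = v) &&
      (List.range (k A x)).any fun i =>
        fIn (y A x) (n A x) (bI (n A x) (k A x)) (n A x * n A x + 2 * i) u v))) ?_
  have hn1 : PTf 𝒜 (fun A (p : α × ℕ) => n A p.1) := hn.comp PTf.id.fst
  refine hn1.range.all (p := fun A (x : α × ℕ) (v : ℕ) =>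
    decide ((b A x.1).getD (x.2 * n A x.1 + v) false = (!decide (x.2 = v) &&
      (List.range (k A x.1)).any fun i =>
        fIn (y A x.1) (n A x.1) (bI (n A x.1) (k A x.1)) (n A x.1 * n A x.1 + 2 * i) x.2 v))) ?_
  have hn2 : PTf 𝒜 (fun A (p : (α × ℕ) × ℕ) => n A p.1.1) := hn1.comp PTf.id.fst
  have hb2 : PTf 𝒜 (fun A (p : (α × ℕ) × ℕ) => b A p.1.1) := hb.comp PTf.id.fst.fst
  have hk2 : PTf 𝒜 (fun A (p : (α × ℕ) × ℕ) => k A p.1.1) := hk.comp PTf.id.fst.fst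
  have hL2 : PTf 𝒜 (fun A (p : (α × ℕ) × ℕ) => bI (n A p.1.1) (k A p.1.1)) :=
    hL.comp PTf.id.fst.fst
  have hu : PTf 𝒜 (fun A (p : (α × ℕ) × ℕ) => p.1.2) := PTf.id.fst.snd
  have hv : PTf 𝒜 (fun A (p : (α × ℕ) × ℕ) => p.2) := PTf.id.snd
  refine PTf.decide_eq (hb2.listGetD ((hu.mul hn2).add hv) (PTf.const false))
    ((PTf.decide_eq hu hv).bnot.band ?_)
  refine hk2.range.any (p := fun A (x : (α × ℕ) × ℕ) (i : ℕ) =>
    fIn (y A x.1.1) (n A x.1.1) (bI (n A x.1.1) (k A x.1.1)) (n A x.1.1 * n A x.1.1 + 2 * i)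
      x.1.2 x.2) ?_
  have hn3 : PTf 𝒜 (fun A (p : ((α × ℕ) × ℕ) × ℕ) => n A p.1.1.1) := hn2.comp PTf.id.fst
  exact pt_fIn (hy.comp PTf.id.fst.fst.fst) hn3 (hL2.comp PTf.id.fst)
    ((hn3.mul hn3).add ((PTf.const 2).mul PTf.id.snd)) PTf.id.fst.fst.snd PTf.id.fst.snd

end Pool.Agent.LibPcn
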