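import Pool.Agent.LibPcn.M2
import Pool.Agent.LibPcn.M3
import Pool.Agent.LibPcg.PN12
import Pool.Agent.LibPcg.PB12

set_option autoImplicit false

/-!
The recognition problem of `k`-interval-PCGs is in NP.
-/

namespace Pool.Agent.LibPcn

open SimpleGraph Pool.Agent.LibPcg Pool.Agent.LibOpc Pool.Agent.LibComplexity

theorem nonempty_of_wtree {V : Type} (D : WTree V) : Nonempty V := by
  have := D.fin
  obtain ⟨x, hx⟩ := PB12_leaf D.tree
  obtain ⟨v, -⟩ := (D.leaves x).1 hx
  exact ⟨v⟩

theorem pos_of_wtree {n : ℕ} (D : WTree (Fin n)) : 1 ≤ n := by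
  obtain ⟨i⟩ := nonempty_of_wtree D
  have := i.2
  omega

/-- the verifier -/
def inV (p : List Bool × List Bool) : Bool :=
  decide (word (read (ℕ × ℕ × List Bool) p.1) = p.1) &&
    okI p.2 (read (ℕ × ℕ × List Bool) p.1).2.2 (read (ℕ × ℕ × List Bool) p.1).1
      (read (ℕ × ℕ × List Bool) p.1).2.1

theorem pt_inV {𝒜 : Set Orc} : PTf 𝒜 (fun _ (p : List Bool × List Bool) => inV p) := by
  unfold inV
  have hI : PTf 𝒜 (fun _ (p : List Bool × List Bool) => read (ℕ × ℕ × List Bool) p.1) :=
    PTf.read PTf.id.fst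
  exact (PTf.decide_eq hI.word PTf.id.fst).band (pt_okI PTf.id.snd hI.snd.snd hI.fst hI.snd.fst)

theorem bI_bound (n k X : ℕ) (h1 : n ≤ X) (h2 : k ≤ X) :
    (n * n + k * 2) * bI n k ≤ (X * X + X * 2) *
      ((X * X + X * 2) * (X * X + X * 2) + 2 * (X * X + X * 2) + 1) := by
  unfold bI
  have h3 : n * n + k * 2 ≤ X * X + X * 2 := Nat.add_le_add (Nat.mul_le_mul h1 h1) (by omega)
  have h4 := Nat.mul_le_mul h3 h3
  exact Nat.mul_le_mul h3 (by omega)

theorem intPCG_inNP : InNP ∅ IntPCG := by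
  rw [inNP_iff]
  let q : Polynomial ℕ := (Polynomial.X * Polynomial.X + Polynomial.X * 2) *
    ((Polynomial.X * Polynomial.X + Polynomial.X * 2) *
      (Polynomial.X * Polynomial.X + Polynomial.X * 2) +
      2 * (Polynomial.X * Polynomial.X + Polynomial.X * 2) + 1)
  refine ⟨fun _ p => inV p, q, pt_inV, fun x => ⟨?_, ?_⟩⟩
  · rintro ⟨n, k, G, hk, rfl, h⟩
    have hn : 1 ≤ n := by
      obtain ⟨D, -⟩ := h
      exact pos_of_wtree D
    have hread : read (ℕ × ℕ × List Bool) (encode G k) = (n, k, matrixBits G) := by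
      have := read_word (n, k, matrixBits G) []
      rwa [List.append_nil] at this
    have hX : (encode G k).length = sz (n, k, matrixBits G) := length_word _
    have h1 : n ≤ sz (n, k, matrixBits G) := by
      rw [sz_pair, sz_nat]; omega
    have h2 : k ≤ sz (n, k, matrixBits G) := by
      rw [sz_pair, sz_pair, sz_nat, sz_nat]; omega
    have hM : (n * n + k * 2) * bI n k ≤ q.eval (encode G k).length := by
      rw [hX]
      simp only [q, Polynomial.eval_add, Polynomial.eval_mul, Polynomial.eval_X,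
        Polynomial.eval_ofNat, Polynomial.eval_one]
      exact bI_bound n k _ h1 h2
    obtain ⟨y, hy, hok⟩ := okI_complete hn hk G (matrixBits G) (length_matrixBits' G)
      (fun u v => (matrixBits_getD' G u v).symm) h _ hM
    refine ⟨y, hy, ?_⟩
    show inV (encode G k, y) = true
    unfold inV
    simp only [hread]
    rw [hok, Bool.and_true, decide_eq_true_iff]
    rfl
  · rintro ⟨y, -, hy⟩
    have hy' : inV (x, y) = true := hy
    unfold inV at hy'
    rw [Bool.and_eq_true, decide_eq_true_iff] at hy'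
    obtain ⟨h1, h2⟩ := hy'
    set I := read (ℕ × ℕ × List Bool) x with hI
    obtain ⟨hk, hb, G, hG, hP⟩ := okI_sound y I.2.2 I.1 I.2.1 h2
    refine ⟨I.1, I.2.1, G, hk, ?_, hP⟩
    have h3 := eq_matrixBits G I.2.2 hb hG
    unfold encode
    rw [← h3]
    exact h1.symm

end Pool.Agent.LibPcn
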