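import Pool.Agent.LibPcn.M4
import Pool.Agent.LibPcg.PN15
import Pool.Agent.LibOpc.ON16
import Pool.Agent.LibPcn.C15

set_option autoImplicit false

/-!
Membership in NP for a fixed number `k`; membership in the languages.
-/

namespace Pool.Agent.LibPcn

open SimpleGraph Pool.Agent.LibPcg Pool.Agent.LibOpc Pool.Agent.LibComplexity

theorem encode_inj {n k n' k' : ℕ} {G : SimpleGraph (Fin n)} {G' : SimpleGraph (Fin n')}
    (he : encode G k = encode G' k') : n = n' ∧ k = k' ∧ HEq G G' := by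
  have h1 := word_injective he
  simp only [Prod.mk.injEq] at h1
  obtain ⟨rfl, rfl, h2⟩ := h1
  refine ⟨rfl, rfl, ?_⟩
  have h3 : G = G' := by
    ext u v
    rw [← matrixBits_getD' G u v, ← matrixBits_getD' G' u v, h2]
  rw [h3]

/-- From the problem with `k` in the input to a fixed `k`. -/
theorem fixed_inNP (P : ∀ (n k : ℕ), SimpleGraph (Fin n) → Prop)
    (hP : InNP ∅ {x | ∃ (n k : ℕ) (G : SimpleGraph (Fin n)), 1 ≤ k ∧ x = encode G k ∧ P n k G})
    (k : ℕ) (hk : 1 ≤ k) :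
    InNP ∅ {x | ∃ (n : ℕ) (G : SimpleGraph (Fin n)), x = encode G k ∧ P n k G} := by
  rw [inNP_iff] at hP ⊢
  obtain ⟨v, q, hv, hq⟩ := hP
  refine ⟨fun A p => decide ((read (ℕ × ℕ × List Bool) p.1).2.1 = k) && v A p, q, ?_,
    fun x => ⟨?_, ?_⟩⟩
  · have hI : PTf {∅} (fun _ (p : List Bool × List Bool) => read (ℕ × ℕ × List Bool) p.1) :=
      PTf.read PTf.id.fst
    exact (PTf.decide_eq hI.snd.fst (PTf.const k)).band hv
  · rintro ⟨n, G, rfl, h⟩
    obtain ⟨y, hy, hV⟩ := (hq _).1 ⟨n, k, G, hk, rfl, h⟩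
    refine ⟨y, hy, ?_⟩
    rw [Bool.and_eq_true, decide_eq_true_iff]
    refine ⟨?_, hV⟩
    rw [read_encode]
  · rintro ⟨y, hy, hV⟩
    rw [Bool.and_eq_true, decide_eq_true_iff] at hV
    obtain ⟨n, k', G, hk', rfl, h⟩ := (hq x).2 ⟨y, hy, hV.2⟩
    have h1 := hV.1
    rw [read_encode] at h1
    have h1' : k' = k := h1
    subst h1'
    exact ⟨n, G, rfl, h⟩

theorem pcg1_inNP : InNP ∅ PCG1 := by
  have h := fixed_inNP (fun _ k G => IsIntPCG k G) intPCG_inNP 1 le_rfl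
  have e : PCG1 = {x | ∃ (n : ℕ) (G : SimpleGraph (Fin n)), x = encode G 1 ∧ IsIntPCG 1 G} := by
    unfold PCG1
    simp only [isIntPCG_one]
  rw [e]
  exact h

theorem mem_intPCG_iff {n : ℕ} (G : SimpleGraph (Fin n)) {k : ℕ} (hk : 1 ≤ k) :
    encode G k ∈ IntPCG ↔ IsIntPCG k G := by
  constructor
  · rintro ⟨n', k', G', hk', he, h'⟩
    obtain ⟨rfl, rfl, h3⟩ := encode_inj he
    rw [eq_of_heq h3]
    exact h'
  · intro h
    exact ⟨n, k, G, hk, rfl, h⟩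

theorem mem_andPCG_iff {n : ℕ} (G : SimpleGraph (Fin n)) {k : ℕ} (hk : 1 ≤ k) :
    encode G k ∈ AndPCG ↔ IsAndPCG k G := by
  constructor
  · rintro ⟨n', k', G', hk', he, h'⟩
    obtain ⟨rfl, rfl, h3⟩ := encode_inj he
    rw [eq_of_heq h3]
    exact h'
  · intro h
    exact ⟨n, k, G, hk, rfl, h⟩

theorem mem_pcg1_iff {n : ℕ} (G : SimpleGraph (Fin n)) : encode G 1 ∈ PCG1 ↔ IsPCG G := by
  constructor
  · rintro ⟨n', G', he, h'⟩
    obtain ⟨rfl, -, h3⟩ := encode_inj he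
    rw [eq_of_heq h3]
    exact h'
  · intro h
    exact ⟨n, G, rfl, h⟩

end Pool.Agent.LibPcn
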