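import Pool.Agent.LibPcn.CMDefs
import Pool.Agent.LibOpc.OM1

set_option autoImplicit false

/-!
The reduction is computed in polynomial time.
-/

namespace Pool.Agent.LibPcn

open SimpleGraph Pool.Agent.LibPcg Pool.Agent.LibOpc Pool.Agent.LibComplexity

variable {V : Type} [Enc V] {α : Type} [Enc α] {𝒜 : Set Orc}

theorem pt_lv {f : Orc → α → List (List (V × Bool))} {j i : Orc → α → ℕ} (hf : PTf 𝒜 f)
    (hj : PTf 𝒜 j) (hi : PTf 𝒜 i) : PTf 𝒜 (fun A x => lv (f A x) (j A x) (i A x)) := by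
  unfold lv
  exact ((hf.listGetD hj (PTf.const [])).map (g := fun _ _ (l : V × Bool) => some l.1)
    PTf.id.snd.fst.some).listGetD hi (PTf.const none)

theorem pt_ls {f : Orc → α → List (List (V × Bool))} {j i : Orc → α → ℕ} (hf : PTf 𝒜 f)
    (hj : PTf 𝒜 j) (hi : PTf 𝒜 i) : PTf 𝒜 (fun A x => ls (f A x) (j A x) (i A x)) := by
  unfold ls
  exact ((hf.listGetD hj (PTf.const [])).map (g := fun _ _ (l : V × Bool) => l.2)
    PTf.id.snd.snd).listGetD hi (PTf.const false)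

theorem pt_len {f : Orc → α → List (List (V × Bool))} {j : Orc → α → ℕ} (hf : PTf 𝒜 f)
    (hj : PTf 𝒜 j) : PTf 𝒜 (fun A x => ((f A x).getD (j A x) []).length) :=
  (hf.listGetD hj (PTf.const [])).length

theorem pt_eL {j i : Orc → α → ℕ} (hj : PTf 𝒜 j) (hi : PTf 𝒜 i) :
    PTf 𝒜 (fun A x => eL (j A x) (i A x)) := by
  unfold eL
  exact (PTf.const 4).pair (hj.pair hi)

theorem pt_eW {j i : Orc → α → ℕ} (hj : PTf 𝒜 j) (hi : PTf 𝒜 i) :
    PTf 𝒜 (fun A x => eW (j A x) (i A x)) := by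
  unfold eW
  exact PTf.ifP (PTf.decide_eq hi (PTf.const 0)) (PTf.const _) ((PTf.const 5).pair (hj.pair hi))

theorem pt_eP {r : Orc → α → ℕ} (hr : PTf 𝒜 r) : PTf 𝒜 (fun A x => eP (r A x)) := by
  unfold eP
  exact (PTf.const 6).pair (hr.pair (PTf.const 0))

theorem pt_eQ {r : Orc → α → ℕ} (hr : PTf 𝒜 r) : PTf 𝒜 (fun A x => eQ (r A x)) := by
  unfold eQ
  exact (PTf.const 7).pair (hr.pair (PTf.const 0))

theorem pt_triples [DecidableEq V] {f : Orc → α → List (List (V × Bool))} (hf : PTf 𝒜 f) :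
    PTf 𝒜 (fun A x => triples (f A x)) := by
  unfold triples
  refine PTf.append ?_ (PTf.append ?_ ?_)
  · refine hf.length.range.flatMap (g := fun A x (j : ℕ) =>
      (List.range ((f A x).getD j []).length).flatMap fun i =>
      (List.range (f A x).length).flatMap fun j' =>
      (List.range ((f A x).getD j' []).length).flatMap fun i' =>
      if decide (lv (f A x) j i = lv (f A x) j' i') &&
          !decide (ls (f A x) j i = ls (f A x) j' i') then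
        [(eL j i, eM, eL j' i')] else []) ?_
    have f1 := hf.comp (PTf.id (𝒜 := 𝒜) (α := α × ℕ)).fst
    refine (pt_len f1 PTf.id.snd).range.flatMap (g := fun A (x : α × ℕ) (i : ℕ) =>
      (List.range (f A x.1).length).flatMap fun j' =>
      (List.range ((f A x.1).getD j' []).length).flatMap fun i' =>
      if decide (lv (f A x.1) x.2 i = lv (f A x.1) j' i') &&
          !decide (ls (f A x.1) x.2 i = ls (f A x.1) j' i') then
        [(eL x.2 i, eM, eL j' i')] else []) ?_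
    have f2 := f1.comp (PTf.id (𝒜 := 𝒜) (α := (α × ℕ) × ℕ)).fst
    refine f2.length.range.flatMap (g := fun A (x : (α × ℕ) × ℕ) (j' : ℕ) =>
      (List.range ((f A x.1.1).getD j' []).length).flatMap fun i' =>
      if decide (lv (f A x.1.1) x.1.2 x.2 = lv (f A x.1.1) j' i') &&
          !decide (ls (f A x.1.1) x.1.2 x.2 = ls (f A x.1.1) j' i') then
        [(eL x.1.2 x.2, eM, eL j' i')] else []) ?_
    have f3 := f2.comp (PTf.id (𝒜 := 𝒜) (α := ((α × ℕ) × ℕ) × ℕ)).fst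
    refine (pt_len f3 PTf.id.snd).range.flatMap (g := fun A (x : ((α × ℕ) × ℕ) × ℕ) (i' : ℕ) =>
      if decide (lv (f A x.1.1.1) x.1.1.2 x.1.2 = lv (f A x.1.1.1) x.2 i') &&
          !decide (ls (f A x.1.1.1) x.1.1.2 x.1.2 = ls (f A x.1.1.1) x.2 i') then
        [(eL x.1.1.2 x.1.2, eM, eL x.2 i')] else []) ?_
    have f4 := f3.comp (PTf.id (𝒜 := 𝒜) (α := (((α × ℕ) × ℕ) × ℕ) × ℕ)).fst
    have j4 : PTf 𝒜 (fun _ (x : (((α × ℕ) × ℕ) × ℕ) × ℕ) => x.1.1.1.2) := PTf.id.fst.fst.fst.snd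
    have i4 : PTf 𝒜 (fun _ (x : (((α × ℕ) × ℕ) × ℕ) × ℕ) => x.1.1.2) := PTf.id.fst.fst.snd
    have j5 : PTf 𝒜 (fun _ (x : (((α × ℕ) × ℕ) × ℕ) × ℕ) => x.1.2) := PTf.id.fst.snd
    have i5 : PTf 𝒜 (fun _ (x : (((α × ℕ) × ℕ) × ℕ) × ℕ) => x.2) := PTf.id.snd
    exact PTf.ite ((PTf.decide_eq (pt_lv f4 j4 i4) (pt_lv f4 j5 i5)).band
      (PTf.decide_eq (pt_ls f4 j4 i4) (pt_ls f4 j5 i5)).bnot)
      (((pt_eL j4 i4).pair ((PTf.const eM).pair (pt_eL j5 i5))).cons (PTf.const [])) (PTf.const [])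
  · refine hf.length.range.flatMap (g := fun A x (j : ℕ) =>
      (List.range ((f A x).getD j []).length).map fun i => (eW j i, eW j (i + 1), eL j i)) ?_
    have f1 := hf.comp (PTf.id (𝒜 := 𝒜) (α := α × ℕ)).fst
    refine (pt_len f1 PTf.id.snd).range.map (g := fun A (x : α × ℕ) (i : ℕ) =>
      (eW x.2 i, eW x.2 (i + 1), eL x.2 i)) ?_
    have j2 : PTf 𝒜 (fun _ (x : (α × ℕ) × ℕ) => x.1.2) := PTf.id.fst.snd
    have i2 : PTf 𝒜 (fun _ (x : (α × ℕ) × ℕ) => x.2) := PTf.id.snd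
    exact (pt_eW j2 i2).pair ((pt_eW j2 i2.succ).pair (pt_eL j2 i2))
  · refine hf.length.range.map (g := fun A x (j : ℕ) =>
      (eW j ((f A x).getD j []).length, eM, eF)) ?_
    have f1 := hf.comp (PTf.id (𝒜 := 𝒜) (α := α × ℕ)).fst
    exact (pt_eW PTf.id.snd (pt_len f1 PTf.id.snd)).pair (PTf.const _)

theorem pt_tr {T : Orc → α → List Tr} {r : Orc → α → ℕ} (hT : PTf 𝒜 T) (hr : PTf 𝒜 r) :
    PTf 𝒜 (fun A x => tr (T A x) (r A x)) := by
  unfold tr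
  exact hT.listGetD hr (PTf.const _)

theorem pt_bases {T : Orc → α → List Tr} (hT : PTf 𝒜 T) :
    PTf 𝒜 (fun A x => bases (T A x)) := by
  unfold bases
  refine (PTf.const _).append ?_
  refine hT.length.range.flatMap (g := fun A x (r : ℕ) =>
    [(tr (T A x) r).1, (tr (T A x) r).2.1, (tr (T A x) r).2.2, eP r, eQ r]) ?_
  have h1 := pt_tr (hT.comp (PTf.id (𝒜 := 𝒜) (α := α × ℕ)).fst) PTf.id.snd
  exact h1.fst.cons (h1.snd.fst.cons (h1.snd.snd.cons ((pt_eP PTf.id.snd).cons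
    ((pt_eQ PTf.id.snd).cons (PTf.const [])))))

theorem pt_quarts {T : Orc → α → List Tr} (hT : PTf 𝒜 T) :
    PTf 𝒜 (fun A x => quarts (T A x)) := by
  unfold quarts quart1
  refine hT.length.range.flatMap (g := fun A x (r : ℕ) =>
    [(eA, eP r, eB, (tr (T A x) r).1), (eA, (tr (T A x) r).2.2, eB, eQ r),
    (eA, (tr (T A x) r).1, (tr (T A x) r).2.1, eQ r),
    (eB, (tr (T A x) r).2.2, (tr (T A x) r).2.1, eP r)]) ?_
  have h1 := pt_tr (hT.comp (PTf.id (𝒜 := 𝒜) (α := α × ℕ)).fst) PTf.id.snd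
  have hp := pt_eP (PTf.id (𝒜 := 𝒜) (α := α × ℕ)).snd
  have hq := pt_eQ (PTf.id (𝒜 := 𝒜) (α := α × ℕ)).snd
  have hA := PTf.const (𝒜 := 𝒜) (α := α × ℕ) eA
  have hB := PTf.const (𝒜 := 𝒜) (α := α × ℕ) eB
  exact (hA.pair (hp.pair (hB.pair h1.fst))).cons ((hA.pair (h1.snd.snd.pair (hB.pair hq))).cons
    ((hA.pair (h1.fst.pair (h1.snd.fst.pair hq))).cons
      ((hB.pair (h1.snd.snd.pair (h1.snd.fst.pair hp))).cons (PTf.const []))))

theorem pt_numR {n : Orc → α → ℕ} (hn : PTf 𝒜 n) : PTf 𝒜 (fun A x => numR (n A x)) := by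
  unfold numR
  exact (PTf.const 9).mul (hn.add (PTf.const 2))

theorem pt_plain {B : Orc → α → List Ba} {n : Orc → α → ℕ} (hB : PTf 𝒜 B) (hn : PTf 𝒜 n) :
    PTf 𝒜 (fun A x => plain (B A x) (n A x)) := by
  unfold plain
  refine hB.flatMap (g := fun A x (a : Ba) =>
    (List.range (numR (n A x))).map fun i => ((a, i, 0) : It)) ?_
  refine ((pt_numR hn).comp PTf.id.fst).range.map (g := fun A (x : α × Ba) (i : ℕ) =>
    ((x.2, i, 0) : It)) ?_
  exact PTf.id.fst.snd.pair (PTf.id.snd.pair (PTf.const 0))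

theorem pt_qt {Q : Orc → α → List Qt} {r : Orc → α → ℕ} (hQ : PTf 𝒜 Q) (hr : PTf 𝒜 r) :
    PTf 𝒜 (fun A x => qt (Q A x) (r A x)) := by
  unfold qt
  exact hQ.listGetD hr (PTf.const _)

theorem pt_itX {B : Orc → α → List Ba} {Q : Orc → α → List Qt} (hB : PTf 𝒜 B) (hQ : PTf 𝒜 Q) :
    PTf 𝒜 (fun A x => itX (B A x) (Q A x)) := by
  unfold itX
  refine (pt_plain hB hQ.length).append ?_
  refine hQ.length.range.flatMap (g := fun A x (r : ℕ) =>
    ([((qt (Q A x) r).1, 9 * r + 9, 2 * r + 1), ((qt (Q A x) r).2.2.1, 9 * r + 9, 2 * r + 2)] :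
      List It)) ?_
  have h1 := pt_qt (hQ.comp (PTf.id (𝒜 := 𝒜) (α := α × ℕ)).fst) PTf.id.snd
  have h9 : PTf 𝒜 (fun _ (x : α × ℕ) => 9 * x.2 + 9) :=
    ((PTf.const 9).mul PTf.id.snd).add (PTf.const 9)
  have ha : PTf 𝒜 (fun _ (x : α × ℕ) => 2 * x.2 + 1) :=
    ((PTf.const 2).mul PTf.id.snd).add (PTf.const 1)
  have hb : PTf 𝒜 (fun _ (x : α × ℕ) => 2 * x.2 + 2) :=
    ((PTf.const 2).mul PTf.id.snd).add (PTf.const 2)
  exact (h1.fst.pair (h9.pair ha)).cons ((h1.snd.snd.fst.pair (h9.pair hb)).cons (PTf.const []))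

theorem pt_itY {B : Orc → α → List Ba} {Q : Orc → α → List Qt} (hB : PTf 𝒜 B) (hQ : PTf 𝒜 Q) :
    PTf 𝒜 (fun A x => itY (B A x) (Q A x)) := by
  unfold itY
  refine (pt_plain hB hQ.length).append ?_
  refine hQ.length.range.flatMap (g := fun A x (r : ℕ) =>
    ([((qt (Q A x) r).2.1, 9 * r + 6, 2 * r + 1), ((qt (Q A x) r).2.2.2, 9 * r + 6, 2 * r + 2)] :
      List It)) ?_
  have h1 := pt_qt (hQ.comp (PTf.id (𝒜 := 𝒜) (α := α × ℕ)).fst) PTf.id.snd
  have h9 : PTf 𝒜 (fun _ (x : α × ℕ) => 9 * x.2 + 6) :=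
    ((PTf.const 9).mul PTf.id.snd).add (PTf.const 6)
  have ha : PTf 𝒜 (fun _ (x : α × ℕ) => 2 * x.2 + 1) :=
    ((PTf.const 2).mul PTf.id.snd).add (PTf.const 1)
  have hb : PTf 𝒜 (fun _ (x : α × ℕ) => 2 * x.2 + 2) :=
    ((PTf.const 2).mul PTf.id.snd).add (PTf.const 2)
  exact (h1.snd.fst.pair (h9.pair ha)).cons ((h1.snd.snd.snd.pair (h9.pair hb)).cons
    (PTf.const []))

theorem pt_outV {B : Orc → α → List Ba} {Q : Orc → α → List Qt} (hB : PTf 𝒜 B)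
    (hQ : PTf 𝒜 Q) : PTf 𝒜 (fun A x => outV (B A x) (Q A x)) := by
  unfold outV
  refine (PTf.const (𝒜 := 𝒜) (α := α) (List.range 3)).flatMap (g := fun A x (c : ℕ) =>
    ((itX (B A x) (Q A x)).map fun s => ((true, c, s) : Vc)) ++
      ((itY (B A x) (Q A x)).map fun t => ((false, c, t) : Vc))) ?_
  have hX := (pt_itX hB hQ).comp (PTf.id (𝒜 := 𝒜) (α := α × ℕ)).fst
  have hY := (pt_itY hB hQ).comp (PTf.id (𝒜 := 𝒜) (α := α × ℕ)).fst
  exact (hX.map (g := fun _ (x : α × ℕ) (s : It) => ((true, x.2, s) : Vc))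
    ((PTf.const true).pair (PTf.id.fst.snd.pair PTf.id.snd))).append
    (hY.map (g := fun _ (x : α × ℕ) (s : It) => ((false, x.2, s) : Vc))
    ((PTf.const false).pair (PTf.id.fst.snd.pair PTf.id.snd)))

theorem pt_dd {a b : Orc → α → Ba} (ha : PTf 𝒜 a) (hb : PTf 𝒜 b) :
    PTf 𝒜 (fun A x => dd (a A x) (b A x)) := by
  unfold dd
  exact PTf.ifP (PTf.decide_eq ha hb) (PTf.const 0) (PTf.const 3)

theorem pt_Phi {s t : Orc → α → It} (hs : PTf 𝒜 s) (ht : PTf 𝒜 t) :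
    PTf 𝒜 (fun A x => Phi (s A x) (t A x)) := by
  unfold Phi
  exact (PTf.decide_le hs.snd.fst (ht.snd.fst.add (pt_dd hs.fst ht.fst))).band
    ((PTf.decide_eq hs.snd.snd ht.snd.snd).band
      (PTf.decide_eq hs.snd.snd (PTf.const 0)).bnot).bnot

theorem pt_crel {x y : Orc → α → Vc} (hx : PTf 𝒜 x) (hy : PTf 𝒜 y) :
    PTf 𝒜 (fun A z => crel (x A z) (y A z)) := by
  unfold crel
  exact (PTf.decide_eq hx.snd.fst hy.snd.fst).bnot.bor (pt_Phi hx.snd.snd hy.snd.snd)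

theorem pt_gadj {x y : Orc → α → Vc} (hx : PTf 𝒜 x) (hy : PTf 𝒜 y) :
    PTf 𝒜 (fun A z => gadj (x A z) (y A z)) := by
  unfold gadj
  exact (hx.fst.band (hy.fst.bnot.band (pt_crel hx hy))).bor
    (hx.fst.bnot.band (hy.fst.band (pt_crel hy hx)))

theorem pt_gbits {l : Orc → α → List Vc} (hl : PTf 𝒜 l) :
    PTf 𝒜 (fun A x => gbits (l A x)) := by
  unfold gbits
  refine hl.flatMap (g := fun A x (u : Vc) => (l A x).map fun y => gadj u y) ?_
  refine (hl.comp PTf.id.fst).map (g := fun _ (x : α × Vc) (y : Vc) => gadj x.2 y) ?_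
  exact pt_gadj PTf.id.fst.snd PTf.id.snd

theorem pt_outL [DecidableEq V] {f : Orc → α → List (List (V × Bool))} (hf : PTf 𝒜 f) :
    PTf 𝒜 (fun A x => outL (f A x)) := by
  unfold outL
  exact pt_outV (pt_bases (pt_triples hf)) (pt_quarts (pt_triples hf))

theorem pt_redK [DecidableEq V] {f : Orc → α → List (List (V × Bool))} (hf : PTf 𝒜 f) :
    PTf 𝒜 (fun A x => redK (f A x)) := by
  unfold redK
  exact ((pt_outL hf).length.pair ((PTf.const 1).pair (pt_gbits (pt_outL hf)))).word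

end Pool.Agent.LibPcn
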