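import Pool.Agent.LibPcn.CMDefs
import Pool.Agent.LibPcg.PN12

set_option autoImplicit false

/-!
The values of the reduction encode the output graph.
-/

namespace Pool.Agent.LibPcn

open SimpleGraph Pool.Agent.LibPcg Pool.Agent.LibOpc Pool.Agent.LibComplexity

/-- the output graph of a formula -/
abbrev gr {V : Type} [DecidableEq V] (φ : List (List (V × Bool))) :
    SimpleGraph (Fin (outL φ).length) :=
  outG (bases (triples φ)) (quarts (triples φ))

open Classical in
theorem gbits_list (l : List Vc) (G : SimpleGraph (Fin l.length))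
    (hG : ∀ i j, G.Adj i j ↔ gadj l[i] l[j] = true) : gbits l = matrixBits G := by
  unfold gbits matrixBits
  have h : ∀ {γ : Type} (l : List γ),
      l = (List.finRange l.length).map fun i : Fin l.length => l[(i : ℕ)]'i.2 := by
    intro γ l
    rw [← List.ofFn_eq_map]
    simp
  have h1 : ∀ {γ : Type} (l : List γ) {β : Type} (g : γ → β),
      l.map g = (List.finRange l.length).map fun i : Fin l.length => g (l[(i : ℕ)]'i.2) := by
    intro γ l β g
    conv_lhs => rw [h l]
    rw [List.map_map]
    rfl
  have h2 : ∀ {γ : Type} (l : List γ) {β : Type} (g : γ → List β),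
      l.flatMap g =
        (List.finRange l.length).flatMap fun i : Fin l.length => g (l[(i : ℕ)]'i.2) := by
    intro γ l β g
    rw [List.flatMap_def, List.flatMap_def, h1 l g]
  rw [h2]
  congr 1
  funext i
  rw [h1]
  congr 1
  funext j
  rw [Bool.eq_iff_iff, decide_eq_true_iff, hG]
  rfl

theorem gbits_eq {V : Type} [DecidableEq V] (φ : List (List (V × Bool))) :
    gbits (outL φ) = matrixBits (gr φ) :=
  gbits_list (outV (bases (triples φ)) (quarts (triples φ))) _ fun _ _ => Iff.rfl

theorem redK_eq {V : Type} [DecidableEq V] (φ : List (List (V × Bool))) :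
    redK φ = encode (gr φ) 1 := by
  unfold redK encode
  rw [gbits_eq]

theorem bip_list (l : List Vc) (G : SimpleGraph (Fin l.length))
    (hG : ∀ i j, G.Adj i j ↔ gadj l[i] l[j] = true) : Bip G := by
  refine ⟨fun i => (l[i]).1, fun u v h hs => ?_⟩
  rw [hG] at h
  unfold gadj at h
  simp only at hs
  rw [hs] at h
  cases h2 : (l[v]).1
  · rw [h2] at h
    simp at h
  · rw [h2] at h
    simp at h

theorem gr_bip {V : Type} [DecidableEq V] (φ : List (List (V × Bool))) : Bip (gr φ) :=
  bip_list (outV (bases (triples φ)) (quarts (triples φ))) _ fun _ _ => Iff.rfl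

end Pool.Agent.LibPcn
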