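import Pool.Agent.LibPcn.M5
import Pool.Agent.LibPcn.M6
import Pool.Agent.LibPcn.M7
import Pool.Agent.LibPcn.C18

set_option autoImplicit false

/-!
NP-hardness of the recognition of PCGs.
-/

namespace Pool.Agent.LibPcn

open SimpleGraph Pool.Agent.LibPcg Pool.Agent.LibOpc Pool.Agent.LibComplexity

theorem pcg_hard (L : Set (List Bool)) (hL : InNP ∅ L) :
    ∃ f : List Bool → List Bool, InFP ∅ f ∧ ∀ w, ∃ (n : ℕ) (G : SimpleGraph (Fin n)),
      Bip G ∧ f w = encode G 1 ∧ (w ∈ L ↔ IsPCG G) := by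
  obtain ⟨F, hF, -, hFL⟩ := cook_levin hL
  refine ⟨fun x => redK (F x),
    inFP_of_PTf (A := ∅) (f := fun _ x => redK (F x)) (pt_redK (hF {∅})), fun w => ?_⟩
  refine ⟨_, gr (F w), gr_bip _, redK_eq _, ?_⟩
  rw [hFL w]
  exact sat_iff_pcg (F w)

end Pool.Agent.LibPcn
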